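import Pool.Agent.MP42.PC.SubT

/-!
# Project MP42: admissible ports from a placement (owner helper43)
-/

set_option autoImplicit false
set_option linter.unusedSectionVars false

namespace Pool.Agent.MP42.PC

open Pool.Agent.MP42.U

section ld

variable {C α J : Type*} [LinearOrder α] [Fintype C] [Fintype α] [Fintype J] (D : Contour C α)
  (cls : C → Prop) (cp : C → ℕ) (y a b : J → α)

/-- the port of a star -/
def port (a b : J → α) (x : J → Bool) (j : J) : α := if x j then b j else a j

open Classical in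
/-- the number of used letters in the subtree of a circle -/
noncomputable def used (x : J → Bool) (c : C) : ℕ :=
  (Finset.univ.filter fun j => D.lo c ≤ port a b x j ∧ port a b x j ≤ D.hi c).card +
    (Finset.univ.filter fun j => D.lo c ≤ y j ∧ y j ≤ D.hi c).card

open Classical in
/-- the load of a segment: ports, minus letters `y`, minus odd children -/
noncomputable def wt (x : J → Bool) (s : Sg D) : ℤ :=
  ((Finset.univ.filter fun j => sp D (port a b x j) = s).card : ℤ) -
    ((Finset.univ.filter fun j => sp D (y j) = s).card : ℤ) -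
    (if ∃ c, s.1 = Sum.inr c ∧ Odd (used D y a b x c) then 1 else 0)

/-- the subtree of a child contains only circles with even `cp` -/
def Gd (s : Sg D) : Prop := ∀ c, s.1 = Sum.inr c → ∀ z, Relation.ReflTransGen D.Up z c → Even (cp z)

/-- **admissible ports**: loads of initial segments at most `cp`, interval loads at most 3 -/
structure Adm (x : J → Bool) : Prop where
  itv : ∀ s₁ s₂ : Sg D, ho D s₂ = ho D s₁ → kk D cls s₁ ≤ kk D cls s₂ →
    (∀ s ∈ Plc.Iv D cls s₁ s₂, Gd D cp s) → ∑ s ∈ Plc.Iv D cls s₁ s₂, wt D y a b x s ≤ 3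
  pre : ∀ s₁ s₂ : Sg D, ho D s₂ = ho D s₁ → kk D cls s₁ ≤ kk D cls s₂ → Fst D cls s₁ →
    (∀ s ∈ Plc.Iv D cls s₁ s₂, Gd D cp s) →
      ∑ s ∈ Plc.Iv D cls s₁ s₂, wt D y a b x s ≤ cp (ho D s₁)

variable {D cls cp y a b}

namespace Plc

variable (Q : Plc D cls cp y a b)

open Classical in
/-- the choice of the ports -/
noncomputable def xx (j : J) : Bool := decide (Q.c (Q.W.iX j) = sp D (b j))

lemma c_port (j : J) : Q.c (Q.W.iX j) = sp D (port a b Q.xx j) := by
  classical
  unfold port xx
  by_cases h : Q.c (Q.W.iX j) = sp D (b j)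
  · rw [decide_eq_true h, if_pos rfl, h]
  · rw [decide_eq_false h]
    rcases Q.at_c (Q.W.iX j) with h1 | h1
    · exact h1
    · exact absurd h1 h

lemma tm_sp (c : C) (p : α) : Tm D c (sp D p) ↔ (D.lo c ≤ p ∧ p ≤ D.hi c) :=
  (D.mem_iff).symm

open Classical in
lemma wt_eq (s : Sg D) (hgd : Gd D cp s) : wt D y a b Q.xx s = (Q.pn s : ℤ) - (yn (D := D) (y := y) s : ℤ) -
    (Q.od s : ℤ) := by
  unfold wt
  have h1 : (Finset.univ.filter fun j => sp D (port a b Q.xx j) = s).card = Q.pn s := by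
    unfold pn
    congr 1
    ext j
    simp only [Finset.mem_filter, Finset.mem_univ, true_and, Q.c_port]
  have h2 : (Finset.univ.filter fun j => sp D (y j) = s).card = yn (D := D) (y := y) s := rfl
  rw [h1, h2]
  have h3 : (if ∃ c, s.1 = Sum.inr c ∧ Odd (used D y a b Q.xx c) then (1 : ℤ) else 0) =
      (Q.od s : ℤ) := by
    rcases s with ⟨p | c, hs⟩
    · rw [if_neg]
      · have := Q.od_sp p
        rw [show (⟨Sum.inl p, hs⟩ : Sg D) = sp D p from rfl, this]
        rfl
      · rintro ⟨c, h4, -⟩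
        simp at h4
    · have hc : c ≠ D.r := fun h4 => hs (by rw [h4])
      have h4 := Q.od_sc hc
      rw [show (⟨Sum.inr c, hs⟩ : Sg D) = sc D c hc from rfl, h4]
      have h5 := Q.up_parity hc (hgd c rfl)
      have h6 : (Finset.univ.filter fun j => Tm D c (Q.c (Q.W.iX j))).card +
          (Finset.univ.filter fun j => Tm D c (sp D (y j))).card = used D y a b Q.xx c := by
        unfold used
        congr 2
        · ext j
          simp only [Finset.mem_filter, Finset.mem_univ, true_and, Q.c_port]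
          rw [tm_sp]
        · ext j
          simp only [Finset.mem_filter, Finset.mem_univ, true_and]
          rw [tm_sp]
      rw [h6] at h5
      have h7 := Q.up_lst_le hc
      have h8 : Q.up (lst D cls c) = 0 ∨ Q.up (lst D cls c) = 1 := by omega
      rcases h8 with h8 | h8
      · rw [h8] at h5 ⊢
        rw [if_neg]
        · rfl
        · rintro ⟨c', h9, h10⟩
          have h11 : c = c' := Sum.inr_injective h9
          subst h11
          rw [Nat.cast_zero, ZMod.natCast_eq_zero_iff_even] at h5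
          exact Nat.not_odd_iff_even.2 h5 h10
      · rw [h8] at h5 ⊢
        rw [if_pos]
        · rfl
        · refine ⟨c, rfl, ?_⟩
          rw [Nat.cast_one] at h5
          exact ZMod.natCast_eq_one_iff_odd.1 h5
  rw [h3]

/-- **the ports of a placement are admissible** -/
theorem adm (hcp : ∀ z, cp z ≤ 2) : Adm D cls cp y a b Q.xx := by
  classical
  have key : ∀ s₁ s₂ : Sg D, ho D s₂ = ho D s₁ → kk D cls s₁ ≤ kk D cls s₂ →
      (∀ s ∈ Iv D cls s₁ s₂, Gd D cp s) →
      ∑ s ∈ Iv D cls s₁ s₂, wt D y a b Q.xx s ≤ (Q.W.bt s₁ : ℤ) + (Q.pu s₁ : ℤ) := by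
    intro s₁ s₂ h1 h2 hg
    have h3 := Q.interval s₁ _ s₂ h1 h2 le_rfl
    rw [Finset.sum_congr rfl (fun s hs => Q.wt_eq s (hg s hs)), Finset.sum_sub_distrib,
      Finset.sum_sub_distrib]
    rw [Finset.sum_add_distrib] at h3
    have h4 : ((∑ s ∈ Iv D cls s₁ s₂, Q.pn s : ℕ) : ℤ) + (Q.up s₂ : ℤ) ≤
        ((∑ s ∈ Iv D cls s₁ s₂, yn (D := D) (y := y) s : ℕ) : ℤ) +
        ((∑ s ∈ Iv D cls s₁ s₂, Q.od s : ℕ) : ℤ) + (Q.W.bt s₁ : ℤ) + (Q.pu s₁ : ℤ) := by
      exact_mod_cast h3
    rw [Nat.cast_sum, Nat.cast_sum, Nat.cast_sum] at h4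
    have h5 : (0 : ℤ) ≤ (Q.up s₂ : ℤ) := Nat.cast_nonneg _
    linarith
  have hbt : ∀ s, Q.W.bt s ≤ 2 := by
    intro s
    show (if Fst D cls s then cp (ho D s) else 0) ≤ 2
    split_ifs
    · exact hcp _
    · omega
  constructor
  · intro s₁ s₂ h1 h2 hg
    refine (key s₁ s₂ h1 h2 hg).trans ?_
    by_cases hf : Fst D cls s₁
    · rw [Q.pu_fst hf]
      have := hbt s₁
      push_cast
      omega
    · rw [Q.bt_not_fst hf]
      have := Q.pu_le s₁
      push_cast
      omega
  · intro s₁ s₂ h1 h2 hf hg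
    refine (key s₁ s₂ h1 h2 hg).trans ?_
    rw [Q.pu_fst hf]
    have : Q.W.bt s₁ = cp (ho D s₁) := if_pos hf
    rw [this]
    push_cast
    omega

end Plc

/-- a placement from Tutte's theorem -/
theorem exists_plc (h : ∀ T : Set (tsys D cls cp y a b).It,
      ¬ T.ncard < ((tsys D cls cp y a b).sys.H T).oddComponents.ncard) :
    Nonempty (Plc D cls cp y a b) := by
  classical
  have : Nonempty (Sg D) := ⟨rts D cls⟩
  have h1 := (SimpleGraph.tutte (G := (tsys D cls cp y a b).sys.G)).2 (fun T => h T)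
  obtain ⟨M, hM⟩ := h1
  obtain ⟨c, hc1, hc2⟩ := (tsys D cls cp y a b).sys.place M hM
  refine ⟨⟨c, hc1, fun s => ?_, fun s => ?_⟩⟩
  · rw [Nat.card_eq_fintype_card, Fintype.card_subtype]
    convert (hc2 s).1
  · rw [Nat.card_eq_fintype_card, Nat.card_eq_fintype_card, Fintype.card_subtype,
      Fintype.card_subtype]
    convert (hc2 s).2

end ld

end Pool.Agent.MP42.PC
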