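import Pool.Agent.MP42.PC.Digon1

/-!
# Project MP42: the clean digon lemma (owner helper43)

`Cz.digon`: many noncrossing chords have a rootless digon without ends of chords and without marks.
-/

set_option autoImplicit false
set_option linter.unusedSectionVars false

namespace Pool.Agent.MP42.PC

variable {J V K : Type*}

namespace Cz

variable {l r : J → ℤ} {u w : J → V} {col : V → Bool}

open Classical in
/-- **the clean digon lemma** -/
theorem digonZ (h : Cz l r u w col) (m : K → ℤ) : ∀ (n : ℕ) (M : Finset J) (W : Finset K),
    M.card ≤ n → M.Nonempty → 2 * (vs u w M).card + W.card ≤ M.card + 2 →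
    ∃ i ∈ M, ∃ k ∈ M, Par l r u w i k ∧ (∀ j ∈ M, ¬ In l r i k (l j) ∧ ¬ In l r i k (r j)) ∧
      ∀ z ∈ W, ¬ In l r i k (m z) := by
  intro n
  induction n with
  | zero =>
    intro M W h1 h2 _
    exact absurd (Finset.card_pos.2 h2) (by omega)
  | succ n ih =>
    intro M W hn hne hc
    -- a parallel pair
    have hpar : ∃ x ∈ M, ∃ y ∈ M, Par l r u w x y := by
      by_contra hno
      push Not at hno
      have hp : ∀ i ∈ M, ∀ k ∈ M, i ≠ k →
          ¬ (u i = u k ∧ w i = w k) ∧ ¬ (u i = w k ∧ w i = u k) := by
        intro i hi k hk hik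
        constructor
        · intro h1
          rcases h.par_of hik (Or.inl h1) with h2 | h2
          · exact hno i hi k hk h2
          · exact hno k hk i hi h2
        · intro h1
          rcases h.par_of hik (Or.inr h1) with h2 | h2
          · exact hno i hi k hk h2
          · exact hno k hk i hi h2
      by_cases h2 : 2 ≤ M.card
      · have := h.simple M.card M rfl h2 hp
        omega
      · have h3 : 1 ≤ M.card := Finset.card_pos.2 hne
        obtain ⟨j, hj⟩ := hne
        have h4 : ({u j, w j} : Finset V) ⊆ vs u w M := by
          intro x hx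
          simp only [Finset.mem_insert, Finset.mem_singleton] at hx
          exact mem_vs.2 ⟨j, hj, hx⟩
        have h5 := Finset.card_le_card h4
        rw [Finset.card_pair (h.huw j)] at h5
        omega
    -- an innermost one
    let S : Finset (J × J) := (M ×ˢ M).filter fun q => Par l r u w q.1 q.2
    obtain ⟨⟨x, y⟩, hxy, hmin⟩ := Finset.exists_min_image S
      (fun q => (M.filter fun j => In l r q.1 q.2 (l j)).card) (by
        obtain ⟨x, hx, y, hy, hp⟩ := hpar
        exact ⟨(x, y), Finset.mem_filter.2 ⟨Finset.mem_product.2 ⟨hx, hy⟩, hp⟩⟩)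
    obtain ⟨hxy1, hp⟩ := Finset.mem_filter.1 hxy
    obtain ⟨hx, hy⟩ := Finset.mem_product.1 hxy1
    simp only at hp hx hy hmin
    have hmin' : ∀ i ∈ M, ∀ k ∈ M, Par l r u w i k →
        (M.filter fun j => In l r x y (l j)).card ≤ (M.filter fun j => In l r i k (l j)).card :=
      fun i hi k hk hik => hmin (i, k) (Finset.mem_filter.2 ⟨Finset.mem_product.2 ⟨hi, hk⟩, hik⟩)
    set Mi : Finset J := M.filter fun j => In l r x y (l j) with hMi
    set Mo : Finset J := M.filter fun j => j ≠ x ∧ ¬ In l r x y (l j) with hMo
    set Wo : Finset K := W.filter fun z => ¬ In l r x y (m z) with hWo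
    have hnx := h.not_in_l hp
    have hyx : y ≠ x := fun h1 => Par.ne hp h1.symm
    have hyo : y ∈ Mo := Finset.mem_filter.2 ⟨hy, hyx, hnx.2.1⟩
    have hxi : x ∉ Mi := fun h1 => hnx.1 (Finset.mem_filter.1 h1).2
    -- counting
    have hcard : Mi.card + 1 + Mo.card = M.card := by
      have h1 : M = (insert x Mi) ∪ Mo := by
        ext j
        simp only [hMi, hMo, Finset.mem_union, Finset.mem_insert, Finset.mem_filter]
        by_cases h2 : j = x
        · subst h2
          simp [hx]
        · by_cases h3 : In l r x y (l j) <;> simp [h2, h3]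
      have h2 : Disjoint (insert x Mi) Mo := by
        rw [Finset.disjoint_left]
        intro j h3 h4
        rw [hMo, Finset.mem_filter] at h4
        rw [Finset.mem_insert] at h3
        rcases h3 with h3 | h3
        · exact h4.2.1 h3
        · exact h4.2.2 (Finset.mem_filter.1 h3).2
      conv_rhs => rw [h1]
      rw [Finset.card_union_of_disjoint h2, Finset.card_insert_of_notMem hxi]
    set Vi : Finset V := vs u w Mi \ {u x, w x} with hVi
    have hVo : (vs u w Mo).card + Vi.card ≤ (vs u w M).card := by
      have h1 : Disjoint (vs u w Mo) Vi := by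
        rw [Finset.disjoint_left]
        intro a ha hb
        rw [hVi, Finset.mem_sdiff] at hb
        obtain ⟨hb1, hb2⟩ := hb
        obtain ⟨i, hi, hia⟩ := mem_vs.1 hb1
        obtain ⟨k, hk, hka⟩ := mem_vs.1 ha
        rw [hMi, Finset.mem_filter] at hi
        rw [hMo, Finset.mem_filter] at hk
        have hi2 := (h.in_lr hp i).1 hi.2
        have hk2 : ¬ In l r x y (r k) := fun h3 => hk.2.2 ((h.in_lr hp k).2 h3)
        simp only [Finset.mem_insert, Finset.mem_singleton, not_or] at hb2
        have key : ∀ e e' : J × Bool, In l r x y (pos l r e) → ¬ In l r x y (pos l r e') →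
            a = vx u w e → a = vx u w e' → False := by
          intro e e' g1 g2 g3 g4
          rcases h.sep hp g1 g2 (g3.symm.trans g4) with g5 | g5
          · exact hb2.1 (g3.trans g5)
          · exact hb2.2 (g3.trans g5)
        rcases hia with hia | hia <;> rcases hka with hka | hka
        · exact key (i, false) (k, false) hi.2 hk.2.2 hia hka
        · exact key (i, false) (k, true) hi.2 hk2 hia hka
        · exact key (i, true) (k, false) hi2 hk.2.2 hia hka
        · exact key (i, true) (k, true) hi2 hk2 hia hka
      have h2 : vs u w Mo ∪ Vi ⊆ vs u w M := by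
        intro a ha
        rw [Finset.mem_union] at ha
        rcases ha with ha | ha
        · exact vs_mono (Finset.filter_subset _ _) ha
        · exact vs_mono (Finset.filter_subset _ _) (Finset.mem_sdiff.1 ha).1
      have h3 := Finset.card_le_card h2
      rwa [Finset.card_union_of_disjoint h1] at h3
    -- inside there are few chords
    have hin : Mi.Nonempty → Mi.card + 1 ≤ 2 * Vi.card := by
      intro hne'
      have h1 : (insert x Mi).card = Mi.card + 1 := Finset.card_insert_of_notMem hxi
      have h2 : 2 ≤ (insert x Mi).card := by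
        have := Finset.card_pos.2 hne'
        omega
      have hmem : ∀ i ∈ insert x Mi, i ∈ M ∧ (i = x ∨ In l r x y (l i)) := by
        intro i hi
        rw [Finset.mem_insert] at hi
        rcases hi with rfl | hi
        · exact ⟨hx, Or.inl rfl⟩
        · exact ⟨(Finset.mem_filter.1 hi).1, Or.inr (Finset.mem_filter.1 hi).2⟩
      have hnp : ∀ i ∈ insert x Mi, ∀ k ∈ insert x Mi, ¬ Par l r u w i k := by
        intro i hi k hk hik
        obtain ⟨hi1, hi2⟩ := hmem i hi
        obtain ⟨hk1, hk2⟩ := hmem k hk
        have h3 := hmin' i hi1 k hk1 hik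
        have h4 : (M.filter fun j => In l r i k (l j)) ⊂ Mi := by
          rw [Finset.ssubset_iff_of_subset]
          · by_cases hix : i = x
            · have hk3 : In l r x y (l k) := hk2.resolve_left (fun h5 => Par.ne hik (by
                rw [hix, h5]))
              refine ⟨k, Finset.mem_filter.2 ⟨hk1, hk3⟩, ?_⟩
              intro h5
              exact (h.not_in_l hik).2.1 (Finset.mem_filter.1 h5).2
            · refine ⟨i, Finset.mem_filter.2 ⟨hi1, hi2.resolve_left hix⟩, ?_⟩
              intro h5
              exact (h.not_in_l hik).1 (Finset.mem_filter.1 h5).2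
          · intro j hj
            obtain ⟨hj1, hj2⟩ := Finset.mem_filter.1 hj
            exact Finset.mem_filter.2 ⟨hj1, h.in_sub hp hik hi2 hk2 _ hj2⟩
        exact absurd (Finset.card_lt_card h4) (not_lt.2 h3)
      have h3 := h.simple (insert x Mi).card (insert x Mi) rfl h2 (by
        intro i hi k hk hik
        constructor
        · intro h4
          rcases h.par_of hik (Or.inl h4) with h5 | h5
          · exact hnp i hi k hk h5
          · exact hnp k hk i hi h5
        · intro h4
          rcases h.par_of hik (Or.inr h4) with h5 | h5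
          · exact hnp i hi k hk h5
          · exact hnp k hk i hi h5)
      have h4 : (vs u w (insert x Mi)).card ≤ Vi.card + 2 := by
        have h5 : vs u w (insert x Mi) ⊆ Vi ∪ {u x, w x} := by
          intro a ha
          by_cases h6 : a ∈ ({u x, w x} : Finset V)
          · exact Finset.mem_union_right _ h6
          · refine Finset.mem_union_left _ (Finset.mem_sdiff.2 ⟨?_, h6⟩)
            obtain ⟨j, hj, hja⟩ := mem_vs.1 ha
            rw [Finset.mem_insert] at hj
            rcases hj with rfl | hj
            · exact absurd (by simpa using hja) h6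
            · exact mem_vs.2 ⟨j, hj, hja⟩
        refine (Finset.card_le_card h5).trans ((Finset.card_union_le _ _).trans ?_)
        have := Finset.card_le_two (a := u x) (b := w x)
        omega
      omega
    -- induction, or done
    by_cases hdone : Mi = ∅ ∧ ∀ z ∈ W, ¬ In l r x y (m z)
    · refine ⟨x, hx, y, hy, hp, ?_, hdone.2⟩
      intro j hj
      have h1 : ¬ In l r x y (l j) := by
        intro h2
        have : j ∈ Mi := Finset.mem_filter.2 ⟨hj, h2⟩
        rw [hdone.1] at this
        exact absurd this (Finset.notMem_empty _)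
      exact ⟨h1, fun h2 => h1 ((h.in_lr hp j).2 h2)⟩
    · have hWle : Wo.card ≤ W.card := Finset.card_le_card (Finset.filter_subset _ _)
      have hc' : 2 * (vs u w Mo).card + Wo.card ≤ Mo.card + 2 := by
        by_cases hMe : Mi = ∅
        · have h1 : ∃ z ∈ W, In l r x y (m z) := by
            by_contra h2
            push Not at h2
            exact hdone ⟨hMe, h2⟩
          obtain ⟨z, hz, hz2⟩ := h1
          have h2 : Wo.card < W.card := by
            refine Finset.card_lt_card ?_
            rw [Finset.ssubset_iff_of_subset (Finset.filter_subset _ _)]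
            exact ⟨z, hz, fun h3 => (Finset.mem_filter.1 h3).2 hz2⟩
          have h3 : Mi.card = 0 := by rw [hMe]; rfl
          omega
        · have h1 := hin (Finset.nonempty_iff_ne_empty.2 hMe)
          omega
      obtain ⟨a, ha, b, hb, hq, hfree, hmk⟩ := ih Mo Wo (by omega) ⟨y, hyo⟩ hc'
      have ha' := Finset.mem_filter.1 ha
      have hb' := Finset.mem_filter.1 hb
      have hyf := (hfree y hyo).1
      by_cases hxin : In l r a b (l x)
      · obtain ⟨hby, hax, hsub⟩ := h.fin_one hp hq ha'.2.1 hb'.2.1 ha'.2.2 hb'.2.2 hyf hxin
        refine ⟨a, ha'.1, x, hx, hax, ?_, ?_⟩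
        · have key : ∀ j ∈ M, ¬ In l r a x (l j) := by
            intro j hj h1
            obtain ⟨h2, h3⟩ := hsub _ h1
            by_cases hjx : j = x
            · subst hjx
              exact (h.not_in_l hax).2.1 h1
            · exact (hfree j (Finset.mem_filter.2 ⟨hj, hjx, h3⟩)).1 h2
          intro j hj
          exact ⟨key j hj, fun h1 => key j hj ((h.in_lr hax j).2 h1)⟩
        · intro z hz h1
          obtain ⟨h2, h3⟩ := hsub _ h1
          exact hmk z (Finset.mem_filter.2 ⟨hz, h3⟩) h2
      · have hdis := h.fin_two hp hq ha'.2.1 hb'.2.1 ha'.2.2 hb'.2.2 hyf hxin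
        refine ⟨a, ha'.1, b, hb'.1, hq, ?_, ?_⟩
        · have key : ∀ j ∈ M, ¬ In l r a b (l j) := by
            intro j hj h1
            by_cases hjx : j = x
            · subst hjx
              exact hxin h1
            · exact (hfree j (Finset.mem_filter.2 ⟨hj, hjx, fun h3 => hdis _ h1 h3⟩)).1 h1
          intro j hj
          exact ⟨key j hj, fun h1 => key j hj ((h.in_lr hq j).2 h1)⟩
        · intro z hz h1
          exact hmk z (Finset.mem_filter.2 ⟨hz, fun h3 => hdis _ h1 h3⟩) h1

end Cz

end Pool.Agent.MP42.PC
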