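import Pool.Agent.MP42.PC.Euler

/-!
# Project MP42: digons of noncrossing chords (owner helper43)

`Cz.digon`: many noncrossing chords have a rootless digon without ends of chords and without marks.
-/

set_option autoImplicit false
set_option linter.unusedSectionVars false

namespace Pool.Agent.MP42.PC

/-! ## Digons -/

section Dg

variable {J V : Type*}

/-- the inside of the rootless digon of two chords (`l i < l k`) -/
def In (l r : J → ℤ) (i k : J) (p : ℤ) : Prop :=
  (r k < r i ∧ l i < l k ∧ ((l i < p ∧ p < l k) ∨ (r k < p ∧ p < r i))) ∨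
  (r i < l k ∧ ((l i < p ∧ p < r i) ∨ (l k < p ∧ p < r k)))

/-- two parallel chords -/
def Par (l r : J → ℤ) (u w : J → V) (i k : J) : Prop :=
  l i < l k ∧ ((r k < r i ∧ u i = u k ∧ w i = w k) ∨ (r i < l k ∧ w i = u k ∧ u i = w k))

namespace Cz

variable {l r : J → ℤ} {u w : J → V} {col : V → Bool}

lemma huw (h : Cz l r u w col) (j : J) : u j ≠ w j := fun h5 => h.co j (by rw [h5])

lemma par_of (h : Cz l r u w col) {i k : J} (hik : i ≠ k)
    (hp : (u i = u k ∧ w i = w k) ∨ (u i = w k ∧ w i = u k)) :
    Par l r u w i k ∨ Par l r u w k i := by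
  have key : ∀ i k : J, l i < l k → ((u i = u k ∧ w i = w k) ∨ (u i = w k ∧ w i = u k)) →
      Par l r u w i k := by
    intro i k hlt hp
    refine ⟨hlt, ?_⟩
    rcases h.nc i k hlt with h1 | h1
    · rcases hp with h2 | h2
      · exfalso
        have := h.nv (i, false) (i, true) (k, false) (k, true) (h.lr i) h1 (h.lr k) h2.1 h2.2
        exact h.huw i this
      · exact Or.inr ⟨h1, h2.2, h2.1⟩
    · rcases hp with h2 | h2
      · exact Or.inl ⟨h1, h2.1, h2.2⟩
      · exfalso
        have := h.nv (i, false) (k, false) (k, true) (i, true) hlt (h.lr k) h1 h2.1 h2.2.symm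
        exact h.huw k (this.symm.trans h2.1)
  rcases lt_trichotomy (l i) (l k) with h1 | h1 | h1
  · exact Or.inl (key i k h1 hp)
  · exact absurd (h.li _ _ h1) hik
  · refine Or.inr (key k i h1 ?_)
    rcases hp with h2 | h2
    · exact Or.inl ⟨h2.1.symm, h2.2.symm⟩
    · exact Or.inr ⟨h2.2.symm, h2.1.symm⟩

lemma Par.ne {i k : J} (hp : Par l r u w i k) : i ≠ k := by
  rintro rfl
  exact lt_irrefl _ hp.1

/-- distinct ends of distinct chords -/
lemma dist (h : Cz l r u w col) {i j : J} (hij : i ≠ j) :
    l i ≠ l j ∧ r i ≠ r j ∧ l i ≠ r j ∧ r i ≠ l j :=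
  ⟨fun h1 => hij (h.li _ _ h1), fun h1 => hij (h.ri _ _ h1), h.ne i j, fun h1 => h.ne j i h1.symm⟩

lemma in_lr (h : Cz l r u w col) {i k : J} (hp : Par l r u w i k) (j : J) :
    In l r i k (l j) ↔ In l r i k (r j) := by
  have h1 := h.lr i
  have h2 := h.lr k
  have h3 := h.lr j
  have h0 := hp.1
  have a1 := h.nc i j
  have a2 := h.nc j i
  have a3 := h.nc k j
  have a4 := h.nc j k
  have hp' : r k < r i ∨ r i < l k := by
    rcases hp.2 with h4 | h4
    · exact Or.inl h4.1
    · exact Or.inr h4.1
  by_cases e1 : j = i
  · subst e1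
    unfold In
    omega
  by_cases e2 : j = k
  · subst e2
    unfold In
    omega
  have d1 := h.dist e1
  have d2 := h.dist e2
  unfold In
  omega

lemma not_in_l (h : Cz l r u w col) {i k : J} (hp : Par l r u w i k) :
    ¬ In l r i k (l i) ∧ ¬ In l r i k (l k) ∧ ¬ In l r i k (r i) ∧ ¬ In l r i k (r k) := by
  have h1 := h.lr i
  have h2 := h.lr k
  have h0 := hp.1
  unfold In
  omega

/-- in a nested digon no class has ends on both sides -/
lemma conf (h : Cz l r u w col) {x y : J} (hu : u x = u y) (hw : w x = w y)
    {e e' : J × Bool} (h1 : l x ≤ pos l r e) (h2 : pos l r e < l y)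
    (h3 : r y < pos l r e') (h4 : pos l r e' ≤ r x) (he : vx u w e = vx u w e') : False := by
  have hy := h.lr y
  rcases h1.lt_or_eq with h1 | h1
  · rcases h4.lt_or_eq with h4 | h4
    · have s1 := h.nv (x, false) e (y, false) e' h1 h2 (show l y < _ by omega) hu he
      have s2 := h.nv e (y, true) e' (x, true) (show _ < r y by omega) h3 h4 he hw.symm
      have s3 : u x = w y := s1.trans s2
      exact h.huw x (s3.trans hw.symm)
    · have he' : e' = (x, true) := h.pos_inj h4
      subst he'
      have s1 := h.nv (x, false) e (y, false) (x, true) h1 h2 (show l y < r x by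
        have : r y < r x := h3
        omega) hu he
      have s2 : u x = vx u w e := s1
      exact h.huw x (s2.trans he)
  · have he0 : e = (x, false) := h.pos_inj h1.symm
    subst he0
    rcases h4.lt_or_eq with h4 | h4
    · have s1 := h.nv (y, false) (y, true) e' (x, true) hy h3 h4
        (show u y = _ from hu.symm.trans he) (show w y = w x from hw.symm)
      exact h.huw y s1
    · have he' : e' = (x, true) := h.pos_inj h4
      subst he'
      exact h.huw x he

/-- a digon inside a digon -/
lemma in_sub (h : Cz l r u w col) {x y i k : J} (hp : Par l r u w x y) (hik : Par l r u w i k)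
    (hi : i = x ∨ In l r x y (l i)) (hk : k = x ∨ In l r x y (l k)) (p : ℤ)
    (hin : In l r i k p) : In l r x y p := by
  have hi' : i = x ∨ In l r x y (r i) := hi.imp id (h.in_lr hp i).1
  have hk' : k = x ∨ In l r x y (r k) := hk.imp id (h.in_lr hp k).1
  have b1 := h.lr x
  have b2 := h.lr y
  have b3 := h.lr i
  have b4 := h.lr k
  have b5 := hp.1
  have b6 := hik.1
  rcases hp.2 with ⟨c1, c2, c3⟩ | ⟨c1, c2, c3⟩
  · -- nested
    have q1 : (l x ≤ l i ∧ l i < l y) ∨ (r y < l i ∧ l i ≤ r x) := by
      rcases hi with rfl | hi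
      · omega
      · unfold In at hi
        omega
    have q2 : (l x ≤ r i ∧ r i < l y) ∨ (r y < r i ∧ r i ≤ r x) := by
      rcases hi' with rfl | hi
      · omega
      · unfold In at hi
        omega
    have q3 : (l x ≤ l k ∧ l k < l y) ∨ (r y < l k ∧ l k ≤ r x) := by
      rcases hk with rfl | hi
      · omega
      · unfold In at hi
        omega
    have q4 : (l x ≤ r k ∧ r k < l y) ∨ (r y < r k ∧ r k ≤ r x) := by
      rcases hk' with rfl | hi
      · omega
      · unfold In at hi
        omega
    have cf : ∀ e e' : J × Bool, vx u w e = vx u w e' →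
        ¬ ((l x ≤ pos l r e ∧ pos l r e < l y) ∧ (r y < pos l r e' ∧ pos l r e' ≤ r x)) :=
      fun e e' he g => h.conf c2 c3 g.1.1 g.1.2 g.2.1 g.2.2 he
    rcases hik.2 with ⟨d1, d2, d3⟩ | ⟨d1, d2, d3⟩
    · have t1 := cf (i, false) (k, false) d2
      have t2 := cf (k, false) (i, false) d2.symm
      have t3 := cf (i, true) (k, true) d3
      have t4 := cf (k, true) (i, true) d3.symm
      simp only [pos_true, pos_false] at t1 t2 t3 t4
      unfold In at hin ⊢
      omega
    · have t1 := cf (i, true) (k, false) d2
      have t2 := cf (k, false) (i, true) d2.symm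
      have t3 := cf (i, false) (k, true) d3
      have t4 := cf (k, true) (i, false) d3.symm
      simp only [pos_true, pos_false] at t1 t2 t3 t4
      unfold In at hin ⊢
      omega
  · -- disjoint
    have q1 : (l x ≤ l i ∧ r i ≤ r x) ∨ (l y < l i ∧ r i < r y) := by
      rcases hi with rfl | hi
      · omega
      · rcases hi' with rfl | hi'
        · omega
        · have a1 := h.nc x i
          have a2 := h.nc y i
          unfold In at hi hi'
          omega
    have q2 : (l x ≤ l k ∧ r k ≤ r x) ∨ (l y < l k ∧ r k < r y) := by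
      rcases hk with rfl | hk
      · omega
      · rcases hk' with rfl | hk'
        · omega
        · have a1 := h.nc x k
          have a2 := h.nc y k
          unfold In at hk hk'
          omega
    rcases hik.2 with ⟨d1, d2, d3⟩ | ⟨d1, d2, d3⟩
    · unfold In at hin ⊢
      omega
    · unfold In at hin ⊢
      omega

/-- a class with an end inside and an end outside of a digon is one of the two classes -/
lemma sep (h : Cz l r u w col) {x y : J} (hp : Par l r u w x y) {e e' : J × Bool}
    (h1 : In l r x y (pos l r e)) (h2 : ¬ In l r x y (pos l r e')) (he : vx u w e = vx u w e') :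
    vx u w e = u x ∨ vx u w e = w x := by
  have b1 := h.lr x
  have b2 := h.lr y
  have b5 := hp.1
  have hpe : ∀ {p : ℤ} {f : J × Bool}, pos l r f = p → pos l r e' = p → e' = f :=
    fun g1 g2 => h.pos_inj (g2.trans g1.symm)
  by_cases g1 : pos l r e' = l x
  · have := hpe (f := (x, false)) rfl g1
    subst this
    exact Or.inl he
  by_cases g2 : pos l r e' = r x
  · have := hpe (f := (x, true)) rfl g2
    subst this
    exact Or.inr he
  by_cases g3 : pos l r e' = l y
  · have := hpe (f := (y, false)) rfl g3
    subst this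
    have he' : vx u w e = u y := he
    rcases hp.2 with ⟨c1, c2, c3⟩ | ⟨c1, c2, c3⟩
    · exact Or.inl (he'.trans c2.symm)
    · exact Or.inr (he'.trans c2.symm)
  by_cases g4 : pos l r e' = r y
  · have := hpe (f := (y, true)) rfl g4
    subst this
    have he' : vx u w e = w y := he
    rcases hp.2 with ⟨c1, c2, c3⟩ | ⟨c1, c2, c3⟩
    · exact Or.inr (he'.trans c3.symm)
    · exact Or.inl (he'.trans c3.symm)
  rcases hp.2 with ⟨c1, c2, c3⟩ | ⟨c1, c2, c3⟩
  · have h1' : (l x < pos l r e ∧ pos l r e < l y) ∨ (r y < pos l r e ∧ pos l r e < r x) := by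
      unfold In at h1
      omega
    rcases h1' with h3 | h3
    · have h4 : pos l r e' < l x ∨ l y < pos l r e' := by
        unfold In at h2
        omega
      rcases h4 with h4 | h4
      · have := h.nv e' (x, false) e (y, false) h4 h3.1 h3.2 he.symm c2
        exact Or.inl (he.trans this)
      · have := h.nv (x, false) e (y, false) e' h3.1 h3.2 h4 c2 he
        exact Or.inl this.symm
    · have h4 : pos l r e' < r y ∨ r x < pos l r e' := by
        unfold In at h2
        omega
      rcases h4 with h4 | h4
      · have := h.nv e' (y, true) e (x, true) h4 h3.1 h3.2 he.symm c3.symm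
        exact Or.inr ((he.trans this).trans c3.symm)
      · have := h.nv (y, true) e (x, true) e' h3.1 h3.2 h4 c3.symm he
        exact Or.inr (this.symm.trans c3.symm)
  · have h1' : (l x < pos l r e ∧ pos l r e < r x) ∨ (l y < pos l r e ∧ pos l r e < r y) := by
      unfold In at h1
      omega
    have h4 : pos l r e' < l x ∨ (r x < pos l r e' ∧ pos l r e' < l y) ∨ r y < pos l r e' := by
      unfold In at h2
      omega
    rcases h4 with h4 | h4 | h4
    · have := h.nv e' (x, false) e (y, true) h4 (show l x < _ by omega) (show _ < r y by omega)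
        he.symm c3
      exact Or.inl (he.trans this)
    · rcases h1' with h3 | h3
      · have := h.nv e (x, true) e' (y, false) h3.2 h4.1 h4.2 he c2
        exact Or.inr this
      · have := h.nv (x, true) e' (y, false) e h4.1 h4.2 h3.1 c2 he.symm
        exact Or.inr (he.trans this.symm)
    · have := h.nv (x, false) e (y, true) e' (show l x < _ by omega) (show _ < r y by omega) h4
        c3 he
      exact Or.inl this.symm

end Cz

end Dg

end Pool.Agent.MP42.PC
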