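import Pool.Agent.MP42.PC.Digon0

/-!
# Project MP42: the clean digon lemma (owner helper43)

`Cz.digon`: many noncrossing chords have a rootless digon without ends of chords and without marks.
-/

set_option autoImplicit false
set_option linter.unusedSectionVars false

namespace Pool.Agent.MP42.PC

variable {J V K : Type*}

namespace Cz

variable {l r : J → ℤ} {u w : J → V} {col : V → Bool}

/-- what a digon `(a, b)` of the remaining chords looks like, if it contains the end `l x` -/
lemma fin_one (h : Cz l r u w col) {x y a b : J} (hp : Par l r u w x y) (hq : Par l r u w a b)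
    (hax : a ≠ x) (hbx : b ≠ x) (ha : ¬ In l r x y (l a)) (hb : ¬ In l r x y (l b))
    (hy : ¬ In l r a b (l y)) (hx : In l r a b (l x)) :
    b = y ∧ Par l r u w a x ∧ ∀ p, In l r a x p → In l r a b p ∧ ¬ In l r x y p := by
  have ha' : ¬ In l r x y (r a) := fun h1 => ha ((h.in_lr hp a).2 h1)
  have hb' : ¬ In l r x y (r b) := fun h1 => hb ((h.in_lr hp b).2 h1)
  have hy' : ¬ In l r a b (r y) := fun h1 => hy ((h.in_lr hq y).2 h1)
  have hx' : In l r a b (r x) := (h.in_lr hq x).1 hx
  have b1 := h.lr x
  have b2 := h.lr y
  have b3 := h.lr a
  have b4 := h.lr b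
  have b5 := hp.1
  have b6 := hq.1
  have b7 := h.dist hax
  have b8 := h.dist hbx
  have hyx := (Par.ne hp)
  have b9 := h.dist hyx
  have b10 := h.dist (Par.ne hq)
  have nax := h.nc a x
  have nxa := h.nc x a
  by_cases hby : b = y
  · subst hby
    refine ⟨rfl, ?_⟩
    rcases hp.2 with ⟨c1, c2, c3⟩ | ⟨c1, c2, c3⟩ <;> rcases hq.2 with ⟨d1, d2, d3⟩ | ⟨d1, d2, d3⟩
    · -- nested, nested
      have e1 : l a < l x ∧ r x < r a := by
        unfold In at hx
        omega
      refine ⟨⟨e1.1, Or.inl ⟨e1.2, d2.trans c2.symm, d3.trans c3.symm⟩⟩, ?_⟩
      intro p hin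
      unfold In at hin ⊢
      omega
    · exfalso
      unfold In at hx
      omega
    · -- D disjoint, the other nested
      exfalso
      have e1 : l a < l x := by
        unfold In at hx
        omega
      have s := h.nv (a, false) (x, false) (x, true) (b, true) e1 b1 (show r x < r b by omega)
        (show u a = w x from d2.trans c2.symm) (show u x = w b from c3)
      exact h.huw x (s.symm.trans (d2.trans c2.symm))
    · have e1 : l a < l x ∧ r x < r a := by
        unfold In at hx
        omega
      refine ⟨⟨e1.1, Or.inl ⟨e1.2, d3.trans c3.symm, d2.trans c2.symm⟩⟩, ?_⟩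
      intro p hin
      unfold In at hin ⊢
      omega
  · exfalso
    have f2 := h.dist hby
    by_cases hay : a = y
    · subst hay
      unfold In at hx
      omega
    have f1 := h.dist hay
    have nya := h.nc y a
    have nay := h.nc a y
    have nyb := h.nc y b
    have nby := h.nc b y
    rcases hp.2 with ⟨c1, c2, c3⟩ | ⟨c1, c2, c3⟩
    · -- D nested
      unfold In at hx hy hy' ha ha' hb hb'
      omega
    · rcases hq.2 with ⟨d1, d2, d3⟩ | ⟨d1, d2, d3⟩
      · -- (a, b) nested
        have e0 : (l a < l x ∧ r x < l b ∧ l b < l y) ∨ (r b < l x ∧ r x < r a ∧ r a < l y) := by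
          unfold In at hx hx' hy hy' hb
          omega
        rcases e0 with ⟨e1, e2, e3⟩ | ⟨e1, e2, e3⟩
        · have s1 := h.nv (a, false) (x, false) (b, false) (y, true) e1 (show l x < l b by omega)
            (show l b < r y by omega) d2 (show u x = w y from c3)
          have s2 := h.nv (a, false) (x, true) (b, false) (y, false) (show l a < r x by omega) e2
            (show l b < l y by omega) d2 (show w x = u y from c2)
          exact h.huw x ((show u a = u x from s1).symm.trans s2)
        · have s1 := h.nv (b, true) (x, false) (a, true) (y, true) e1 (show l x < r a by omega)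
            (show r a < r y by omega) d3.symm (show u x = w y from c3)
          have s2 := h.nv (b, true) (x, true) (a, true) (y, false) (show r b < r x by omega) e2
            (show r a < l y by omega) d3.symm (show w x = u y from c2)
          exact h.huw x ((show w b = u x from s1).symm.trans s2)
      · -- (a, b) disjoint
        have e0 : (l a < l x ∧ r x < r a ∧ r a < l y) ∨ (l b < l x ∧ r x < r b ∧ r b < l y) := by
          unfold In at hx hx' hy hy'
          omega
        rcases e0 with ⟨e1, e2, e3⟩ | ⟨e1, e2, e3⟩
        · -- x inside a
          have e4 : r y < l b ∨ r b < l y := by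
            unfold In at hb hb' hy hy'
            omega
          rcases e4 with e4 | e4
          · have s1 := h.nv (x, true) (a, true) (y, false) (b, false) e2 e3
              (show l y < l b by omega) (show w x = u y from c2) d2
            have s2 := h.nv (x, false) (a, true) (y, true) (b, false) (show l x < r a by omega)
              (show r a < r y by omega) e4 (show u x = w y from c3) d2
            exact h.huw x ((show u x = w a from s2).trans (show w x = w a from s1).symm)
          · have s1 := h.nv (a, false) (x, false) (b, true) (y, true) e1 (show l x < r b by omega)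
              (show r b < r y by omega) d3 (show u x = w y from c3)
            have s2 := h.nv (a, false) (x, true) (b, true) (y, false) (show l a < r x by omega)
              (show r x < r b by omega) e4 d3 (show w x = u y from c2)
            exact h.huw x ((show u a = u x from s1).symm.trans s2)
        · have s1 := h.nv (a, false) (x, false) (b, true) (y, true) (show l a < l x by omega)
            (show l x < r b by omega) (show r b < r y by omega) d3 (show u x = w y from c3)
          have s2 := h.nv (a, false) (x, true) (b, true) (y, false) (show l a < r x by omega)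
            e2 e3 d3 (show w x = u y from c2)
          exact h.huw x ((show u a = u x from s1).symm.trans s2)

/-- a digon of the remaining chords which does not contain `l x` is disjoint from `(x, y)` -/
lemma fin_two (h : Cz l r u w col) {x y a b : J} (hp : Par l r u w x y) (hq : Par l r u w a b)
    (hax : a ≠ x) (hbx : b ≠ x) (ha : ¬ In l r x y (l a)) (hb : ¬ In l r x y (l b))
    (hy : ¬ In l r a b (l y)) (hx : ¬ In l r a b (l x)) (p : ℤ) (h1 : In l r a b p)
    (h2 : In l r x y p) : False := by
  have ha' : ¬ In l r x y (r a) := fun h1 => ha ((h.in_lr hp a).2 h1)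
  have hb' : ¬ In l r x y (r b) := fun h1 => hb ((h.in_lr hp b).2 h1)
  have hy' : ¬ In l r a b (r y) := fun h1 => hy ((h.in_lr hq y).2 h1)
  have hx' : ¬ In l r a b (r x) := fun h1 => hx ((h.in_lr hq x).2 h1)
  have b1 := h.lr x
  have b2 := h.lr y
  have b3 := h.lr a
  have b4 := h.lr b
  have b5 := hp.1
  have b6 := hq.1
  have b7 := h.dist hax
  have b8 := h.dist hbx
  have b9 := h.dist (Par.ne hp)
  have b10 := h.dist (Par.ne hq)
  rcases hp.2 with ⟨c1, c2, c3⟩ | ⟨c1, c2, c3⟩
  · unfold In at hx hx' ha ha' hb hb' h1 h2
    omega
  · by_cases hay : a = y
    · subst hay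
      rcases hq.2 with ⟨d1, d2, d3⟩ | ⟨d1, d2, d3⟩
      · unfold In at hx hx' ha ha' hb hb' h1 h2
        omega
      · have s := h.nv (x, false) (x, true) (a, true) (b, true) b1 (show r x < r a by omega)
          (show r a < r b by omega) (show u x = w a from c3)
          (show w x = w b from c2.trans d3)
        exact h.huw x s
    by_cases hby : b = y
    · subst hby
      have nax := h.nc a x
      have nxa := h.nc x a
      rcases hq.2 with ⟨d1, d2, d3⟩ | ⟨d1, d2, d3⟩
      · unfold In at hx hx' ha ha' hb hb' h1 h2
        omega
      · have e0 : r a < l x ∨ r x < l a := by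
          unfold In at hx hx' ha ha'
          omega
        rcases e0 with e0 | e0
        · have s := h.nv (a, false) (a, true) (x, false) (x, true) b3 e0 b1
            (show u a = u x from d3.trans c3.symm) (show w a = w x from d2.trans c2.symm)
          exact h.huw a s
        · have s := h.nv (x, false) (x, true) (a, false) (a, true) b1 e0 b3
            (show u x = u a from c3.trans d3.symm) (show w x = w a from c2.trans d2.symm)
          exact h.huw x s
    have f1 := h.dist hay
    have f2 := h.dist hby
    unfold In at hx hx' hy hy' ha ha' hb hb' h1 h2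
    omega

end Cz

end Pool.Agent.MP42.PC
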