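import Pool.Agent.MP42.PC.Digon

/-!
# Project MP42: the clean digon lemma in a linear order (owner helper43)
-/

set_option autoImplicit false
set_option linter.unusedSectionVars false

namespace Pool.Agent.MP42.PC

variable {J V K α : Type*} [LinearOrder α]

/-- the inside of the rootless digon of two chords (`l i < l k`) -/
def InA (l r : J → α) (i k : J) (p : α) : Prop :=
  (r k < r i ∧ l i < l k ∧ ((l i < p ∧ p < l k) ∨ (r k < p ∧ p < r i))) ∨
  (r i < l k ∧ ((l i < p ∧ p < r i) ∨ (l k < p ∧ p < r k)))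

/-- two parallel chords -/
def ParA (l r : J → α) (u w : J → V) (i k : J) : Prop :=
  l i < l k ∧ ((r k < r i ∧ u i = u k ∧ w i = w k) ∨ (r i < l k ∧ w i = u k ∧ u i = w k))

/-- the chords of `M` and their vertices -/
structure ChM (l r : J → α) (u w : J → V) (col : V → Bool) (M : Finset J) : Prop where
  lr : ∀ j ∈ M, l j < r j
  li : ∀ i ∈ M, ∀ j ∈ M, l i = l j → i = j
  ri : ∀ i ∈ M, ∀ j ∈ M, r i = r j → i = j
  ne : ∀ i ∈ M, ∀ j ∈ M, l i ≠ r j
  nc : ∀ i ∈ M, ∀ j ∈ M, l i < l j → r i < l j ∨ r j < r i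
  nv : ∀ e₁ e₂ e₃ e₄ : J × Bool, e₁.1 ∈ M → e₂.1 ∈ M → e₃.1 ∈ M → e₄.1 ∈ M →
    pos l r e₁ < pos l r e₂ → pos l r e₂ < pos l r e₃ →
    pos l r e₃ < pos l r e₄ → vx u w e₁ = vx u w e₃ → vx u w e₂ = vx u w e₄ →
    vx u w e₁ = vx u w e₂
  co : ∀ j ∈ M, col (u j) ≠ col (w j)

open Classical in
/-- the rank in a finite set -/
noncomputable def rk (S : Finset α) (p : α) : ℤ := ((S.filter fun q => q < p).card : ℤ)

lemma rk_lt {S : Finset α} {p q : α} (hp : p ∈ S) (h : p < q) : rk S p < rk S q := by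
  classical
  unfold rk
  rw [Nat.cast_lt]
  refine Finset.card_lt_card ?_
  rw [Finset.ssubset_iff_of_subset]
  · exact ⟨p, Finset.mem_filter.2 ⟨hp, h⟩, fun h1 => lt_irrefl _ (Finset.mem_filter.1 h1).2⟩
  · intro x hx
    obtain ⟨h1, h2⟩ := Finset.mem_filter.1 hx
    exact Finset.mem_filter.2 ⟨h1, h2.trans h⟩

lemma rk_lt_iff {S : Finset α} {p q : α} (hp : p ∈ S) (hq : q ∈ S) : rk S p < rk S q ↔ p < q := by
  constructor
  · intro h
    rcases lt_trichotomy p q with h1 | h1 | h1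
    · exact h1
    · rw [h1] at h
      exact absurd h (lt_irrefl _)
    · exact absurd (h.trans (rk_lt hq h1)) (lt_irrefl _)
  · exact rk_lt hp

lemma rk_inj {S : Finset α} {p q : α} (hp : p ∈ S) (hq : q ∈ S) (h : rk S p = rk S q) : p = q := by
  rcases lt_trichotomy p q with h1 | h1 | h1
  · exact absurd h (rk_lt hp h1).ne
  · exact h1
  · exact absurd h.symm (rk_lt hq h1).ne

open Classical in
/-- **the clean digon lemma**: many noncrossing chords, whose ends have noncrossing classes, have two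
parallel chords such that the rootless digon between them contains no end and no mark -/
theorem digon {l r : J → α} {u w : J → V} {col : V → Bool} {M : Finset J}
    (h : ChM l r u w col M) (m : K → α) (W : Finset K) (hne : M.Nonempty)
    (hc : 2 * (Cz.vs u w M).card + W.card ≤ M.card + 2) :
    ∃ i ∈ M, ∃ k ∈ M, ParA l r u w i k ∧
      (∀ j ∈ M, ¬ InA l r i k (l j) ∧ ¬ InA l r i k (r j)) ∧ ∀ z ∈ W, ¬ InA l r i k (m z) := by
  set S : Finset α := M.image l ∪ M.image r ∪ W.image m with hS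
  have hl : ∀ j ∈ M, l j ∈ S := fun j hj =>
    Finset.mem_union_left _ (Finset.mem_union_left _ (Finset.mem_image_of_mem _ hj))
  have hr : ∀ j ∈ M, r j ∈ S := fun j hj =>
    Finset.mem_union_left _ (Finset.mem_union_right _ (Finset.mem_image_of_mem _ hj))
  have hm : ∀ z ∈ W, m z ∈ S := fun z hz => Finset.mem_union_right _ (Finset.mem_image_of_mem _ hz)
  let l' : {j // j ∈ M} → ℤ := fun j => rk S (l j.1)
  let r' : {j // j ∈ M} → ℤ := fun j => rk S (r j.1)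
  let u' : {j // j ∈ M} → V := fun j => u j.1
  let w' : {j // j ∈ M} → V := fun j => w j.1
  have hpos : ∀ e : {j // j ∈ M} × Bool, pos l' r' e = rk S (pos l r (e.1.1, e.2)) := by
    rintro ⟨j, b⟩
    cases b <;> rfl
  have hposS : ∀ e : {j // j ∈ M} × Bool, pos l r (e.1.1, e.2) ∈ S := by
    rintro ⟨j, b⟩
    cases b
    · exact hl _ j.2
    · exact hr _ j.2
  have hvx : ∀ e : {j // j ∈ M} × Bool, vx u' w' e = vx u w (e.1.1, e.2) := by
    rintro ⟨j, b⟩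
    cases b <;> rfl
  have hz : Cz l' r' u' w' col :=
    { lr := fun j => rk_lt (hl _ j.2) (h.lr _ j.2)
      li := fun i j hij => Subtype.ext (h.li _ i.2 _ j.2 (rk_inj (hl _ i.2) (hl _ j.2) hij))
      ri := fun i j hij => Subtype.ext (h.ri _ i.2 _ j.2 (rk_inj (hr _ i.2) (hr _ j.2) hij))
      ne := fun i j hij => h.ne _ i.2 _ j.2 (rk_inj (hl _ i.2) (hr _ j.2) hij)
      nc := by
        intro i j hij
        rcases h.nc _ i.2 _ j.2 ((rk_lt_iff (hl _ i.2) (hl _ j.2)).1 hij) with h1 | h1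
        · exact Or.inl (rk_lt (hr _ i.2) h1)
        · exact Or.inr (rk_lt (hr _ j.2) h1)
      nv := by
        intro e₁ e₂ e₃ e₄ h1 h2 h3 h4 h5
        rw [hpos, hpos, rk_lt_iff (hposS _) (hposS _)] at h1 h2 h3
        rw [hvx, hvx] at h4 h5 ⊢
        exact h.nv _ _ _ _ e₁.1.2 e₂.1.2 e₃.1.2 e₄.1.2 h1 h2 h3 h4 h5
      co := fun j => h.co _ j.2 }
  have hin : ∀ (i k : {j // j ∈ M}) (p : α), p ∈ S →
      (In l' r' i k (rk S p) ↔ InA l r i.1 k.1 p) := by
    intro i k p hp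
    unfold In InA
    simp only [l', r', rk_lt_iff (hl _ i.2) (hl _ k.2), rk_lt_iff (hr _ k.2) (hr _ i.2),
      rk_lt_iff (hl _ i.2) hp, rk_lt_iff hp (hl _ k.2), rk_lt_iff (hr _ k.2) hp,
      rk_lt_iff hp (hr _ i.2), rk_lt_iff (hr _ i.2) (hl _ k.2), rk_lt_iff (hl _ k.2) hp,
      rk_lt_iff hp (hr _ k.2)]
  have hpar : ∀ i k : {j // j ∈ M}, Par l' r' u' w' i k → ParA l r u w i.1 k.1 := by
    rintro i k ⟨h1, h2⟩
    refine ⟨(rk_lt_iff (hl _ i.2) (hl _ k.2)).1 h1, ?_⟩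
    rcases h2 with ⟨h3, h4⟩ | ⟨h3, h4⟩
    · exact Or.inl ⟨(rk_lt_iff (hr _ k.2) (hr _ i.2)).1 h3, h4⟩
    · exact Or.inr ⟨(rk_lt_iff (hr _ i.2) (hl _ k.2)).1 h3, h4⟩
  have hvs : Cz.vs u' w' (Finset.univ : Finset {j // j ∈ M}) = Cz.vs u w M := by
    ext x
    rw [Cz.mem_vs, Cz.mem_vs]
    constructor
    · rintro ⟨j, -, hj⟩
      exact ⟨j.1, j.2, hj⟩
    · rintro ⟨j, hj, hx⟩
      exact ⟨⟨j, hj⟩, Finset.mem_univ _, hx⟩
  obtain ⟨j0, hj0⟩ := hne
  obtain ⟨i, -, k, -, h1, h2, h3⟩ := hz.digonZ (fun z : {z // z ∈ W} => rk S (m z.1))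
    (Finset.univ : Finset {j // j ∈ M}).card Finset.univ Finset.univ le_rfl
    ⟨⟨j0, hj0⟩, Finset.mem_univ _⟩ (by
      rw [hvs, Finset.card_univ, Finset.card_univ, Fintype.card_coe, Fintype.card_coe]
      exact hc)
  refine ⟨i.1, i.2, k.1, k.2, hpar _ _ h1, ?_, ?_⟩
  · intro j hj
    obtain ⟨h4, h5⟩ := h2 ⟨j, hj⟩ (Finset.mem_univ _)
    exact ⟨fun h6 => h4 ((hin i k _ (hl _ hj)).2 h6), fun h6 => h5 ((hin i k _ (hr _ hj)).2 h6)⟩
  · intro z hz' h4
    exact h3 ⟨z, hz'⟩ (Finset.mem_univ _) ((hin i k _ (hm _ hz')).2 h4)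

end Pool.Agent.MP42.PC
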