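import Mathlib

/-!
# Project MP42: noncrossing chords with noncrossing classes (owner helper43)

`Ch.simple`: a bipartite plane simple graph without isolated edges, given by noncrossing chords of a
line and a noncrossing partition of their ends, has at most `2 |V| - 4` edges.
-/

set_option autoImplicit false
set_option linter.unusedSectionVars false

namespace Pool.Agent.MP42.PC

variable {J V α : Type*} [LinearOrder α]

/-- the position of an end -/
def pos (l r : J → α) (e : J × Bool) : α := if e.2 then r e.1 else l e.1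

/-- the other end of the chord -/
def opp (e : J × Bool) : J × Bool := (e.1, !e.2)

@[simp] lemma opp_opp (e : J × Bool) : opp (opp e) = e := by simp [opp]
@[simp] lemma opp_fst (e : J × Bool) : (opp e).1 = e.1 := rfl
@[simp] lemma pos_true (l r : J → α) (j : J) : pos l r (j, true) = r j := rfl
@[simp] lemma pos_false (l r : J → α) (j : J) : pos l r (j, false) = l j := rfl

/-- noncrossing chords, the classes of the ends are noncrossing, every chord joins two colours -/
structure Ch (l r : J → α) (v : α → V) (col : V → Bool) : Prop where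
  lr : ∀ j, l j < r j
  li : Function.Injective l
  ri : Function.Injective r
  ne : ∀ i j, l i ≠ r j
  nc : ∀ i j, l i < l j → r i < l j ∨ r j < r i
  nv : ∀ e₁ e₂ e₃ e₄ : J × Bool, pos l r e₁ < pos l r e₂ → pos l r e₂ < pos l r e₃ →
    pos l r e₃ < pos l r e₄ → v (pos l r e₁) = v (pos l r e₃) → v (pos l r e₂) = v (pos l r e₄) →
    v (pos l r e₁) = v (pos l r e₂)
  co : ∀ j, col (v (l j)) ≠ col (v (r j))

namespace Ch

variable {l r : J → α} {v : α → V} {col : V → Bool}

lemma pos_inj (h : Ch l r v col) : Function.Injective (pos l r) := by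
  rintro ⟨i, b⟩ ⟨j, c⟩ he
  cases b <;> cases c <;> simp only [pos_true, pos_false] at he
  · rw [h.li he]
  · exact absurd he (h.ne i j)
  · exact absurd he.symm (h.ne j i)
  · rw [h.ri he]

lemma pos_opp_ne (h : Ch l r v col) (e : J × Bool) : v (pos l r e) ≠ v (pos l r (opp e)) := by
  intro h1
  have h2 := congrArg col h1
  rcases e with ⟨j, b⟩
  cases b
  · exact h.co j h2
  · exact h.co j h2.symm

lemma col_opp (h : Ch l r v col) (e : J × Bool) :
    col (v (pos l r (opp e))) = !col (v (pos l r e)) := by
  rcases e with ⟨j, b⟩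
  have h1 := h.co j
  cases b
  · show col (v (r j)) = !col (v (l j))
    cases h2 : col (v (l j)) <;> cases h3 : col (v (r j)) <;> simp_all
  · show col (v (l j)) = !col (v (r j))
    cases h2 : col (v (l j)) <;> cases h3 : col (v (r j)) <;> simp_all

/-- the next end of the same class, in cyclic order -/
lemma exists_nxt [Fintype J] (l r : J → α) (v : α → V) (e : J × Bool) :
    ∃ f : J × Bool, v (pos l r f) = v (pos l r e) ∧
      ((pos l r e < pos l r f ∧
        ∀ e', v (pos l r e') = v (pos l r e) → pos l r e < pos l r e' → pos l r f ≤ pos l r e') ∨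
       ((∀ e', v (pos l r e') = v (pos l r e) → pos l r e' ≤ pos l r e) ∧
        ∀ e', v (pos l r e') = v (pos l r e) → pos l r f ≤ pos l r e')) := by
  classical
  by_cases hS : ∃ e', v (pos l r e') = v (pos l r e) ∧ pos l r e < pos l r e'
  · obtain ⟨f, hf, hmin⟩ := Finset.exists_min_image
      (Finset.univ.filter fun e' : J × Bool => v (pos l r e') = v (pos l r e) ∧
        pos l r e < pos l r e') (pos l r) (by
          obtain ⟨e', he'⟩ := hS
          exact ⟨e', by simpa using he'⟩)
    simp only [Finset.mem_filter, Finset.mem_univ, true_and] at hf hmin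
    exact ⟨f, hf.1, Or.inl ⟨hf.2, fun e' h1 h2 => hmin e' ⟨h1, h2⟩⟩⟩
  · push Not at hS
    obtain ⟨f, hf, hmin⟩ := Finset.exists_min_image
      (Finset.univ.filter fun e' : J × Bool => v (pos l r e') = v (pos l r e)) (pos l r)
        ⟨e, by simp⟩
    simp only [Finset.mem_filter, Finset.mem_univ, true_and] at hf hmin
    exact ⟨f, hf, Or.inr ⟨hS, hmin⟩⟩

/-- the next end of the same class -/
noncomputable def nxt [Fintype J] (l r : J → α) (v : α → V) (e : J × Bool) : J × Bool :=
  (exists_nxt l r v e).choose

lemma nxt_spec [Fintype J] (l r : J → α) (v : α → V) (e : J × Bool) :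
    v (pos l r (nxt l r v e)) = v (pos l r e) ∧
      ((pos l r e < pos l r (nxt l r v e) ∧
        ∀ e', v (pos l r e') = v (pos l r e) → pos l r e < pos l r e' →
          pos l r (nxt l r v e) ≤ pos l r e') ∨
       ((∀ e', v (pos l r e') = v (pos l r e) → pos l r e' ≤ pos l r e) ∧
        ∀ e', v (pos l r e') = v (pos l r e) → pos l r (nxt l r v e) ≤ pos l r e')) :=
  (exists_nxt l r v e).choose_spec

/-- the jump at an end -/
def jm (c : J → ℚ) (e : J × Bool) : ℚ := if e.2 then - c e.1 else c e.1

/-- the sum of the jumps in a set of positions -/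
noncomputable def sm [Fintype J] (l r : J → α) (c : J → ℚ) (I : Set α) : ℚ := by
  classical exact ∑ e : J × Bool, if pos l r e ∈ I then jm c e else 0

/-- a set which contains with an end the other end -/
lemma sm_chord [Fintype J] {c : J → ℚ} {I : Set α} (hI : ∀ j, l j ∈ I ↔ r j ∈ I) :
    sm l r c I = 0 := by
  classical
  unfold sm
  rw [Fintype.sum_prod_type]
  refine Finset.sum_eq_zero fun j _ => ?_
  rw [Fintype.sum_bool]
  simp only [pos_true, pos_false, jm]
  by_cases h : l j ∈ I
  · rw [if_pos ((hI j).1 h), if_pos h]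
    simp
  · rw [if_neg (fun h' => h ((hI j).2 h')), if_neg h]
    simp

/-- a set which is a union of classes -/
lemma sm_class [Fintype J] {c : J → ℚ} {I : Set α}
    (hc : ∀ w, sm l r c {p | v p = w} = 0)
    (hI : ∀ e f, v (pos l r e) = v (pos l r f) → pos l r e ∈ I → pos l r f ∈ I) :
    sm l r c I = 0 := by
  classical
  let K : Finset V := Finset.univ.image fun e : J × Bool => v (pos l r e)
  have h1 : sm l r c I = ∑ w ∈ K, sm l r c {p | p ∈ I ∧ v p = w} := by
    unfold sm
    rw [Finset.sum_comm]
    refine Finset.sum_congr rfl fun e _ => ?_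
    by_cases he : pos l r e ∈ I
    · rw [if_pos he, Finset.sum_eq_single (v (pos l r e))]
      · rw [if_pos (show pos l r e ∈ {p | p ∈ I ∧ v p = v (pos l r e)} from ⟨he, rfl⟩)]
      · intro w _ hw
        rw [if_neg]
        rintro ⟨-, h⟩
        exact hw h.symm
      · intro h
        exact absurd (Finset.mem_image_of_mem _ (Finset.mem_univ e)) h
    · rw [if_neg he]
      symm
      refine Finset.sum_eq_zero fun w _ => ?_
      rw [if_neg]
      rintro ⟨h, -⟩
      exact he h
  rw [h1]
  refine Finset.sum_eq_zero fun w _ => ?_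
  by_cases hw : ∃ e, pos l r e ∈ I ∧ v (pos l r e) = w
  · obtain ⟨e, he, rfl⟩ := hw
    rw [← hc (v (pos l r e))]
    unfold sm
    refine Finset.sum_congr rfl fun f _ => ?_
    by_cases hf : v (pos l r f) = v (pos l r e)
    · rw [if_pos (show pos l r f ∈ {p | p ∈ I ∧ v p = v (pos l r e)} from
        ⟨hI e f hf.symm he, hf⟩), if_pos (show pos l r f ∈ {p | v p = v (pos l r e)} from hf)]
    · rw [if_neg (fun h => hf h.2),
        if_neg (show ¬ (pos l r f ∈ {p | v p = v (pos l r e)}) from hf)]
  · push Not at hw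
    unfold sm
    refine Finset.sum_eq_zero fun f _ => ?_
    rw [if_neg]
    rintro ⟨h2, h3⟩
    exact hw f h2 h3

lemma sm_union [Fintype J] {c : J → ℚ} {I I' K : Set α} (h : ∀ p, p ∈ K ↔ p ∈ I ∨ p ∈ I')
    (hd : ∀ p, p ∈ I → p ∉ I') : sm l r c K = sm l r c I + sm l r c I' := by
  classical
  unfold sm
  rw [← Finset.sum_add_distrib]
  refine Finset.sum_congr rfl fun e _ => ?_
  by_cases h1 : pos l r e ∈ I
  · rw [if_pos ((h _).2 (Or.inl h1)), if_pos h1, if_neg (hd _ h1), add_zero]
  · by_cases h2 : pos l r e ∈ I'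
    · rw [if_pos ((h _).2 (Or.inr h2)), if_neg h1, if_pos h2, zero_add]
    · rw [if_neg (fun h3 => (((h _).1 h3).elim h1 h2)), if_neg h1, if_neg h2, add_zero]

lemma icc_iff (h : Ch l r v col) (i j : J) : l i ∈ Set.Icc (l j) (r j) ↔ r i ∈ Set.Icc (l j) (r j) := by
  simp only [Set.mem_Icc]
  constructor
  · rintro ⟨h2, h3⟩
    rcases h2.lt_or_eq with h4 | h4
    · rcases h.nc j i h4 with h5 | h5
      · exact absurd h3 (not_le.2 h5)
      · exact ⟨h2.trans (h.lr i).le, h5.le⟩
    · rw [← h.li h4]
      exact ⟨(h.lr j).le, le_rfl⟩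
  · rintro ⟨h2, h3⟩
    refine ⟨?_, (h.lr i).le.trans h3⟩
    by_contra h4
    rcases h.nc i j (not_le.1 h4) with h5 | h5
    · exact absurd h2 (not_le.2 h5)
    · exact absurd h3 (not_le.2 h5)

lemma ioo_iff (h : Ch l r v col) (i j : J) : l i ∈ Set.Ioo (l j) (r j) ↔ r i ∈ Set.Ioo (l j) (r j) := by
  simp only [Set.mem_Ioo]
  constructor
  · rintro ⟨h2, h3⟩
    rcases h.nc j i h2 with h5 | h5
    · exact absurd h3 (not_lt.2 h5.le)
    · exact ⟨h2.trans (h.lr i), h5⟩
  · rintro ⟨h2, h3⟩
    refine ⟨?_, (h.lr i).trans h3⟩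
    by_contra h4
    rcases (not_lt.1 h4).lt_or_eq with h6 | h6
    · rcases h.nc i j h6 with h5 | h5
      · exact absurd h2 (not_lt.2 h5.le)
      · exact absurd h3 (not_lt.2 h5.le)
    · rw [h.li h6] at h3
      exact lt_irrefl _ h3

/-- the chord property: the value behind the other end is the value before the end -/
lemma chord_val (h : Ch l r v col) [Fintype J] (c : J → ℚ) (e : J × Bool) :
    sm l r c (Set.Iic (pos l r (opp e))) = sm l r c (Set.Iio (pos l r e)) := by
  rcases e with ⟨j, b⟩
  cases b
  · -- left end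
    show sm l r c (Set.Iic (r j)) = sm l r c (Set.Iio (l j))
    have h1 : sm l r c (Set.Icc (l j) (r j)) = 0 := sm_chord fun i => h.icc_iff i j
    rw [sm_union (I := Set.Iio (l j)) (I' := Set.Icc (l j) (r j)), h1, add_zero]
    · intro p
      simp only [Set.mem_Iic, Set.mem_Iio, Set.mem_Icc]
      constructor
      · intro h2
        rcases lt_or_ge p (l j) with h3 | h3
        · exact Or.inl h3
        · exact Or.inr ⟨h3, h2⟩
      · rintro (h2 | h2)
        · exact h2.le.trans (h.lr j).le
        · exact h2.2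
    · intro p h2 h3
      exact absurd h2 (not_lt.2 h3.1)
  · show sm l r c (Set.Iic (l j)) = sm l r c (Set.Iio (r j))
    have h1 : sm l r c (Set.Ioo (l j) (r j)) = 0 := sm_chord fun i => h.ioo_iff i j
    rw [sm_union (K := Set.Iio (r j)) (I := Set.Iic (l j)) (I' := Set.Ioo (l j) (r j)), h1, add_zero]
    · intro p
      simp only [Set.mem_Iic, Set.mem_Iio, Set.mem_Ioo]
      constructor
      · intro h2
        rcases le_or_gt p (l j) with h3 | h3
        · exact Or.inl h3
        · exact Or.inr ⟨h3, h2⟩
      · rintro (h2 | h2)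
        · exact h2.trans_lt (h.lr j)
        · exact h2.2
    · intro p h2 h3
      exact absurd h3.1 (not_lt.2 h2)

/-- the class property: the value before the next end of the class is the value behind the end -/
lemma class_val (h : Ch l r v col) [Fintype J] {c : J → ℚ}
    (hc : ∀ w, sm l r c {p | v p = w} = 0) (e : J × Bool) :
    sm l r c (Set.Iio (pos l r (nxt l r v e))) = sm l r c (Set.Iic (pos l r e)) := by
  obtain ⟨h0, h1 | h1⟩ := nxt_spec l r v e
  · obtain ⟨h1, h2⟩ := h1
    have h3 : sm l r c (Set.Ioo (pos l r e) (pos l r (nxt l r v e))) = 0 := by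
      refine sm_class hc fun f f' hf hm => ?_
      have hfe : v (pos l r f) ≠ v (pos l r e) := by
        intro h4
        exact absurd (h2 f h4 hm.1) (not_le.2 hm.2)
      constructor
      · by_contra h4
        rcases (not_lt.1 h4).lt_or_eq with h5 | h5
        · have := h.nv f' e f (nxt l r v e) h5 hm.1 hm.2 hf.symm h0.symm
          exact hfe (hf.trans this)
        · exact hfe (by rw [hf, h5])
      · by_contra h4
        rcases (not_lt.1 h4).lt_or_eq with h5 | h5
        · have := h.nv e f (nxt l r v e) f' hm.1 hm.2 h5 h0.symm hf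
          exact hfe this.symm
        · exact hfe (by rw [hf, ← h5, h0])
    rw [sm_union (I := Set.Iic (pos l r e)) (I' := Set.Ioo (pos l r e) (pos l r (nxt l r v e))), h3,
      add_zero]
    · intro p
      simp only [Set.mem_Iic, Set.mem_Iio, Set.mem_Ioo]
      constructor
      · intro h4
        rcases le_or_gt p (pos l r e) with h5 | h5
        · exact Or.inl h5
        · exact Or.inr ⟨h5, h4⟩
      · rintro (h4 | h4)
        · exact h4.trans_lt h1
        · exact h4.2
    · intro p h4 h5
      exact absurd h5.1 (not_lt.2 h4)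
  · obtain ⟨h1, h2⟩ := h1
    have h3 : sm l r c (Set.Icc (pos l r (nxt l r v e)) (pos l r e)) = 0 := by
      refine sm_class hc fun f f' hf hm => ?_
      by_cases hfe : v (pos l r f) = v (pos l r e)
      · exact ⟨h2 f' (hf.symm.trans hfe), h1 f' (hf.symm.trans hfe)⟩
      · have hm1 : pos l r (nxt l r v e) < pos l r f :=
          lt_of_le_of_ne hm.1 (fun h4 => hfe (by rw [← h4, h0]))
        have hm2 : pos l r f < pos l r e :=
          lt_of_le_of_ne hm.2 (fun h4 => hfe (by rw [h4]))
        constructor
        · by_contra h4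
          have := h.nv f' (nxt l r v e) f e (not_le.1 h4) hm1 hm2 hf.symm h0
          exact hfe (hf.trans (this.trans h0))
        · by_contra h4
          have := h.nv (nxt l r v e) f e f' hm1 hm2 (not_le.1 h4) h0 hf
          exact hfe (this.symm.trans h0)
    rw [sm_union (K := Set.Iic (pos l r e)) (I := Set.Iio (pos l r (nxt l r v e)))
      (I' := Set.Icc (pos l r (nxt l r v e)) (pos l r e)), h3, add_zero]
    · intro p
      simp only [Set.mem_Iic, Set.mem_Iio, Set.mem_Icc]
      constructor
      · intro h4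
        rcases lt_or_ge p (pos l r (nxt l r v e)) with h5 | h5
        · exact Or.inl h5
        · exact Or.inr ⟨h5, h4⟩
      · rintro (h4 | h4)
        · exact h4.le.trans (h2 e rfl)
        · exact h4.2
    · intro p h4 h5
      exact absurd h4 (not_lt.2 h5.1)

/-- one step along a face -/
noncomputable def fc [Fintype J] (l r : J → α) (v : α → V) (e : J × Bool) : J × Bool :=
  nxt l r v (opp e)

lemma fc_val (h : Ch l r v col) [Fintype J] {c : J → ℚ}
    (hc : ∀ w, sm l r c {p | v p = w} = 0) (e : J × Bool) :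
    sm l r c (Set.Iio (pos l r (fc l r v e))) = sm l r c (Set.Iio (pos l r e)) :=
  (h.class_val hc (opp e)).trans (h.chord_val c e)

lemma fc_col (h : Ch l r v col) [Fintype J] (e : J × Bool) :
    col (v (pos l r (fc l r v e))) = !col (v (pos l r e)) := by
  unfold fc
  rw [(nxt_spec l r v (opp e)).1, h.col_opp]

lemma nxt_eq [Fintype J] {e : J × Bool} (h : nxt l r v e = e) (f : J × Bool)
    (hf : v (pos l r f) = v (pos l r e)) : pos l r f = pos l r e := by
  obtain ⟨-, h1 | h1⟩ := nxt_spec l r v e
  · rw [h] at h1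
    exact absurd h1.1 (lt_irrefl _)
  · rw [h] at h1
    exact le_antisymm (h1.1 f hf) (h1.2 f hf)

/-- two steps along a face lead to another end -/
lemma fc_two (h : Ch l r v col) [Fintype J]
    (hp : ∀ i k, i ≠ k → ¬ (v (l i) = v (l k) ∧ v (r i) = v (r k)) ∧
      ¬ (v (l i) = v (r k) ∧ v (r i) = v (l k)))
    (hi : ∀ j, ∃ e : J × Bool, e.1 ≠ j ∧ (v (pos l r e) = v (l j) ∨ v (pos l r e) = v (r j)))
    (e : J × Bool) : fc l r v (fc l r v e) ≠ e := by
  intro he
  have h1 : v (pos l r (fc l r v e)) = v (pos l r (opp e)) := (nxt_spec l r v (opp e)).1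
  have h2 : v (pos l r e) = v (pos l r (opp (fc l r v e))) := by
    conv_lhs => rw [← he]
    exact (nxt_spec l r v (opp (fc l r v e))).1
  set f := fc l r v e with hf
  by_cases hj : f.1 = e.1
  · have hfo : f = opp e := by
      rcases f with ⟨j, b⟩
      rcases e with ⟨j', b'⟩
      simp only at hj
      subst hj
      by_cases hb : b = b'
      · subst hb
        exact absurd h1 (h.pos_opp_ne (j, b))
      · have : b = !b' := by
          cases b <;> cases b' <;> simp_all
        rw [this]
        rfl
    have h3 : nxt l r v (opp e) = opp e := hfo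
    have h4 : nxt l r v e = e := by
      have : fc l r v f = nxt l r v e := by rw [hfo]; unfold fc; rw [opp_opp]
      rw [← this]
      exact he
    obtain ⟨g, hg, hg2⟩ := hi e.1
    have key : v (pos l r g) = v (pos l r e) ∨ v (pos l r g) = v (pos l r (opp e)) := by
      rcases e with ⟨j, b⟩
      cases b
      · exact hg2
      · exact hg2.symm
    rcases key with h5 | h5
    · have := h.pos_inj (nxt_eq h4 g h5)
      exact hg (by rw [this])
    · have := h.pos_inj (nxt_eq h3 g h5)
      exact hg (by rw [this]; rfl)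
  · obtain ⟨h3, h4⟩ := hp f.1 e.1 hj
    rcases f with ⟨j, b⟩
    rcases e with ⟨j', b'⟩
    simp only at h3 h4 hj
    simp only [opp] at h1 h2
    cases b <;> cases b' <;> simp only [pos_true, pos_false, Bool.not_true, Bool.not_false] at h1 h2
    · exact h4 ⟨h1, h2.symm⟩
    · exact h3 ⟨h1, h2.symm⟩
    · exact h3 ⟨h2.symm, h1⟩
    · exact h4 ⟨h2.symm, h1⟩

/-- the sum of the jumps is linear -/
noncomputable def smL [Fintype J] (l r : J → α) (I : Set α) : (J → ℚ) →ₗ[ℚ] ℚ where
  toFun c := sm l r c I
  map_add' c c' := by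
    classical
    unfold sm
    rw [← Finset.sum_add_distrib]
    refine Finset.sum_congr rfl fun e _ => ?_
    by_cases h : pos l r e ∈ I
    · rw [if_pos h, if_pos h, if_pos h]
      unfold jm
      split_ifs <;> simp [add_comm]
    · rw [if_neg h, if_neg h, if_neg h, add_zero]
  map_smul' t c := by
    classical
    unfold sm
    rw [RingHom.id_apply, smul_eq_mul, Finset.mul_sum]
    refine Finset.sum_congr rfl fun e _ => ?_
    by_cases h : pos l r e ∈ I
    · rw [if_pos h, if_pos h]
      unfold jm
      split_ifs <;> simp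
    · rw [if_neg h, if_neg h, mul_zero]

lemma smL_apply [Fintype J] (I : Set α) (c : J → ℚ) : smL l r I c = sm l r c I := rfl

/-- the sums over the classes -/
noncomputable def bd [Fintype J] (l r : J → α) (v : α → V) : (J → ℚ) →ₗ[ℚ] (V → ℚ) :=
  LinearMap.pi fun w => smL l r {p | v p = w}

lemma bd_apply [Fintype J] (c : J → ℚ) (w : V) : bd l r v c w = sm l r c {p | v p = w} := rfl

/-- the sum over all the classes is zero -/
lemma bd_sum [Fintype J] [Fintype V] (c : J → ℚ) : ∑ w, bd l r v c w = 0 := by
  classical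
  have h1 : sm l r c Set.univ = 0 := sm_chord fun j => by simp
  rw [← h1]
  unfold sm
  simp only [bd_apply]
  unfold sm
  rw [Finset.sum_comm]
  refine Finset.sum_congr rfl fun e _ => ?_
  rw [Finset.sum_eq_single (v (pos l r e))]
  · simp
  · intro w _ hw
    rw [if_neg]
    exact fun h => hw h.symm
  · intro h
    exact absurd (Finset.mem_univ _) h

lemma finrank_range_bd [Fintype J] [Fintype V] [Nonempty V] :
    Module.finrank ℚ (LinearMap.range (bd l r v)) < Fintype.card V := by
  classical
  have h1 : LinearMap.range (bd l r v) < ⊤ := by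
    rw [lt_top_iff_ne_top]
    intro h
    obtain ⟨w⟩ := ‹Nonempty V›
    have h2 : (Pi.single w (1 : ℚ) : V → ℚ) ∈ LinearMap.range (bd l r v) := by
      rw [h]
      exact Submodule.mem_top
    obtain ⟨c, hc⟩ := h2
    have h3 := bd_sum (l := l) (r := r) (v := v) c
    rw [hc, Finset.sum_pi_single'] at h3
    simp at h3
  have h4 := Submodule.finrank_lt h1.ne
  rwa [Module.finrank_fintype_fun_eq_card] at h4

/-- the faces -/
def Fq [Fintype J] (l r : J → α) (v : α → V) : Type _ :=
  Quot fun e e' : J × Bool => e' = fc l r v e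

instance [Fintype J] : Finite (Fq l r v) := inferInstanceAs (Finite (Quot _))

/-- a function on the faces -/
noncomputable def faceMap (h : Ch l r v col) [Fintype J] :
    (LinearMap.ker (bd l r v) × ℚ) →ₗ[ℚ] (Fq l r v → ℚ) where
  toFun x := Quot.lift (fun e => smL l r (Set.Iio (pos l r e)) x.1.1 + x.2) (by
    rintro e e' rfl
    simp only [smL_apply]
    rw [h.fc_val (c := x.1.1) (fun w => by
      have := x.1.2
      rw [LinearMap.mem_ker] at this
      rw [← bd_apply, this]
      rfl)])
  map_add' x y := by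
    funext q
    induction q using Quot.ind with
    | mk e =>
      show smL l r (Set.Iio (pos l r e)) (x.1.1 + y.1.1) + (x.2 + y.2) =
        (smL l r (Set.Iio (pos l r e)) x.1.1 + x.2) + (smL l r (Set.Iio (pos l r e)) y.1.1 + y.2)
      rw [map_add]
      ring
  map_smul' t x := by
    funext q
    induction q using Quot.ind with
    | mk e =>
      show smL l r (Set.Iio (pos l r e)) (t • x.1.1) + (t * x.2) =
        t * (smL l r (Set.Iio (pos l r e)) x.1.1 + x.2)
      rw [map_smul, smul_eq_mul]
      ring

lemma faceMap_inj (h : Ch l r v col) [Fintype J] [Nonempty J] :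
    Function.Injective h.faceMap := by
  classical
  rw [← LinearMap.ker_eq_bot, LinearMap.ker_eq_bot']
  rintro ⟨⟨c, hc⟩, t⟩ h0
  have h1 : ∀ e, sm l r c (Set.Iio (pos l r e)) + t = 0 := fun e => congrFun h0 (Quot.mk _ e)
  obtain ⟨e0, -, he0⟩ := Finset.exists_min_image (Finset.univ : Finset (J × Bool)) (pos l r)
    ⟨(Classical.arbitrary J, true), Finset.mem_univ _⟩
  have h2 : sm l r c (Set.Iio (pos l r e0)) = 0 := by
    unfold sm
    refine Finset.sum_eq_zero fun e _ => ?_
    rw [if_neg]
    simp only [Set.mem_Iio, not_lt]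
    exact he0 e (Finset.mem_univ _)
  have ht : t = 0 := by
    have := h1 e0
    rwa [h2, zero_add] at this
  subst ht
  have h3 : ∀ e, sm l r c (Set.Iio (pos l r e)) = 0 := fun e => by
    have := h1 e
    rwa [add_zero] at this
  have h4 : ∀ e, sm l r c (Set.Iic (pos l r e)) = 0 := fun e => by
    have := h.chord_val c (opp e)
    rw [opp_opp, h3] at this
    exact this
  have h5 : c = 0 := by
    funext j
    have h6 : sm l r c {pos l r (j, false)} = c j := by
      unfold sm
      rw [Finset.sum_eq_single (j, false)]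
      · simp [jm]
      · intro e _ he
        rw [if_neg]
        intro h7
        exact he (h.pos_inj h7)
      · intro h7
        exact absurd (Finset.mem_univ _) h7
    have h7 := sm_union (l := l) (r := r) (c := c) (K := Set.Iic (pos l r (j, false)))
      (I := Set.Iio (pos l r (j, false))) (I' := {pos l r (j, false)}) (by
        intro p
        simp only [Set.mem_Iic, Set.mem_Iio, Set.mem_singleton_iff]
        exact le_iff_lt_or_eq) (by
        intro p h8 h9
        rw [Set.mem_singleton_iff.1 h9] at h8
        exact lt_irrefl _ h8)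
    rw [h4, h3, h6, zero_add] at h7
    exact h7.symm
  subst h5
  rfl

/-- every face has at least four ends -/
lemma card_Fq (h : Ch l r v col) [Fintype J]
    (h2 : ∀ e, fc l r v (fc l r v e) ≠ e) : 4 * Nat.card (Fq l r v) ≤ 2 * Fintype.card J := by
  classical
  have : Fintype (Fq l r v) := Fintype.ofFinite _
  let mk : J × Bool → Fq l r v := fun e => Quot.mk _ e
  have h3 : Fintype.card (J × Bool) = 2 * Fintype.card J := by
    rw [Fintype.card_prod, Fintype.card_bool, mul_comm]
  rw [← h3, Nat.card_eq_fintype_card, ← Finset.card_univ (α := J × Bool),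
    Finset.card_eq_sum_card_fiberwise (s := (Finset.univ : Finset (J × Bool)))
      (t := (Finset.univ : Finset (Fq l r v))) (f := mk)
      (fun _ _ => Finset.mem_coe.2 (Finset.mem_univ _)), mul_comm]
  rw [← smul_eq_mul, ← Finset.card_univ (α := Fq l r v)]
  refine Finset.card_nsmul_le_sum _ _ _ fun q _ => ?_
  induction q using Quot.ind with
  | mk e =>
    set φ := fc l r v with hφ
    have hsub : ({e, φ e, φ (φ e), φ (φ (φ e))} : Finset (J × Bool)) ⊆
        Finset.univ.filter fun e' => mk e' = mk e := by
      have s1 : ∀ e' : J × Bool, mk (φ e') = mk e' :=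
        fun e' => (Quot.sound (r := fun a b : J × Bool => b = fc l r v a) (rfl)).symm
      intro x hx
      simp only [Finset.mem_insert, Finset.mem_singleton] at hx
      rw [Finset.mem_filter]
      refine ⟨Finset.mem_univ _, ?_⟩
      rcases hx with rfl | rfl | rfl | rfl
      · rfl
      · exact s1 _
      · rw [s1, s1]
      · rw [s1, s1, s1]
    refine le_trans ?_ (Finset.card_le_card hsub)
    have hc := h.fc_col
    rw [← hφ] at hc
    have n1 : ∀ x, φ x ≠ x := by
      intro x hx
      have := hc x
      rw [hx] at this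
      cases h4 : col (v (pos l r x)) <;> rw [h4] at this <;> simp at this
    have n3 : ∀ x, φ (φ (φ x)) ≠ x := by
      intro x hx
      have := hc (φ (φ x))
      rw [hx, hc, hc] at this
      cases h4 : col (v (pos l r x)) <;> rw [h4] at this <;> simp at this
    rw [Finset.card_insert_of_notMem, Finset.card_insert_of_notMem, Finset.card_insert_of_notMem,
      Finset.card_singleton]
    · simp only [Finset.mem_singleton]
      exact fun h5 => n1 _ h5.symm
    · simp only [Finset.mem_insert, Finset.mem_singleton, not_or]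
      exact ⟨fun h5 => n1 _ h5.symm, fun h5 => h2 _ h5.symm⟩
    · simp only [Finset.mem_insert, Finset.mem_singleton, not_or]
      exact ⟨fun h5 => n1 _ h5.symm, fun h5 => h2 _ h5.symm, fun h5 => n3 _ h5.symm⟩

/-- **Euler for plane simple bipartite graphs** (no isolated edges) -/
theorem simple0 (h : Ch l r v col) [Fintype J] [Nonempty J] [Fintype V]
    (hp : ∀ i k, i ≠ k → ¬ (v (l i) = v (l k) ∧ v (r i) = v (r k)) ∧
      ¬ (v (l i) = v (r k) ∧ v (r i) = v (l k)))
    (hi : ∀ j, ∃ e : J × Bool, e.1 ≠ j ∧ (v (pos l r e) = v (l j) ∨ v (pos l r e) = v (r j))) :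
    Fintype.card J + 4 ≤ 2 * Fintype.card V := by
  classical
  have : Nonempty V := ⟨v (l (Classical.arbitrary J))⟩
  have : Fintype (Fq l r v) := Fintype.ofFinite _
  have h1 := h.card_Fq (h.fc_two hp hi)
  have h2 : Module.finrank ℚ (LinearMap.ker (bd l r v) × ℚ) ≤ Nat.card (Fq l r v) := by
    have := LinearMap.finrank_le_finrank_of_injective h.faceMap_inj
    rwa [Module.finrank_fintype_fun_eq_card, ← Nat.card_eq_fintype_card] at this
  have h3 := LinearMap.finrank_range_add_finrank_ker (bd l r v)
  rw [Module.finrank_fintype_fun_eq_card] at h3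
  have h4 := finrank_range_bd (l := l) (r := r) (v := v)
  rw [Module.finrank_prod, Module.finrank_self] at h2
  omega

end Ch

/-! ## Integer positions, vertices given on the ends -/

section Z

variable {J V : Type*}

/-- the vertex of an end -/
def vx (u w : J → V) (e : J × Bool) : V := if e.2 then w e.1 else u e.1

@[simp] lemma vx_true (u w : J → V) (j : J) : vx u w (j, true) = w j := rfl
@[simp] lemma vx_false (u w : J → V) (j : J) : vx u w (j, false) = u j := rfl

/-- noncrossing chords with ends on a line, `u j`, `w j` = the vertices of the ends -/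
structure Cz (l r : J → ℤ) (u w : J → V) (col : V → Bool) : Prop where
  lr : ∀ j, l j < r j
  li : ∀ i j, l i = l j → i = j
  ri : ∀ i j, r i = r j → i = j
  ne : ∀ i j, l i ≠ r j
  nc : ∀ i j, l i < l j → r i < l j ∨ r j < r i
  nv : ∀ e₁ e₂ e₃ e₄ : J × Bool, pos l r e₁ < pos l r e₂ → pos l r e₂ < pos l r e₃ →
    pos l r e₃ < pos l r e₄ → vx u w e₁ = vx u w e₃ → vx u w e₂ = vx u w e₄ →
    vx u w e₁ = vx u w e₂
  co : ∀ j, col (u j) ≠ col (w j)

namespace Cz

variable {l r : J → ℤ} {u w : J → V} {col : V → Bool}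

lemma pos_inj (h : Cz l r u w col) : Function.Injective (pos l r) := by
  rintro ⟨i, b⟩ ⟨j, c⟩ he
  cases b <;> cases c <;> simp only [pos_true, pos_false] at he
  · rw [h.li _ _ he]
  · exact absurd he (h.ne i j)
  · exact absurd he.symm (h.ne j i)
  · rw [h.ri _ _ he]

open Classical in
theorem simple0 (h : Cz l r u w col) [Fintype J] [Nonempty J] [Fintype V]
    (hp : ∀ i k, i ≠ k → ¬ (u i = u k ∧ w i = w k) ∧ ¬ (u i = w k ∧ w i = u k))
    (hi : ∀ j, ∃ e : J × Bool, e.1 ≠ j ∧ (vx u w e = u j ∨ vx u w e = w j)) :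
    Fintype.card J + 4 ≤ 2 * Fintype.card V := by
  let v : ℤ → V := fun p => if hq : ∃ e : J × Bool, pos l r e = p then vx u w hq.choose else
    u (Classical.arbitrary J)
  have hv : ∀ e, v (pos l r e) = vx u w e := by
    intro e
    have hq : ∃ e' : J × Bool, pos l r e' = pos l r e := ⟨e, rfl⟩
    have h1 : v (pos l r e) = vx u w hq.choose := dif_pos hq
    rw [h1, h.pos_inj hq.choose_spec]
  have hvl : ∀ j, v (l j) = u j := fun j => hv (j, false)
  have hvr : ∀ j, v (r j) = w j := fun j => hv (j, true)
  have hC : Ch l r v col :=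
    { lr := h.lr
      li := fun i j => h.li i j
      ri := fun i j => h.ri i j
      ne := h.ne
      nc := h.nc
      nv := by
        intro e₁ e₂ e₃ e₄ h1 h2 h3 h4 h5
        rw [hv, hv] at h4 h5 ⊢
        exact h.nv e₁ e₂ e₃ e₄ h1 h2 h3 h4 h5
      co := by
        intro j
        rw [hvl, hvr]
        exact h.co j }
  refine hC.simple0 ?_ ?_
  · intro i k hik
    simp only [hvl, hvr]
    exact hp i k hik
  · intro j
    simp only [hvl, hvr, hv]
    exact hi j

/-- restriction to a set of chords and their vertices -/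
lemma restrict (h : Cz l r u w col) (M : Finset J) (K : Finset V) (hu : ∀ j ∈ M, u j ∈ K)
    (hw : ∀ j ∈ M, w j ∈ K) :
    Cz (J := {j // j ∈ M}) (V := {x // x ∈ K}) (fun j => l j.1) (fun j => r j.1)
      (fun j => ⟨u j.1, hu j.1 j.2⟩) (fun j => ⟨w j.1, hw j.1 j.2⟩) (fun x => col x.1) where
  lr j := h.lr j.1
  li i j hij := Subtype.ext (h.li _ _ hij)
  ri i j hij := Subtype.ext (h.ri _ _ hij)
  ne i j := h.ne _ _
  nc i j hij := h.nc _ _ hij
  nv := by
    have hpos : ∀ e : {j // j ∈ M} × Bool, pos (fun j : {j // j ∈ M} => l j.1)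
        (fun j => r j.1) e = pos l r (e.1.1, e.2) := by
      rintro ⟨j, b⟩
      cases b <;> rfl
    have hvx : ∀ e : {j // j ∈ M} × Bool, (vx (fun j : {j // j ∈ M} =>
        (⟨u j.1, hu j.1 j.2⟩ : {x // x ∈ K})) (fun j => ⟨w j.1, hw j.1 j.2⟩) e).1 =
          vx u w (e.1.1, e.2) := by
      rintro ⟨j, b⟩
      cases b <;> rfl
    intro e₁ e₂ e₃ e₄ h1 h2 h3 h4 h5
    apply Subtype.ext
    rw [hvx, hvx]
    rw [hpos, hpos] at h1 h2 h3
    have h4' := congrArg Subtype.val h4
    have h5' := congrArg Subtype.val h5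
    rw [hvx, hvx] at h4' h5'
    exact h.nv _ _ _ _ h1 h2 h3 h4' h5'
  co j := h.co j.1

open Classical in
/-- the vertices of a set of chords -/
noncomputable def vs (u w : J → V) (M : Finset J) : Finset V := M.image u ∪ M.image w

lemma mem_vs {M : Finset J} {x : V} : x ∈ vs u w M ↔ ∃ j ∈ M, x = u j ∨ x = w j := by
  classical
  unfold vs
  simp only [Finset.mem_union, Finset.mem_image]
  constructor
  · rintro (⟨j, hj, rfl⟩ | ⟨j, hj, rfl⟩)
    · exact ⟨j, hj, Or.inl rfl⟩
    · exact ⟨j, hj, Or.inr rfl⟩
  · rintro ⟨j, hj, rfl | rfl⟩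
    · exact Or.inl ⟨j, hj, rfl⟩
    · exact Or.inr ⟨j, hj, rfl⟩

lemma vs_mono {M M' : Finset J} (h : M ⊆ M') : vs u w M ⊆ vs u w M' := by
  intro x hx
  obtain ⟨j, hj, hx⟩ := mem_vs.1 hx
  exact mem_vs.2 ⟨j, h hj, hx⟩

/-- **Euler for plane simple bipartite graphs** -/
theorem simple (h : Cz l r u w col) : ∀ (n : ℕ) (M : Finset J), M.card = n → 2 ≤ M.card →
    (∀ i ∈ M, ∀ k ∈ M, i ≠ k → ¬ (u i = u k ∧ w i = w k) ∧ ¬ (u i = w k ∧ w i = u k)) →
    M.card + 4 ≤ 2 * (vs u w M).card := by
  classical
  intro n
  induction n with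
  | zero =>
    intro M h1 h2
    omega
  | succ n ih =>
    intro M hn h2 hp
    by_cases hi : ∀ j ∈ M, ∃ i ∈ M, i ≠ j ∧ (u i = u j ∨ u i = w j ∨ w i = u j ∨ w i = w j)
    · have hne : M.Nonempty := Finset.card_pos.1 (by omega)
      have : Nonempty {j // j ∈ M} := ⟨⟨hne.choose, hne.choose_spec⟩⟩
      have h3 := (h.restrict M (vs u w M) (fun j hj => mem_vs.2 ⟨j, hj, Or.inl rfl⟩)
        (fun j hj => mem_vs.2 ⟨j, hj, Or.inr rfl⟩)).simple0 ?_ ?_
      · rwa [Fintype.card_coe, Fintype.card_coe] at h3
      · rintro ⟨i, hi⟩ ⟨k, hk⟩ hik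
        have h4 := hp i hi k hk (fun h5 => hik (Subtype.ext h5))
        constructor
        · rintro ⟨h5, h6⟩
          exact h4.1 ⟨congrArg Subtype.val h5, congrArg Subtype.val h6⟩
        · rintro ⟨h5, h6⟩
          exact h4.2 ⟨congrArg Subtype.val h5, congrArg Subtype.val h6⟩
      · rintro ⟨j, hj⟩
        obtain ⟨i, hi, hij, h5⟩ := hi j hj
        rcases h5 with h5 | h5 | h5 | h5
        · exact ⟨(⟨i, hi⟩, false), fun h6 => hij (congrArg Subtype.val h6), Or.inl (Subtype.ext h5)⟩
        · exact ⟨(⟨i, hi⟩, false), fun h6 => hij (congrArg Subtype.val h6), Or.inr (Subtype.ext h5)⟩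
        · exact ⟨(⟨i, hi⟩, true), fun h6 => hij (congrArg Subtype.val h6), Or.inl (Subtype.ext h5)⟩
        · exact ⟨(⟨i, hi⟩, true), fun h6 => hij (congrArg Subtype.val h6), Or.inr (Subtype.ext h5)⟩
    · push Not at hi
      obtain ⟨j, hj, hi⟩ := hi
      have h3 : (M.erase j).card + 1 = M.card := Finset.card_erase_add_one hj
      have huw : u j ≠ w j := fun h5 => h.co j (by rw [h5])
      have h4 : (vs u w (M.erase j)).card + 2 ≤ (vs u w M).card := by
        have h5 : Disjoint (vs u w (M.erase j)) {u j, w j} := by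
          rw [Finset.disjoint_left]
          intro x hx hx2
          obtain ⟨i, hi1, hi2⟩ := mem_vs.1 hx
          rw [Finset.mem_erase] at hi1
          obtain ⟨g1, g2, g3, g4⟩ := hi i hi1.2 hi1.1
          simp only [Finset.mem_insert, Finset.mem_singleton] at hx2
          rcases hi2 with rfl | rfl <;> rcases hx2 with h6 | h6
          · exact g1 h6
          · exact g2 h6
          · exact g3 h6
          · exact g4 h6
        have h6 : (vs u w (M.erase j)) ∪ {u j, w j} ⊆ vs u w M := by
          intro x hx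
          rw [Finset.mem_union] at hx
          rcases hx with hx | hx
          · exact vs_mono (Finset.erase_subset _ _) hx
          · simp only [Finset.mem_insert, Finset.mem_singleton] at hx
            exact mem_vs.2 ⟨j, hj, hx⟩
        have h7 := Finset.card_le_card h6
        rw [Finset.card_union_of_disjoint h5, Finset.card_pair huw] at h7
        exact h7
      by_cases h5 : 2 ≤ (M.erase j).card
      · have h6 := ih (M.erase j) (by omega) h5 (fun i hi k hk hik =>
          hp i (Finset.mem_of_mem_erase hi) k (Finset.mem_of_mem_erase hk) hik)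
        omega
      · have h6 : (M.erase j).Nonempty := Finset.card_pos.1 (by omega)
        obtain ⟨i, hi1⟩ := h6
        have huw' : u i ≠ w i := fun h5 => h.co i (by rw [h5])
        have h7 : ({u i, w i} : Finset V) ⊆ vs u w (M.erase j) := by
          intro x hx
          simp only [Finset.mem_insert, Finset.mem_singleton] at hx
          exact mem_vs.2 ⟨i, hi1, hx⟩
        have h8 := Finset.card_le_card h7
        rw [Finset.card_pair huw'] at h8
        omega

end Cz

end Z

end Pool.Agent.MP42.PC
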