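import Pool.Agent.MP42.PC.Runs
import Pool.Agent.MP42.PC.Adm

/-!
# Project MP42: admissible ports exist (owner helper43)

`exists_adm`: for every contour with full planar stars (feet `y`, `a` in an odd circle, `b` in an
even circle, cyclic order `y, a, b`) there is a choice of the ports with small loads.
-/

set_option autoImplicit false
set_option linter.unusedSectionVars false

namespace Pool.Agent.MP42.PC

open Pool.Agent.MP42.U

section mn

variable {C α J : Type*} [LinearOrder α] [Fintype C] [Fintype α] [Fintype J]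

/-- strictly between -/
def Btw {β : Type*} [LinearOrder β] (p q x : β) : Prop := (p < x ∧ x < q) ∨ (q < x ∧ x < p)

/-- **full planar stars** with the cyclic order `y, a, b` -/
structure Star3 (D : Contour C α) (cls : C → Prop) (y a b : J → α) : Prop where
  ca : ∀ j, ¬ cls (D.pt (a j))
  cb : ∀ j, cls (D.pt (b j))
  ai : ∀ i j, a i = a j → i = j
  bi : ∀ i j, b i = b j → i = j
  ya : ∀ i j, y i ≠ a j
  yb : ∀ i j, y i ≠ b j
  c1 : ∀ j, a j < b j → ¬ (a j < y j ∧ y j < b j)
  c2 : ∀ j, b j < a j → b j < y j ∧ y j < a j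
  nb : ∀ i j, i ≠ j → (Btw (a i) (b i) (a j) ↔ Btw (a i) (b i) (b j))
  ny : ∀ i j, i ≠ j → (Btw (a i) (b i) (a j) ↔ Btw (a i) (b i) (y j))

/-- the left end of a chord -/
def lf (a b : J → α) (j : J) : α := if a j < b j then a j else b j

/-- the right end of a chord -/
def rg (a b : J → α) (j : J) : α := if a j < b j then b j else a j

lemma zr_btw {p q x : α} : Btw (zr p) (zr q) (zr x) ↔ Btw p q x := by
  unfold Btw
  rw [zr_lt, zr_lt, zr_lt, zr_lt]

variable {D : Contour C α} {cls : C → Prop} {cp : C → ℕ} {y a b : J → α}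

namespace Star3

variable (H : Star3 D cls y a b)

include H

lemma ab (i j : J) : a i ≠ b j := fun h => H.ca i (by rw [h]; exact H.cb j)

lemma lr_cases (j : J) : (a j < b j ∧ lf a b j = a j ∧ rg a b j = b j) ∨
    (b j < a j ∧ lf a b j = b j ∧ rg a b j = a j) := by
  rcases lt_or_gt_of_ne (H.ab j j) with h | h
  · exact Or.inl ⟨h, if_pos h, if_pos h⟩
  · exact Or.inr ⟨h, if_neg (not_lt.2 h.le), if_neg (not_lt.2 h.le)⟩

lemma lf_lt (j : J) : zr (lf a b j) < zr (rg a b j) := by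
  rcases H.lr_cases j with ⟨h1, h2, h3⟩ | ⟨h1, h2, h3⟩ <;> rw [h2, h3] <;> exact zr_lt.2 h1

lemma end_inj {i j : J} (h : lf a b i = lf a b j ∨ rg a b i = rg a b j ∨ lf a b i = rg a b j ∨
    rg a b i = lf a b j) : i = j := by
  rcases H.lr_cases i with ⟨-, h2, h3⟩ | ⟨-, h2, h3⟩ <;>
  rcases H.lr_cases j with ⟨-, h5, h6⟩ | ⟨-, h5, h6⟩ <;>
  rw [h2, h3, h5, h6] at h
  · rcases h with h | h | h | h
    · exact H.ai _ _ h
    · exact H.bi _ _ h
    · exact absurd h (H.ab _ _)
    · exact absurd h.symm (H.ab _ _)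
  · rcases h with h | h | h | h
    · exact absurd h (H.ab _ _)
    · exact absurd h.symm (H.ab _ _)
    · exact H.ai _ _ h
    · exact H.bi _ _ h
  · rcases h with h | h | h | h
    · exact absurd h.symm (H.ab _ _)
    · exact absurd h (H.ab _ _)
    · exact H.bi _ _ h
    · exact H.ai _ _ h
  · rcases h with h | h | h | h
    · exact H.bi _ _ h
    · exact H.ai _ _ h
    · exact absurd h.symm (H.ab _ _)
    · exact absurd h (H.ab _ _)

lemma lf_rg (i j : J) : lf a b i ≠ rg a b j := by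
  intro h
  have h1 : i = j := H.end_inj (Or.inr (Or.inr (Or.inl h)))
  subst h1
  have := H.lf_lt i
  rw [h] at this
  exact lt_irrefl _ this

/-- the inside of a chord, in ranks -/
lemma btw_iff (j : J) (p : ℤ) : Btw (zr (a j)) (zr (b j)) p ↔
    (zr (lf a b j) < p ∧ p < zr (rg a b j)) := by
  unfold Btw
  rcases H.lr_cases j with ⟨h1, h2, h3⟩ | ⟨h1, h2, h3⟩ <;> rw [h2, h3] <;>
    have h4 := zr_lt.2 h1 <;> omega

lemma nbz {i j : J} (h : i ≠ j) :
    ((zr (lf a b i) < zr (a j) ∧ zr (a j) < zr (rg a b i)) ↔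
      (zr (lf a b i) < zr (b j) ∧ zr (b j) < zr (rg a b i))) := by
  rw [← H.btw_iff, ← H.btw_iff, zr_btw, zr_btw]
  exact H.nb i j h

lemma nyz {i j : J} (h : i ≠ j) :
    ((zr (lf a b i) < zr (a j) ∧ zr (a j) < zr (rg a b i)) ↔
      (zr (lf a b i) < zr (y j) ∧ zr (y j) < zr (rg a b i))) := by
  rw [← H.btw_iff, ← H.btw_iff, zr_btw, zr_btw]
  exact H.ny i j h

lemma nez (i j : J) : zr (y i) ≠ zr (a j) ∧ zr (y i) ≠ zr (b j) :=
  ⟨fun h => H.ya i j (zr_inj.1 h), fun h => H.yb i j (zr_inj.1 h)⟩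

lemma cyz (j : J) : (zr (a j) < zr (b j) ∧ ¬ (zr (a j) < zr (y j) ∧ zr (y j) < zr (b j))) ∨
    (zr (b j) < zr (a j) ∧ zr (b j) < zr (y j) ∧ zr (y j) < zr (a j)) := by
  rcases H.lr_cases j with ⟨h1, -, -⟩ | ⟨h1, -, -⟩
  · left
    refine ⟨zr_lt.2 h1, ?_⟩
    rw [zr_lt, zr_lt]
    exact H.c1 j h1
  · right
    rw [zr_lt, zr_lt, zr_lt]
    exact ⟨h1, H.c2 j h1⟩

end Star3

/-! ### the chords of a violator -/

variable (D cls y a b)

/-- the left vertex -/
noncomputable def uu (Z : Set (Sg D)) (j : J) : Sg D := st D cls Z (sp D (lf a b j))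

/-- the right vertex -/
noncomputable def ww (Z : Set (Sg D)) (j : J) : Sg D := st D cls Z (sp D (rg a b j))

/-- doubled positions -/
noncomputable def ll (a b : J → α) (j : J) : ℤ := 2 * zr (lf a b j) + 1

/-- doubled positions -/
noncomputable def rr (a b : J → α) (j : J) : ℤ := 2 * zr (rg a b j) + 1

open Classical in
/-- the colour of a vertex -/
noncomputable def cl (v : Sg D) : Bool := decide (cls (ho D v))

variable {D cls y a b}

/-- the position of an end -/
def ep (a b : J → α) (e : J × Bool) : α := if e.2 then rg a b e.1 else lf a b e.1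

lemma pos_ep (e : J × Bool) : pos (ll a b) (rr a b) e = 2 * zr (ep a b e) + 1 := by
  rcases e with ⟨j, _ | _⟩ <;> rfl

lemma vx_ep (Z : Set (Sg D)) (e : J × Bool) :
    vx (uu D cls a b Z) (ww D cls a b Z) e = st D cls Z (sp D (ep a b e)) := by
  rcases e with ⟨j, _ | _⟩ <;> rfl

/-- the chords form a system -/
lemma chm (H : Star3 D cls y a b) (Z : Set (Sg D)) (M : Finset J)
    (hM : ∀ j ∈ M, sp D (a j) ∈ Z ∧ sp D (b j) ∈ Z) :
    ChM (ll a b) (rr a b) (uu D cls a b Z) (ww D cls a b Z) (cl D cls) M := by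
  have hl : ∀ e : J × Bool, e.1 ∈ M → sp D (ep a b e) ∈ Z := by
    rintro ⟨j, _ | _⟩ hj
    · show sp D (lf a b j) ∈ Z
      rcases H.lr_cases j with ⟨-, h2, -⟩ | ⟨-, h2, -⟩ <;> rw [h2]
      · exact (hM j hj).1
      · exact (hM j hj).2
    · show sp D (rg a b j) ∈ Z
      rcases H.lr_cases j with ⟨-, -, h2⟩ | ⟨-, -, h2⟩ <;> rw [h2]
      · exact (hM j hj).2
      · exact (hM j hj).1
  constructor
  · intro j _
    have := H.lf_lt j
    unfold ll rr
    omega
  · intro i _ j _ h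
    apply H.end_inj
    left
    unfold ll at h
    exact zr_inj.1 (by omega)
  · intro i _ j _ h
    apply H.end_inj
    right; left
    unfold rr at h
    exact zr_inj.1 (by omega)
  · intro i _ j _ h
    apply H.lf_rg i j
    unfold ll rr at h
    exact zr_inj.1 (by omega)
  · intro i _ j _ h
    have hij : i ≠ j := by
      rintro rfl
      exact lt_irrefl _ h
    unfold ll rr at *
    have h1 := H.nbz hij
    have h2 := H.lf_lt i
    have h3 := H.lf_lt j
    have h4 : zr (lf a b j) ≠ zr (rg a b i) := fun h => H.lf_rg j i (zr_inj.1 h)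
    rcases H.lr_cases j with ⟨-, g2, g3⟩ | ⟨-, g2, g3⟩
    · have g4 : zr (lf a b j) = zr (a j) := by rw [g2]
      have g5 : zr (rg a b j) = zr (b j) := by rw [g3]
      omega
    · have g4 : zr (lf a b j) = zr (b j) := by rw [g2]
      have g5 : zr (rg a b j) = zr (a j) := by rw [g3]
      omega
  · intro e₁ e₂ e₃ e₄ m1 m2 m3 m4 h1 h2 h3 h4 h5
    rw [pos_ep, pos_ep] at h1 h2 h3
    rw [vx_ep, vx_ep] at h4 h5 ⊢
    have q1 : ep a b e₁ < ep a b e₂ := zr_lt.1 (by omega)
    have q2 : ep a b e₂ < ep a b e₃ := zr_lt.1 (by omega)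
    have q3 : ep a b e₃ < ep a b e₄ := zr_lt.1 (by omega)
    have z1 := hl e₁ m1
    have z2 := hl e₂ m2
    have z3 := hl e₃ m3
    have z4 := hl e₄ m4
    have p1 : D.pt (ep a b e₁) = D.pt (ep a b e₃) := by
      have g1 := st_ho (cls := cls) z1
      have g3 := st_ho (cls := cls) z3
      rw [h4, g3] at g1
      exact g1.symm
    have p2 : D.pt (ep a b e₂) = D.pt (ep a b e₄) := by
      have g1 := st_ho (cls := cls) z2
      have g3 := st_ho (cls := cls) z4
      rw [h5, g3] at g1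
      exact g1.symm
    have p3 := pt_cross q1 q2 q3 p1 p2
    have k1 := zr_lt.2 q1
    have k2 := zr_lt.2 q2
    by_cases hc : cls (D.pt (ep a b e₁))
    · have c1 : cls (ho D (sp D (ep a b e₁))) := hc
      have c2 : cls (ho D (sp D (ep a b e₂))) := by
        rw [p3] at hc
        exact hc
      have c3 : cls (ho D (sp D (ep a b e₃))) := by
        rw [p1] at hc
        exact hc
      symm
      refine st_mid z1 z3 h4 p3.symm ?_ ?_
      · rw [kk_pos c1, kk_pos c2]
        exact k1.le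
      · rw [kk_pos c2, kk_pos c3]
        exact k2.le
    · have c1 : ¬ cls (ho D (sp D (ep a b e₁))) := hc
      have c2 : ¬ cls (ho D (sp D (ep a b e₂))) := by
        rw [p3] at hc
        exact hc
      have c3 : ¬ cls (ho D (sp D (ep a b e₃))) := by
        rw [p1] at hc
        exact hc
      have h6 : st D cls Z (sp D (ep a b e₂)) = st D cls Z (sp D (ep a b e₃)) := by
        refine st_mid z3 z1 h4.symm (p3.symm.trans p1) ?_ ?_
        · rw [kk_neg c3, kk_neg c2]
          simp only [slo_sp]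
          omega
        · rw [kk_neg c2, kk_neg c1]
          simp only [slo_sp]
          omega
      rw [h6, h4]
  · intro j hj
    have z1 := hl (j, false) hj
    have z2 := hl (j, true) hj
    have g1 := st_ho (cls := cls) z1
    have g2 := st_ho (cls := cls) z2
    unfold cl uu ww
    have g3 : ho D (st D cls Z (sp D (lf a b j))) = D.pt (lf a b j) := g1
    have g4 : ho D (st D cls Z (sp D (rg a b j))) = D.pt (rg a b j) := g2
    rw [g3, g4]
    classical
    rcases H.lr_cases j with ⟨-, h2, h3⟩ | ⟨-, h2, h3⟩ <;> rw [h2, h3]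
    · rw [decide_eq_false (H.ca j), decide_eq_true (H.cb j)]
      exact Bool.false_ne_true
    · rw [decide_eq_false (H.ca j), decide_eq_true (H.cb j)]
      exact Bool.false_ne_true.symm

/-- the region between two chords -/
noncomputable def Rgn (a b : J → α) (i k : J) (p : ℤ) : Prop := InA (ll a b) (rr a b) i k p

/-- two chords with common circles -/
structure Pr (D : Contour C α) (a b : J → α) (i k : J) : Prop where
  lt : zr (lf a b i) < zr (lf a b k)
  li : zr (lf a b i) < zr (rg a b i)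
  lk : zr (lf a b k) < zr (rg a b k)
  cs : (zr (rg a b k) < zr (rg a b i) ∧ D.pt (lf a b i) = D.pt (lf a b k) ∧
      D.pt (rg a b i) = D.pt (rg a b k)) ∨
    (zr (rg a b i) < zr (lf a b k) ∧ D.pt (rg a b i) = D.pt (lf a b k) ∧
      D.pt (lf a b i) = D.pt (rg a b k))

lemma Pr.mk' (H : Star3 D cls y a b) {Z : Set (Sg D)} {i k : J}
    (hi : sp D (a i) ∈ Z ∧ sp D (b i) ∈ Z) (hk : sp D (a k) ∈ Z ∧ sp D (b k) ∈ Z)
    (h : ParA (ll a b) (rr a b) (uu D cls a b Z) (ww D cls a b Z) i k) : Pr D a b i k := by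
  have g : ∀ j, (sp D (a j) ∈ Z ∧ sp D (b j) ∈ Z) → ho D (uu D cls a b Z j) = D.pt (lf a b j) ∧
      ho D (ww D cls a b Z j) = D.pt (rg a b j) := by
    intro j hj
    rcases H.lr_cases j with ⟨-, h2, h3⟩ | ⟨-, h2, h3⟩
    · exact ⟨st_ho (by rw [h2]; exact hj.1), st_ho (by rw [h3]; exact hj.2)⟩
    · exact ⟨st_ho (by rw [h2]; exact hj.2), st_ho (by rw [h3]; exact hj.1)⟩
  obtain ⟨g1, g2⟩ := g i hi
  obtain ⟨g3, g4⟩ := g k hk
  obtain ⟨h1, h2⟩ := h
  unfold ll at h1
  refine ⟨by omega, H.lf_lt i, H.lf_lt k, ?_⟩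
  rcases h2 with ⟨h3, h4, h5⟩ | ⟨h3, h4, h5⟩
  · left
    unfold rr at h3
    refine ⟨by omega, ?_, ?_⟩
    · rw [← g1, ← g3, h4]
    · rw [← g2, ← g4, h5]
  · right
    unfold rr ll at h3
    refine ⟨by omega, ?_, ?_⟩
    · rw [← g2, ← g3, h4]
    · rw [← g1, ← g4, h5]

/-- the gap before a segment and the gap behind it -/
lemma gap {Z : Set (Sg D)} {i k : J} (hz : ∀ j ∈ ({i, k} : Set J), sp D (lf a b j) ∈ Z ∧
    sp D (rg a b j) ∈ Z) (hp : Pr D a b i k) (s : Sg D)
    (hs : s ∉ Z ∨ ∃ c, ∃ hc : c ≠ D.r, s = sc D c hc) :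
    Rgn a b i k (2 * slo D s) ↔ Rgn a b i k (2 * shi D s + 2) := by
  have hlt := hp.lt
  have hli := hp.li
  have hlk := hp.lk
  rcases seg_cases s with ⟨p, rfl⟩ | ⟨c, hc, rfl⟩
  · have h1 : sp D p ∉ Z := by
      rcases hs with h | ⟨c, hc, h⟩
      · exact h
      · have := congrArg Subtype.val h
        simp [sp, sc] at this
    have h2 : ∀ q, sp D q ∈ Z → zr p ≠ zr q := by
      intro q hq h
      rw [zr_inj.1 h] at h1
      exact h1 hq
    have e1 := h2 _ (hz i (by simp)).1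
    have e2 := h2 _ (hz i (by simp)).2
    have e3 := h2 _ (hz k (by simp)).1
    have e4 := h2 _ (hz k (by simp)).2
    simp only [slo_sp, shi_sp]
    unfold Rgn InA ll rr
    rcases hp.cs with ⟨h3, -, -⟩ | ⟨h3, -, -⟩ <;> omega
  · simp only [slo_sc, shi_sc]
    have hle := zr_le.2 (D.le c)
    unfold Rgn InA ll rr
    rcases hp.cs with ⟨h3, h4, h5⟩ | ⟨h3, h4, h5⟩
    · have k1 := sc_pair c h4
      have k2 := sc_pair c h5
      omega
    · have k1 := sc_pair c h4
      have k2 := sc_pair c h5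
      omega

/-- the region is closed -/
lemma step {Z : Set (Sg D)} {i k : J} (hz : ∀ j ∈ ({i, k} : Set J), sp D (lf a b j) ∈ Z ∧
    sp D (rg a b j) ∈ Z) (hp : Pr D a b i k) (s : Sg D) (h1 : s ∉ Z) (h2 : sPar D cls s ∉ Z) :
    Rgn a b i k (2 * slo D s) ↔ Rgn a b i k (2 * slo D (sPar D cls s)) := by
  by_cases hl : Lst D cls s
  · by_cases hr : ho D s = D.r
    · have : sPar D cls s = s := by
        unfold sPar
        rw [dif_neg (fun ⟨s', h2⟩ => h2.not_lst hl), dif_neg (fun h2 => h2 hr)]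
      rw [this]
    · rw [sPar_lst D cls hl hr]
      by_cases hc : cls (ho D s)
      · rw [gap hz hp s (Or.inl h1), gap hz hp (sc D (ho D s) hr) (Or.inr ⟨_, hr, rfl⟩),
          (lst_end hl).1 hc, shi_sc]
      · rw [(lst_end hl).2 hc, slo_sc]
  · obtain ⟨s', hn⟩ := exists_nx D cls hl
    rw [sPar_nx D cls hn] at h2 ⊢
    have hlt := hp.lt
    have hz1 := (hz i (by simp)).1
    by_cases hc : cls (ho D s)
    · rw [gap hz hp s (Or.inl h1)]
      obtain ⟨g1, -⟩ := (no_between hn (D.lo D.r)).1 hc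
      have g2 := fun p => ((no_between hn p).1 hc).2
      have e1 := g2 (lf a b i)
      have e2 := g2 (rg a b i)
      have e3 := g2 (lf a b k)
      have e4 := g2 (rg a b k)
      unfold Rgn InA ll rr
      rcases hp.cs with ⟨h3, -, -⟩ | ⟨h3, -, -⟩ <;> omega
    · rw [gap hz hp s' (Or.inl h2)]
      obtain ⟨g1, -⟩ := (no_between hn (D.lo D.r)).2 hc
      have g2 := fun p => ((no_between hn p).2 hc).2
      have e1 := g2 (lf a b i)
      have e2 := g2 (rg a b i)
      have e3 := g2 (lf a b k)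
      have e4 := g2 (rg a b k)
      unfold Rgn InA ll rr
      rcases hp.cs with ⟨h3, -, -⟩ | ⟨h3, -, -⟩ <;> omega

lemma Star3.ne_end (H : Star3 D cls y a b) {i j : J} (h : i ≠ j) :
    zr (a j) ≠ zr (lf a b i) ∧ zr (a j) ≠ zr (rg a b i) ∧ zr (b j) ≠ zr (lf a b i) ∧
      zr (b j) ≠ zr (rg a b i) := by
  have key : ∀ p q : α, p ≠ q → zr p ≠ zr q := fun p q h1 h2 => h1 (zr_inj.1 h2)
  have ha : a j ≠ a i := fun h1 => h (H.ai _ _ h1).symm
  have hb : b j ≠ b i := fun h1 => h (H.bi _ _ h1).symm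
  rcases H.lr_cases i with ⟨-, h2, h3⟩ | ⟨-, h2, h3⟩ <;> rw [h2, h3]
  · exact ⟨key _ _ ha, key _ _ (H.ab _ _), key _ _ (H.ab _ _).symm, key _ _ hb⟩
  · exact ⟨key _ _ (H.ab _ _), key _ _ ha, key _ _ hb, key _ _ (H.ab _ _).symm⟩

lemma Star3.y_end (H : Star3 D cls y a b) (i j : J) :
    zr (y j) ≠ zr (lf a b i) ∧ zr (y j) ≠ zr (rg a b i) := by
  have h1 := H.nez j i
  rcases H.lr_cases i with ⟨-, h2, h3⟩ | ⟨-, h2, h3⟩ <;> rw [h2, h3]
  · exact h1
  · exact h1.symm

/-- the feet of a star are on one side of the region -/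
lemma Star3.side (H : Star3 D cls y a b) {i k j : J} (hp : Pr D a b i k) (h1 : i ≠ j)
    (h2 : k ≠ j) :
    (Rgn a b i k (2 * zr (a j)) ↔ Rgn a b i k (2 * zr (b j))) ∧
    (Rgn a b i k (2 * zr (a j)) ↔ Rgn a b i k (2 * zr (y j))) ∧
    (Rgn a b i k (2 * zr (a j)) → Rgn a b i k (2 * zr (a j) + 1)) := by
  have n1 := H.nbz h1
  have n2 := H.nbz h2
  have n3 := H.nyz h1
  have n4 := H.nyz h2
  obtain ⟨e1, e2, e3, e4⟩ := H.ne_end h1
  obtain ⟨e5, e6, e7, e8⟩ := H.ne_end h2
  obtain ⟨e9, e10⟩ := H.y_end i j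
  obtain ⟨e11, e12⟩ := H.y_end k j
  have hlt := hp.lt
  have l1 := H.lf_lt i
  have l2 := H.lf_lt k
  unfold Rgn InA ll rr
  rcases hp.cs with ⟨h3, -, -⟩ | ⟨h3, -, -⟩
  · refine ⟨?_, ?_, ?_⟩ <;> omega
  · refine ⟨?_, ?_, ?_⟩ <;> omega

/-- exactly one of the two letters `y` is in the region -/
lemma Star3.one (H : Star3 D cls y a b) {i k : J} (hp : Pr D a b i k) :
    (Rgn a b i k (2 * zr (y i)) ∧ ¬ Rgn a b i k (2 * zr (y k))) ∨
    (¬ Rgn a b i k (2 * zr (y i)) ∧ Rgn a b i k (2 * zr (y k))) := by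
  have hlt := hp.lt
  have hli := hp.li
  have hlk := hp.lk
  have hik : i ≠ k := by
    rintro rfl
    exact lt_irrefl _ hlt
  have n1 := H.nbz hik
  have n2 := H.nbz hik.symm
  have n3 := H.nyz hik
  have n4 := H.nyz hik.symm
  obtain ⟨e9, e10⟩ := H.y_end i k
  obtain ⟨e11, e12⟩ := H.y_end k i
  obtain ⟨e13, e14⟩ := H.y_end i i
  obtain ⟨e15, e16⟩ := H.y_end k k
  have c1 := H.cyz i
  have c2 := H.cyz k
  unfold Rgn InA ll rr
  have hA : ∀ p q, D.pt p = D.pt q → ∀ j j', p = a j → q = b j' → False := by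
    intro p q h j j' h1 h2
    apply H.ca j
    rw [← h1, h, h2]
    exact H.cb j'
  rcases H.lr_cases i with ⟨-, h2, h3⟩ | ⟨-, h2, h3⟩ <;>
  rcases H.lr_cases k with ⟨-, h5, h6⟩ | ⟨-, h5, h6⟩ <;>
  rcases hp.cs with ⟨h7, h8, h9⟩ | ⟨h7, h8, h9⟩ <;>
  have q2 := congrArg zr h2 <;>
  have q3 := congrArg zr h3 <;>
  have q5 := congrArg zr h5 <;>
  have q6 := congrArg zr h6
  · omega
  · exact (hA _ _ h8.symm k i h5 h3).elim
  · exact (hA _ _ h8 i k h2 h5).elim
  · omega
  · exact (hA _ _ h8.symm k i h5 h2).elim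
  · omega
  · omega
  · exact (hA _ _ h8 i k h3 h5).elim

/-! ### the root -/

lemma slo_root {s : Sg D} : zr (D.lo D.r) ≤ slo D s := zr_le.2 (D.top _).1
lemma shi_root {s : Sg D} : shi D s ≤ zr (D.hi D.r) := zr_le.2 (D.top _).2

/-- the end segments of the root are not in the region -/
lemma root_out {Z : Set (Sg D)} {i k : J} (hz : ∀ j ∈ ({i, k} : Set J), sp D (lf a b j) ∈ Z ∧
    sp D (rg a b j) ∈ Z) (hp : Pr D a b i k) (s : Sg D) (hs : s ∉ Z)
    (h : slo D s = zr (D.lo D.r) ∨ shi D s = zr (D.hi D.r)) : ¬ Rgn a b i k (2 * slo D s) := by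
  have t1 := fun p : α => zr_le.2 (D.top p).1
  have t2 := fun p : α => zr_le.2 (D.top p).2
  have hlt := hp.lt
  have hli := hp.li
  have hlk := hp.lk
  have e1 := t1 (lf a b i)
  have e2 := t1 (rg a b i)
  have e3 := t1 (lf a b k)
  have e4 := t1 (rg a b k)
  have e5 := t2 (lf a b i)
  have e6 := t2 (rg a b i)
  have e7 := t2 (lf a b k)
  have e8 := t2 (rg a b k)
  rcases h with h | h
  · unfold Rgn InA ll rr
    rcases hp.cs with ⟨h3, -, -⟩ | ⟨h3, -, -⟩ <;> omega
  · rw [gap hz hp s (Or.inl hs)]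
    unfold Rgn InA ll rr
    rcases hp.cs with ⟨h3, -, -⟩ | ⟨h3, -, -⟩ <;> omega

open Classical in
/-- **the contradiction in a clean digon** -/
lemma contra (H : Star3 D cls y a b) (T : Set (tsys D cls cp y a b).It) (U : Finset (Sg D))
    (hU : ∀ t (ht : t ∉ (tsys D cls cp y a b).sys.Z T), (tsys D cls cp y a b).tp T t → t ∉ U →
      Odd ((tsys D cls cp y a b).sys.gm T t ht).supp.ncard ∧
        ∀ t' (ht' : t' ∉ (tsys D cls cp y a b).sys.Z T), (tsys D cls cp y a b).tp T t' → t' ∉ U →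
          (tsys D cls cp y a b).sys.gm T t ht = (tsys D cls cp y a b).sys.gm T t' ht' → t = t')
    {i k : J} (hi : sp D (a i) ∈ (tsys D cls cp y a b).sys.Z T ∧
      sp D (b i) ∈ (tsys D cls cp y a b).sys.Z T)
    (hk : sp D (a k) ∈ (tsys D cls cp y a b).sys.Z T ∧ sp D (b k) ∈ (tsys D cls cp y a b).sys.Z T)
    (hp : Pr D a b i k)
    (hcl : ∀ j, (tsys D cls cp y a b).iX j ∉ T → sp D (a j) ∈ (tsys D cls cp y a b).sys.Z T →
      sp D (b j) ∈ (tsys D cls cp y a b).sys.Z T → ¬ Rgn a b i k (2 * zr (a j) + 1))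
    (m1 : ∀ s, (tsys D cls cp y a b).bad T s → ¬ Rgn a b i k (2 * slo D s))
    (m2 : ∀ s ∈ U, ¬ Rgn a b i k (2 * slo D s))
    (m3 : ∀ j, (tsys D cls cp y a b).iX j ∈ T → ¬ Rgn a b i k (2 * zr (a j)))
    (m4 : ∀ j, (tsys D cls cp y a b).iY j ∈ T → ¬ Rgn a b i k (2 * zr (y j)))
    (hcp : ∀ z, ¬ Even (cp z) → (cls z → D.lo z = D.lo D.r) ∧ (¬ cls z → D.hi z = D.hi D.r)) :
    False := by
  let W := tsys D cls cp y a b
  let Z := W.sys.Z T
  have hik : i ≠ k := by
    rintro rfl
    exact lt_irrefl _ hp.lt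
  have hz : ∀ j ∈ ({i, k} : Set J), sp D (lf a b j) ∈ Z ∧ sp D (rg a b j) ∈ Z := by
    have g : ∀ j, (sp D (a j) ∈ Z ∧ sp D (b j) ∈ Z) →
        sp D (lf a b j) ∈ Z ∧ sp D (rg a b j) ∈ Z := by
      intro j hj
      rcases H.lr_cases j with ⟨-, h2, h3⟩ | ⟨-, h2, h3⟩ <;> rw [h2, h3]
      · exact hj
      · exact hj.symm
    rintro j (rfl | rfl)
    · exact g _ hi
    · exact g _ hk
  -- the positions of the ends
  have hroot : ∀ s, s ∉ Z → ho D s = D.r → Lst D cls s → ¬ Rgn a b i k (2 * slo D s) := by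
    intro s hs hr h
    apply root_out hz hp s hs
    by_cases hc : cls (ho D s)
    · right
      rw [(lst_end h).1 hc, hr]
    · left
      rw [(lst_end h).2 hc, hr]
  have hodd : ∀ s, s ∉ Z → ¬ Even (cp (ho D s)) → Fst D cls s →
      ¬ Rgn a b i k (2 * slo D s) := by
    intro s hs hr h
    apply root_out hz hp s hs
    by_cases hc : cls (ho D s)
    · left
      rw [(fst_end h).1 hc, (hcp _ hr).1 hc]
    · right
      rw [(fst_end h).2 hc, (hcp _ hr).2 hc]
  have hreg := W.region T U hU (fun s => Rgn a b i k (2 * slo D s))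
    (by
      intro j h1 h2 h3
      have g1 : i ≠ j := fun h => h2 (by rw [← h]; exact hi.1)
      have g2 : k ≠ j := fun h => h2 (by rw [← h]; exact hk.1)
      exact (H.side hp g1 g2).1)
    (by
      intro s n h1
      have g1 : s ∉ Z := W.sys.unit_notMem_Z T h1 W.dem_E (Or.inl rfl)
      have g2 : W.par s ∉ Z := W.sys.unit_notMem_Z T h1 W.dem_E (Or.inr rfl)
      exact step hz hp s g1 g2)
    (fun s _ h2 h3 => m2 s h3 h2) (fun s h1 h2 => m1 s h2 h1)
    (fun h => hroot _ h (rts_spec D cls).1 (rts_spec D cls).2)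
    (by
      intro s h1 h2
      show Even (if Fst D cls s then cp (ho D s) else 0)
      by_cases h3 : Fst D cls s
      · rw [if_pos h3]
        by_contra h4
        exact hodd s h1 h4 h3 h2
      · rw [if_neg h3]
        exact Even.zero)
  set F : Finset J := Finset.univ.filter fun j => i ≠ j ∧ k ≠ j ∧ Rgn a b i k (2 * zr (a j))
    with hF
  have hXF : (Finset.univ.filter fun j => W.iX j ∉ T ∧
      ((W.A j ∉ W.sys.Z T ∧ Rgn a b i k (2 * slo D (W.A j))) ∨
        (W.B j ∉ W.sys.Z T ∧ Rgn a b i k (2 * slo D (W.B j))))) = F := by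
    ext j
    rw [hF, Finset.mem_filter, Finset.mem_filter]
    have eA : slo D (W.A j) = zr (a j) := rfl
    have eB : slo D (W.B j) = zr (b j) := rfl
    rw [eA, eB]
    refine and_congr_right fun _ => ?_
    constructor
    · rintro ⟨h1, h2⟩
      have g1 : i ≠ j := by
        rintro rfl
        rcases h2 with ⟨h2, -⟩ | ⟨h2, -⟩
        · exact h2 hi.1
        · exact h2 hi.2
      have g2 : k ≠ j := by
        rintro rfl
        rcases h2 with ⟨h2, -⟩ | ⟨h2, -⟩
        · exact h2 hk.1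
        · exact h2 hk.2
      refine ⟨g1, g2, ?_⟩
      rcases h2 with ⟨-, h2⟩ | ⟨-, h2⟩
      · exact h2
      · exact (H.side hp g1 g2).1.2 h2
    · rintro ⟨g1, g2, h3⟩
      have h1 : W.iX j ∉ T := fun h => m3 j h h3
      refine ⟨h1, ?_⟩
      by_cases h4 : W.A j ∈ W.sys.Z T
      · right
        refine ⟨fun h5 => hcl j h1 h4 h5 ((H.side hp g1 g2).2.2 h3), (H.side hp g1 g2).1.1 h3⟩
      · left
        exact ⟨h4, h3⟩
  have hone : ∃ e, e ∉ F ∧ (Finset.univ.filter fun j => W.iY j ∉ T ∧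
      Rgn a b i k (2 * slo D (W.Yy j))) = insert e F := by
    have hmem : ∀ j, j ∈ (Finset.univ.filter fun j => W.iY j ∉ T ∧
      Rgn a b i k (2 * slo D (W.Yy j))) ↔ Rgn a b i k (2 * zr (y j)) := by
      intro j
      rw [Finset.mem_filter]
      have eY : slo D (W.Yy j) = zr (y j) := rfl
      rw [eY]
      exact ⟨fun h => h.2.2, fun h => ⟨Finset.mem_univ _, fun h1 => m4 j h1 h, h⟩⟩
    have hmF : ∀ j, i ≠ j → k ≠ j → (j ∈ F ↔ Rgn a b i k (2 * zr (y j))) := by
      intro j g1 g2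
      rw [hF, Finset.mem_filter, ← (H.side hp g1 g2).2.1]
      exact ⟨fun h => h.2.2.2, fun h => ⟨Finset.mem_univ _, g1, g2, h⟩⟩
    have hiF : i ∉ F := fun h => (Finset.mem_filter.1 h).2.1 rfl
    have hkF : k ∉ F := fun h => (Finset.mem_filter.1 h).2.2.1 rfl
    rcases H.one hp with ⟨h1, h2⟩ | ⟨h1, h2⟩
    · refine ⟨i, hiF, ?_⟩
      ext j
      rw [hmem, Finset.mem_insert]
      by_cases g1 : i = j
      · subst g1
        exact ⟨fun _ => Or.inl rfl, fun _ => h1⟩
      · by_cases g2 : k = j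
        · subst g2
          exact ⟨fun h => absurd h h2, fun h => by
            rcases h with h | h
            · exact absurd h.symm hik
            · exact absurd h hkF⟩
        · rw [hmF j g1 g2]
          exact ⟨Or.inr, fun h => h.resolve_left (fun h => g1 h.symm)⟩
    · refine ⟨k, hkF, ?_⟩
      ext j
      rw [hmem, Finset.mem_insert]
      by_cases g2 : k = j
      · subst g2
        exact ⟨fun _ => Or.inl rfl, fun _ => h2⟩
      · by_cases g1 : i = j
        · subst g1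
          exact ⟨fun h => absurd h h1, fun h => by
            rcases h with h | h
            · exact absurd h hik
            · exact absurd h hiF⟩
        · rw [hmF j g1 g2]
          exact ⟨Or.inr, fun h => h.resolve_left (fun h => g2 h.symm)⟩
  obtain ⟨e, he, hYF⟩ := hone
  rw [hXF, hYF, Finset.card_insert_of_notMem he] at hreg
  have : F.card + (F.card + 1) = 2 * F.card + 1 := by ring
  rw [this] at hreg
  exact Nat.not_even_iff_odd.2 ⟨F.card, rfl⟩ hreg

/-! ### counting -/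

open Classical in
/-- sums over the first segments -/
lemma sum_fst (f : C → ℕ) : ∑ s : Sg D, (if Fst D cls s then f (ho D s) else 0) = ∑ z, f z := by
  choose fs hfs1 hfs2 using fun z => exists_fst D cls z
  have h1 : ∀ s : Sg D, (if Fst D cls s then f (ho D s) else 0) =
      ∑ z, if s = fs z then f z else 0 := by
    intro s
    by_cases h : Fst D cls s
    · rw [if_pos h, Finset.sum_eq_single (ho D s)]
      · rw [if_pos (h.uniq (hfs2 _) (hfs1 _).symm)]
      · intro z _ hz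
        rw [if_neg]
        rintro rfl
        exact hz (hfs1 z).symm
      · intro h1
        exact absurd (Finset.mem_univ _) h1
    · rw [if_neg h]
      refine (Finset.sum_eq_zero fun z _ => ?_).symm
      rw [if_neg]
      rintro rfl
      exact h (hfs2 z)
  rw [Finset.sum_congr rfl (fun s _ => h1 s), Finset.sum_comm]
  refine Finset.sum_congr rfl fun z _ => ?_
  rw [Finset.sum_ite_eq' Finset.univ (fs z) (fun _ => f z), if_pos (Finset.mem_univ _)]

open Classical in
lemma even_card (ho : Odd (∑ z, cp z)) : Even (Fintype.card (tsys D cls cp y a b).It) := by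
  set W := tsys D cls cp y a b with hW
  have h0 := W.card_items (fun _ => True)
  simp only [Finset.filter_true, Finset.card_univ, Fintype.card_fin] at h0
  rw [h0]
  have h1 : ∑ s, W.md s = ∑ s, W.me s + 1 := by
    have : ∑ s, W.md s = ∑ s, (W.me s + if s = W.rt then 1 else 0) := by
      refine Finset.sum_congr rfl fun s _ => ?_
      by_cases h : s = W.rt
      · rw [if_pos h, h, W.md_rt, W.me_rt]
      · rw [if_neg h, W.md_eq s h, add_zero]
    rw [this, Finset.sum_add_distrib, Finset.sum_ite_eq' Finset.univ W.rt (fun _ => 1),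
      if_pos (Finset.mem_univ _)]
  have h2 : ∑ s, W.bt s = ∑ z, cp z := sum_fst cp
  obtain ⟨m, hm⟩ := ho
  rw [h1, h2, hm]
  have h3 : Fintype.card J + Fintype.card J + (∑ s, W.me s + (∑ s, W.me s + 1 + (2 * m + 1))) =
      2 * (Fintype.card J + ∑ s, W.me s + m + 1) := by
    omega
  rw [h3]
  exact even_two_mul _

/-- **there is no violator** -/
theorem no_violator (H : Star3 D cls y a b)
    (hcp : ∀ z, ¬ Even (cp z) → (cls z → D.lo z = D.lo D.r) ∧ (¬ cls z → D.hi z = D.hi D.r))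
    (hc2 : ∀ z, cp z ≤ 2) (hodd : Odd (∑ z, cp z)) (hsum : ∑ z, (2 - cp z) ≤ 3)
    (T : Set (tsys D cls cp y a b).It) :
    ¬ T.ncard < ((tsys D cls cp y a b).sys.H T).oddComponents.ncard := by
  classical
  intro hT
  obtain ⟨U, hU, hin⟩ := (tsys D cls cp y a b).ineq T (even_card hodd) hT
  let W := tsys D cls cp y a b
  let Z := W.sys.Z T
  let M : Finset J := Finset.univ.filter fun j => W.iX j ∉ T ∧ W.A j ∈ Z ∧ W.B j ∈ Z
  have hMm : ∀ j ∈ M, sp D (a j) ∈ Z ∧ sp D (b j) ∈ Z := by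
    intro j hj
    exact (Finset.mem_filter.1 hj).2.2
  let N3 : Finset (Sg D) := Finset.univ.filter fun s => s ∉ Z ∧ W.par s ∈ Z ∧ W.me s = 3
  let FZ : Finset (Sg D) := Finset.univ.filter fun s => s ∈ Z ∧ Fst D cls s
  change 2 + (∑ s, if s ∈ Z then W.bt s else 0) + 2 * N3.card +
    (Finset.univ.filter fun s => W.bad T s).card +
    (Finset.univ.filter fun j => W.iX j ∈ T).card +
    (Finset.univ.filter fun j => W.iY j ∈ T).card + U.card ≤ M.card + 1 at hin
  have hvs : (Cz.vs (uu D cls a b Z) (ww D cls a b Z) M).card ≤ FZ.card + N3.card := by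
    have h1 : Cz.vs (uu D cls a b Z) (ww D cls a b Z) M ⊆ FZ ∪ N3.image (sPar D cls) := by
      intro v hv
      have h2 : ∃ s ∈ Z, v = st D cls Z s := by
        obtain ⟨j, hj, h3 | h3⟩ := Cz.mem_vs.1 hv
        · refine ⟨sp D (lf a b j), ?_, h3⟩
          rcases H.lr_cases j with ⟨-, g2, g3⟩ | ⟨-, g2, g3⟩ <;> rw [g2]
          · exact (hMm j hj).1
          · exact (hMm j hj).2
        · refine ⟨sp D (rg a b j), ?_, h3⟩
          rcases H.lr_cases j with ⟨-, g2, g3⟩ | ⟨-, g2, g3⟩ <;> rw [g3]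
          · exact (hMm j hj).2
          · exact (hMm j hj).1
      obtain ⟨s, hs, rfl⟩ := h2
      rw [Finset.mem_union]
      rcases st_start (cls := cls) hs with h3 | ⟨s₁, h4, h5⟩
      · left
        exact Finset.mem_filter.2 ⟨Finset.mem_univ _, st_mem hs, h3⟩
      · right
        refine Finset.mem_image.2 ⟨s₁, ?_, sPar_nx D cls h5⟩
        refine Finset.mem_filter.2 ⟨Finset.mem_univ _, h4, ?_, ?_⟩
        · show sPar D cls s₁ ∈ Z
          rw [sPar_nx D cls h5]
          exact st_mem hs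
        · show (if s₁ = rts D cls then 0 else if Lst D cls s₁ then 1 else 3) = 3
          have g1 := h5.not_lst
          rw [if_neg (fun h => g1 (by rw [h]; exact (rts_spec D cls).2)), if_neg g1]
    refine (Finset.card_le_card h1).trans ((Finset.card_union_le _ _).trans ?_)
    have := Finset.card_image_le (s := N3) (f := sPar D cls)
    omega
  have hbt : 2 * FZ.card ≤ (∑ s, if s ∈ Z then W.bt s else 0) + 3 := by
    have h1 : ∑ s : Sg D, (if Fst D cls s then 2 - cp (ho D s) else 0) = ∑ z, (2 - cp z) :=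
      sum_fst fun z => 2 - cp z
    have h0 : FZ.card = ∑ s, if s ∈ Z ∧ Fst D cls s then 1 else 0 := Finset.card_filter _ _
    have h2 : 2 * FZ.card ≤ (∑ s, if s ∈ Z then W.bt s else 0) +
        ∑ s : Sg D, (if Fst D cls s then 2 - cp (ho D s) else 0) := by
      rw [h0, Finset.mul_sum, ← Finset.sum_add_distrib]
      refine Finset.sum_le_sum fun s _ => ?_
      by_cases h3 : s ∈ Z ∧ Fst D cls s
      · have h4 : W.bt s = cp (ho D s) := if_pos h3.2
        rw [if_pos h3, if_pos h3.1, if_pos h3.2, h4]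
        have := hc2 (ho D s)
        omega
      · rw [if_neg h3]
        omega
    omega
  let m : (Sg D ⊕ Sg D) ⊕ (J ⊕ J) → ℤ := Sum.elim (Sum.elim (fun s => 2 * slo D s)
    (fun s => 2 * slo D s)) (Sum.elim (fun j => 2 * zr (a j)) (fun j => 2 * zr (y j)))
  let Wm : Finset ((Sg D ⊕ Sg D) ⊕ (J ⊕ J)) :=
    ((Finset.univ.filter fun s => W.bad T s).disjSum U).disjSum
      ((Finset.univ.filter fun j => W.iX j ∈ T).disjSum
        (Finset.univ.filter fun j => W.iY j ∈ T))
  have hWm : Wm.card = (Finset.univ.filter fun s => W.bad T s).card + U.card +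
      ((Finset.univ.filter fun j => W.iX j ∈ T).card +
        (Finset.univ.filter fun j => W.iY j ∈ T).card) := by
    simp only [Wm, Finset.card_disjSum]
  have hne : M.Nonempty := Finset.card_pos.1 (by omega)
  obtain ⟨i, hi, k, hk, hpar, hc1, hc2⟩ := digon (chm H Z M hMm) m Wm hne (by omega)
  have hp := Pr.mk' H (hMm i hi) (hMm k hk) hpar
  refine contra H T U hU (hMm i hi) (hMm k hk) hp ?_ ?_ ?_ ?_ ?_ hcp
  · intro j h1 h2 h3 h4
    have hj : j ∈ M := Finset.mem_filter.2 ⟨Finset.mem_univ _, h1, h2, h3⟩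
    obtain ⟨g1, g2⟩ := hc1 j hj
    rcases H.lr_cases j with ⟨-, e1, e2⟩ | ⟨-, e1, e2⟩
    · apply g1
      unfold ll
      rw [e1]
      exact h4
    · apply g2
      unfold rr
      rw [e2]
      exact h4
  · intro s hs
    exact hc2 (Sum.inl (Sum.inl s)) (by
      simp only [Wm, Finset.inl_mem_disjSum, Finset.mem_filter, Finset.mem_univ, true_and]
      exact hs)
  · intro s hs
    exact hc2 (Sum.inl (Sum.inr s)) (by
      simp only [Wm, Finset.inl_mem_disjSum, Finset.inr_mem_disjSum]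
      exact hs)
  · intro j hj
    exact hc2 (Sum.inr (Sum.inl j)) (by
      simp only [Wm, Finset.inl_mem_disjSum, Finset.inr_mem_disjSum, Finset.mem_filter,
        Finset.mem_univ, true_and]
      exact hj)
  · intro j hj
    exact hc2 (Sum.inr (Sum.inr j)) (by
      simp only [Wm, Finset.inr_mem_disjSum, Finset.mem_filter, Finset.mem_univ, true_and]
      exact hj)

/-- **admissible ports exist** -/
theorem exists_adm (H : Star3 D cls y a b)
    (hcp : ∀ z, ¬ Even (cp z) → (cls z → D.lo z = D.lo D.r) ∧ (¬ cls z → D.hi z = D.hi D.r))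
    (hc2 : ∀ z, cp z ≤ 2) (hodd : Odd (∑ z, cp z)) (hsum : ∑ z, (2 - cp z) ≤ 3) :
    ∃ x : J → Bool, Adm D cls cp y a b x := by
  obtain ⟨Q⟩ := exists_plc (D := D) (cls := cls) (cp := cp) (y := y) (a := a) (b := b)
    (no_violator H hcp hc2 hodd hsum)
  exact ⟨Q.xx, Q.adm hc2⟩

end mn

end Pool.Agent.MP42.PC
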