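import Mathlib

/-!
# Project MP42: matchings of demands and units (owner helper43)

A location system: items `V` with at most two locations each; demands and units. A perfect matching
without pairs of demands gives a placement with an even number of items and not more demands than
units at every location. `tops`: the odd components of the graph without a set `T` of items.
-/

set_option autoImplicit false
set_option linter.unusedSectionVars false

namespace Pool.Agent.MP42.PC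

/-- items with two locations -/
structure LSys (V S : Type*) where
  L : V → S
  R : V → S
  dem : V → Prop

namespace LSys

variable {V S : Type*} (Y : LSys V S)

/-- `s` is a location of `v` -/
def At (v : V) (s : S) : Prop := s = Y.L v ∨ s = Y.R v

/-- two items of one location which are not both demands -/
def G : SimpleGraph V where
  Adj v v' := v ≠ v' ∧ ¬ (Y.dem v ∧ Y.dem v') ∧ ∃ s, Y.At v s ∧ Y.At v' s
  symm := ⟨fun _ _ h => ⟨h.1.symm, fun h' => h.2.1 h'.symm, h.2.2.imp fun _ hs => hs.symm⟩⟩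
  loopless := ⟨fun _ h => h.1 rfl⟩

open Classical in
/-- **placement from a perfect matching** -/
theorem place [Fintype V] [Nonempty S] (M : Y.G.Subgraph) (h : M.IsPerfectMatching) :
    ∃ c : V → S, (∀ v, Y.At v (c v)) ∧ ∀ s,
      Even (Finset.univ.filter fun v => c v = s).card ∧
      (Finset.univ.filter fun v => c v = s ∧ Y.dem v).card ≤
        (Finset.univ.filter fun v => c v = s ∧ ¬ Y.dem v).card := by
  have hM := h.1
  have hsp := h.2
  have hp : ∀ v, ∃ v', M.Adj v v' ∧ ∀ y, M.Adj v y → y = v' := fun v => by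
    obtain ⟨v', h1, h2⟩ := hM (hsp v)
    exact ⟨v', h1, h2⟩
  choose p hp1 hp2 using hp
  have hpp : ∀ v, p (p v) = v := fun v => (hp2 (p v) v (hp1 v).symm).symm
  have hadj : ∀ v, Y.G.Adj v (p v) := fun v => M.adj_sub (hp1 v)
  let cc : Sym2 V → S := fun e => if hs : ∃ s, ∀ v ∈ e, Y.At v s then hs.choose else
    Classical.arbitrary S
  have hcc : ∀ v, Y.At v (cc s(v, p v)) := by
    intro v
    have hs : ∃ s, ∀ v' ∈ s(v, p v), Y.At v' s := by
      obtain ⟨s, h1, h2⟩ := (hadj v).2.2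
      refine ⟨s, fun v' hv' => ?_⟩
      rcases Sym2.mem_iff.1 hv' with rfl | rfl
      · exact h1
      · exact h2
    have h1 : cc s(v, p v) = hs.choose := dif_pos hs
    rw [h1]
    exact hs.choose_spec v (Sym2.mem_mk_left _ _)
  have hcp : ∀ v, cc s(p v, p (p v)) = cc s(v, p v) := by
    intro v
    rw [hpp, Sym2.eq_swap]
  refine ⟨fun v => cc s(v, p v), hcc, fun s => ⟨?_, ?_⟩⟩
  · have h1 : ∑ v ∈ Finset.univ.filter (fun v => cc s(v, p v) = s), (1 : ZMod 2) = 0 := by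
      refine Finset.sum_involution (fun v _ => p v) ?_ ?_ ?_ ?_
      · intro v _
        exact CharTwo.add_self_eq_zero _
      · intro v _ _ h2
        exact (hadj v).1 h2.symm
      · intro v hv
        rw [Finset.mem_filter] at hv ⊢
        exact ⟨Finset.mem_univ _, (hcp v).trans hv.2⟩
      · intro v _
        exact hpp v
    rw [Finset.sum_const, nsmul_eq_mul, mul_one, ZMod.natCast_eq_zero_iff_even] at h1
    exact h1
  · refine Finset.card_le_card_of_injOn p ?_ ?_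
    · intro v hv
      rw [Finset.mem_coe, Finset.mem_filter] at hv ⊢
      refine ⟨Finset.mem_univ _, (hcp v).trans hv.2.1, fun h2 => (hadj v).2.1 ⟨hv.2.2, h2⟩⟩
    · intro v _ v' _ h2
      rw [← hpp v, h2, hpp]

/-! ## Components without the set `T` -/

variable (T : Set V)

/-- the graph without `T` -/
abbrev H : SimpleGraph ((⊤ : Y.G.Subgraph).deleteVerts T).verts :=
  ((⊤ : Y.G.Subgraph).deleteVerts T).coe

lemma mem_verts {v : V} : v ∈ ((⊤ : Y.G.Subgraph).deleteVerts T).verts ↔ v ∉ T := by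
  simp

/-- the component of an item -/
noncomputable def cp (v : V) (hv : v ∉ T) : (Y.H T).ConnectedComponent :=
  (Y.H T).connectedComponentMk ⟨v, (Y.mem_verts T).2 hv⟩

lemma cp_adj {v v' : V} (hv : v ∉ T) (hv' : v' ∉ T) (h : Y.G.Adj v v') :
    Y.cp T v hv = Y.cp T v' hv' := by
  refine SimpleGraph.ConnectedComponent.sound (SimpleGraph.Adj.reachable ?_)
  rw [SimpleGraph.Subgraph.coe_adj, SimpleGraph.Subgraph.deleteVerts_adj]
  simp only [SimpleGraph.Subgraph.verts_top, Set.mem_univ, true_and, SimpleGraph.Subgraph.top_adj]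
  exact ⟨hv, hv', h⟩

/-- the blocked locations -/
def Z : Set S := {s | ∀ v, ¬ Y.dem v → Y.At v s → v ∈ T}

lemma exists_unit {s : S} (hs : s ∉ Y.Z T) : ∃ v, ¬ Y.dem v ∧ Y.At v s ∧ v ∉ T := by
  unfold Z at hs
  simp only [Set.mem_ofPred_eq, not_forall] at hs
  obtain ⟨v, h1, h2, h3⟩ := hs
  exact ⟨v, h1, h2, h3⟩

/-- the component of a location which is not blocked -/
noncomputable def gm (s : S) (hs : s ∉ Y.Z T) : (Y.H T).ConnectedComponent :=
  Y.cp T (Y.exists_unit T hs).choose (Y.exists_unit T hs).choose_spec.2.2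

lemma cp_eq_gm {v : V} (hv : v ∉ T) {s : S} (hs : s ∉ Y.Z T) (h : Y.At v s) :
    Y.cp T v hv = Y.gm T s hs := by
  obtain ⟨h1, h2, h3⟩ := (Y.exists_unit T hs).choose_spec
  by_cases he : v = (Y.exists_unit T hs).choose
  · unfold gm
    congr 1
  · exact Y.cp_adj T hv h3 ⟨he, fun h4 => h1 h4.2, s, h, h2⟩

lemma unit_notMem_Z {v : V} (hv : v ∉ T) (hd : ¬ Y.dem v) {s : S} (h : Y.At v s) : s ∉ Y.Z T :=
  fun hs => hv (hs v hd h)

/-- an isolated demand -/
lemma isolated {v : V} (hv : v ∉ T) (h : ∀ s, Y.At v s → s ∈ Y.Z T) (hd : Y.dem v) {v' : V}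
    (hv' : v' ∉ T) (he : Y.cp T v hv = Y.cp T v' hv') : v = v' := by
  have h1 : (Y.H T).Reachable ⟨v, (Y.mem_verts T).2 hv⟩ ⟨v', (Y.mem_verts T).2 hv'⟩ :=
    SimpleGraph.ConnectedComponent.exact he
  obtain ⟨w⟩ := h1
  cases w with
  | nil => rfl
  | cons h2 w2 =>
    exfalso
    rw [SimpleGraph.Subgraph.coe_adj, SimpleGraph.Subgraph.deleteVerts_adj] at h2
    obtain ⟨-, -, -, h3, h4⟩ := h2
    rw [SimpleGraph.Subgraph.top_adj] at h4
    obtain ⟨-, h5, s, h6, h7⟩ := h4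
    exact h3 (h s h6 _ (fun h8 => h5 ⟨hd, h8⟩) h7)

lemma exists_rep (C : (Y.H T).ConnectedComponent) : ∃ v, ∃ hv : v ∉ T, Y.cp T v hv = C := by
  induction C using SimpleGraph.ConnectedComponent.ind with
  | _ v => exact ⟨v.1, (Y.mem_verts T).1 v.2, rfl⟩

/-- the items without `T` with a location in the region `Rg` -/
def Reg (Rg : S → Prop) (v : V) : Prop := v ∉ T ∧ ∃ s, Y.At v s ∧ s ∉ Y.Z T ∧ Rg s

lemma reg_adj {Rg : S → Prop} (hcl : ∀ v, v ∉ T → ∀ s s', Y.At v s → Y.At v s' → s ∉ Y.Z T →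
    s' ∉ Y.Z T → Rg s → Rg s') {v v' : V} (hv' : v' ∉ T) (h : Y.G.Adj v v')
    (hr : Y.Reg T Rg v) : Y.Reg T Rg v' := by
  obtain ⟨hv, s0, h1, h2, h3⟩ := hr
  obtain ⟨-, h4, s, h5, h6⟩ := h
  have h7 : s ∉ Y.Z T := by
    by_cases hd : Y.dem v
    · exact Y.unit_notMem_Z T hv' (fun h8 => h4 ⟨hd, h8⟩) h6
    · exact Y.unit_notMem_Z T hv hd h5
  exact ⟨hv', s, h6, h7, hcl v hv s0 s h1 h5 h2 h7 h3⟩

lemma reg_cp {Rg : S → Prop} (hcl : ∀ v, v ∉ T → ∀ s s', Y.At v s → Y.At v s' → s ∉ Y.Z T →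
    s' ∉ Y.Z T → Rg s → Rg s') {v v' : V} (hv : v ∉ T) (hv' : v' ∉ T)
    (h : Y.cp T v hv = Y.cp T v' hv') (hr : Y.Reg T Rg v) : Y.Reg T Rg v' := by
  have h1 : (Y.H T).Reachable ⟨v, (Y.mem_verts T).2 hv⟩ ⟨v', (Y.mem_verts T).2 hv'⟩ :=
    SimpleGraph.ConnectedComponent.exact h
  have key : ∀ a b : ((⊤ : Y.G.Subgraph).deleteVerts T).verts, (Y.H T).Walk a b →
      Y.Reg T Rg a.1 → Y.Reg T Rg b.1 := by
    intro a b w
    induction w with
    | nil => exact id
    | cons h2 w ih =>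
      intro h3
      apply ih
      rw [SimpleGraph.Subgraph.coe_adj, SimpleGraph.Subgraph.deleteVerts_adj] at h2
      obtain ⟨-, -, -, h5, h4⟩ := h2
      rw [SimpleGraph.Subgraph.top_adj] at h4
      exact Y.reg_adj T hcl h5 h4 h3
  obtain ⟨w⟩ := h1
  exact key _ _ w hr

open Classical in
lemma card_cp [Fintype V] (C : (Y.H T).ConnectedComponent) :
    (Finset.univ.filter fun v => ∃ hv : v ∉ T, Y.cp T v hv = C).card = C.supp.ncard := by
  rw [← Set.ncard_coe_finset]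
  refine Set.ncard_congr (fun v hv => ⟨v, ?_⟩) ?_ ?_ ?_
  · simp only [Finset.coe_filter, Finset.mem_univ, true_and, Set.mem_ofPred_eq] at hv
    exact (Y.mem_verts T).2 hv.choose
  · intro v hv
    simp only [Finset.coe_filter, Finset.mem_univ, true_and, Set.mem_ofPred_eq] at hv
    obtain ⟨h1, h2⟩ := hv
    exact h2
  · intro a b _ _ h
    exact congrArg Subtype.val h
  · rintro ⟨v, hv⟩ h
    refine ⟨v, ?_, rfl⟩
    simp only [Finset.coe_filter, Finset.mem_univ, true_and, Set.mem_ofPred_eq]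
    exact ⟨(Y.mem_verts T).1 hv, h⟩

end LSys

/-! ## A rooted tree of locations -/

/-- parents with a depth, and the items which connect a location with its parent -/
structure Tops {V S : Type*} (Y : LSys V S) (T : Set V) (tp : S → Prop) where
  par : S → S
  dp : S → ℕ
  lt : ∀ s, s ∉ Y.Z T → ¬ tp s → dp (par s) < dp s
  co : ∀ s, s ∉ Y.Z T → ¬ tp s → ∃ v, v ∉ T ∧ ¬ Y.dem v ∧ Y.At v s ∧ Y.At v (par s)

namespace Tops

variable {V S : Type*} {Y : LSys V S} {T : Set V} {tp : S → Prop} (P : Tops Y T tp)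

include P in
/-- climbing to the top -/
lemma climb (Rg : S → Prop) (hcl : ∀ v, v ∉ T → ∀ s s', Y.At v s → Y.At v s' → s ∉ Y.Z T →
    s' ∉ Y.Z T → Rg s → Rg s') (s : S) (hs : s ∉ Y.Z T) :
    ∃ t, ∃ ht : t ∉ Y.Z T, tp t ∧ Y.gm T s hs = Y.gm T t ht ∧ (Rg s → Rg t) := by
  induction hn : P.dp s using Nat.strong_induction_on generalizing s with
  | _ n ih =>
    by_cases h1 : tp s
    · exact ⟨s, hs, h1, rfl, id⟩
    · obtain ⟨v, hv, hd, h2, h3⟩ := P.co s hs h1
      have hp : P.par s ∉ Y.Z T := Y.unit_notMem_Z T hv hd h3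
      obtain ⟨t, ht, h4, h5, h6⟩ := ih (P.dp (P.par s)) (hn ▸ P.lt s hs h1) (P.par s) hp rfl
      refine ⟨t, ht, h4, ?_, fun h7 => h6 (hcl v hv s _ h2 h3 hs hp h7)⟩
      rw [← h5, ← Y.cp_eq_gm T hv hs h2, ← Y.cp_eq_gm T hv hp h3]

open Classical in
include P in
/-- **the odd components** -/
theorem count [Fintype V] [Fintype S] [Nonempty S] :
    ∃ U : Finset S, U ⊆ (Finset.univ.filter fun s => s ∉ Y.Z T ∧ tp s) ∧
      (Y.H T).oddComponents.ncard + U.card ≤
        (Finset.univ.filter fun v => v ∉ T ∧ Y.dem v ∧ ∀ s, Y.At v s → s ∈ Y.Z T).card +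
        (Finset.univ.filter fun s => s ∉ Y.Z T ∧ tp s).card ∧
      ∀ t (ht : t ∉ Y.Z T), tp t → t ∉ U → Odd (Y.gm T t ht).supp.ncard ∧
        ∀ t' (ht' : t' ∉ Y.Z T), tp t' → t' ∉ U → Y.gm T t ht = Y.gm T t' ht' → t = t' := by
  have : Fintype (Y.H T).ConnectedComponent := Fintype.ofFinite _
  set tops : Finset S := Finset.univ.filter fun s => s ∉ Y.Z T ∧ tp s with htops
  set iso : Finset V := Finset.univ.filter fun v => v ∉ T ∧ Y.dem v ∧ ∀ s, Y.At v s → s ∈ Y.Z T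
    with hiso
  let O : Finset (Y.H T).ConnectedComponent := Finset.univ.filter fun C => Odd C.supp.ncard
  have hO : (Y.H T).oddComponents.ncard = O.card := by
    rw [← Set.ncard_coe_finset]
    congr 1
    ext C
    simp [O, SimpleGraph.oddComponents]
  let O1 : Finset (Y.H T).ConnectedComponent :=
    O.filter fun C => ∃ s, ∃ hs : s ∉ Y.Z T, C = Y.gm T s hs
  let O2 : Finset (Y.H T).ConnectedComponent :=
    O.filter fun C => ¬ ∃ s, ∃ hs : s ∉ Y.Z T, C = Y.gm T s hs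
  have h12 : O.card = O1.card + O2.card := (Finset.card_filter_add_card_filter_not _).symm
  -- isolated demands
  have h2 : O2.card ≤ iso.card := by
    have hr : ∀ C, ∃ v, ∃ hv : v ∉ T, Y.cp T v hv = C := Y.exists_rep T
    choose rp hrp1 hrp2 using hr
    refine Finset.card_le_card_of_injOn rp ?_ ?_
    · intro C hC
      rw [Finset.mem_coe, Finset.mem_filter] at hC
      have h3 : ∀ s, Y.At (rp C) s → s ∈ Y.Z T := by
        intro s hs
        by_contra h4
        exact hC.2 ⟨s, h4, (hrp2 C).symm.trans (Y.cp_eq_gm T (hrp1 C) h4 hs)⟩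
      refine Finset.mem_coe.2 (Finset.mem_filter.2 ⟨Finset.mem_univ _, hrp1 C, ?_, h3⟩)
      by_contra h4
      exact hrp1 C (h3 (Y.L (rp C)) (Or.inl rfl) _ h4 (Or.inl rfl))
    · intro C _ C' _ h3
      rw [← hrp2 C, ← hrp2 C']
      congr 1
  -- representatives
  have hch : ∀ C : (Y.H T).ConnectedComponent, C ∈ O1 →
      ∃ t, ∃ ht : t ∉ Y.Z T, tp t ∧ C = Y.gm T t ht := by
    intro C hC
    obtain ⟨-, s, hs, rfl⟩ := Finset.mem_filter.1 hC
    obtain ⟨t, ht, h3, h4, -⟩ := P.climb (fun _ => True) (fun _ _ _ _ _ _ _ _ _ => trivial) s hs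
    exact ⟨t, ht, h3, h4⟩
  choose! f hf1 hf2 hf3 using hch
  have hinj : Set.InjOn f (O1 : Set (Y.H T).ConnectedComponent) := by
    intro C hC C' hC' h3
    rw [hf3 C hC, hf3 C' hC']
    congr 1
  refine ⟨tops \ O1.image f, Finset.sdiff_subset, ?_, ?_⟩
  · have h3 : O1.image f ⊆ tops := by
      intro t ht
      obtain ⟨C, hC, rfl⟩ := Finset.mem_image.1 ht
      exact Finset.mem_filter.2 ⟨Finset.mem_univ _, hf1 C hC, hf2 C hC⟩
    have h4 := Finset.card_sdiff_add_card_eq_card h3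
    rw [Finset.card_image_of_injOn hinj] at h4
    omega
  · have key : ∀ t (ht : t ∉ Y.Z T), tp t → t ∉ tops \ O1.image f →
        Y.gm T t ht ∈ O1 ∧ f (Y.gm T t ht) = t := by
      intro t ht h3 h4
      rw [Finset.mem_sdiff, not_and, not_not] at h4
      obtain ⟨C, hC, rfl⟩ := Finset.mem_image.1
        (h4 (Finset.mem_filter.2 ⟨Finset.mem_univ _, ht, h3⟩))
      have h5 : Y.gm T (f C) ht = C := (hf3 C hC).symm
      rw [h5]
      exact ⟨hC, rfl⟩
    intro t ht h3 h4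
    obtain ⟨h5, h6⟩ := key t ht h3 h4
    refine ⟨(Finset.mem_filter.1 (Finset.mem_filter.1 h5).1).2, ?_⟩
    intro t' ht' h7 h8 h9
    obtain ⟨h10, h11⟩ := key t' ht' h7 h8
    rw [← h6, ← h11, h9]

open Classical in
include P in
/-- **parity of a region** -/
theorem parity [Fintype V] [Fintype S] [Nonempty S] (U : Finset S)
    (hU : ∀ t (ht : t ∉ Y.Z T), tp t → t ∉ U → Odd (Y.gm T t ht).supp.ncard ∧
        ∀ t' (ht' : t' ∉ Y.Z T), tp t' → t' ∉ U → Y.gm T t ht = Y.gm T t' ht' → t = t')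
    (Rg : S → Prop) (hcl : ∀ v, v ∉ T → ∀ s s', Y.At v s → Y.At v s' → s ∉ Y.Z T →
      s' ∉ Y.Z T → Rg s → Rg s') (hRU : ∀ s, s ∉ Y.Z T → tp s → Rg s → s ∉ U) :
    (((Finset.univ.filter fun v => Y.Reg T Rg v).card : ℕ) : ZMod 2) =
      (((Finset.univ.filter fun s => s ∉ Y.Z T ∧ tp s ∧ Rg s).card : ℕ) : ZMod 2) := by
  set HR : Finset V := Finset.univ.filter fun v => Y.Reg T Rg v with hHR
  set TR : Finset S := Finset.univ.filter fun s => s ∉ Y.Z T ∧ tp s ∧ Rg s with hTR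
  have hex : ∀ v, Y.Reg T Rg v → ∃ t, ∃ hv : v ∉ T, ∃ ht : t ∉ Y.Z T, tp t ∧ Rg t ∧
      Y.cp T v hv = Y.gm T t ht := by
    rintro v ⟨hv, s, h1, h2, h3⟩
    obtain ⟨t, ht, h4, h5, h6⟩ := P.climb Rg hcl s h2
    exact ⟨t, hv, ht, h4, h6 h3, (Y.cp_eq_gm T hv h2 h1).trans h5⟩
  choose! g hg1 hg2 hg3 hg4 hg5 using hex
  have hmaps : Set.MapsTo g (HR : Set V) (TR : Set S) := by
    intro v hv
    have hv' : Y.Reg T Rg v := (Finset.mem_filter.1 (Finset.mem_coe.1 hv)).2
    exact Finset.mem_coe.2 (Finset.mem_filter.2 ⟨Finset.mem_univ _, hg2 v hv', hg3 v hv', hg4 v hv'⟩)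
  rw [Finset.card_eq_sum_card_fiberwise hmaps, Nat.cast_sum, Finset.card_eq_sum_ones,
    Nat.cast_sum]
  refine Finset.sum_congr rfl fun t ht => ?_
  obtain ⟨-, ht1, ht2, ht3⟩ := Finset.mem_filter.1 ht
  have h1 : (HR.filter fun v => g v = t) =
      Finset.univ.filter fun v => ∃ hv : v ∉ T, Y.cp T v hv = Y.gm T t ht1 := by
    ext v
    simp only [Finset.mem_filter, Finset.mem_univ, true_and, hHR]
    constructor
    · rintro ⟨h2, rfl⟩
      exact ⟨hg1 v h2, hg5 v h2⟩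
    · rintro ⟨hv, h2⟩
      have h3 : Y.Reg T Rg v := by
        obtain ⟨h4, h5, h6⟩ := (Y.exists_unit T ht1).choose_spec
        exact Y.reg_cp T hcl h6 hv h2.symm ⟨h6, t, h5, ht1, ht3⟩
      refine ⟨h3, ?_⟩
      exact (hU _ (hg2 v h3) (hg3 v h3) (hRU _ (hg2 v h3) (hg3 v h3) (hg4 v h3))).2 t ht1 ht2
        (hRU _ ht1 ht2 ht3) ((hg5 v h3).symm.trans h2)
  rw [h1, Y.card_cp T]
  have h2 := (hU t ht1 ht2 (hRU t ht1 ht2 ht3)).1
  rw [Nat.cast_one]
  exact ZMod.natCast_eq_one_iff_odd.2 h2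

end Tops

end Pool.Agent.MP42.PC
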