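import Pool.Agent.MP42.PC.Seg

/-!
# Project MP42: loads of a placement (owner helper43)
-/

set_option autoImplicit false
set_option linter.unusedSectionVars false

namespace Pool.Agent.MP42.PC

open Pool.Agent.MP42.U

section ld

variable {C α J : Type*} [LinearOrder α] [Fintype C] [Fintype α] [Fintype J] (D : Contour C α)
  (cls : C → Prop) (cp : C → ℕ) (y a b : J → α)

/-- a placement of the items -/
structure Plc where
  c : (tsys D cls cp y a b).It → Sg D
  at_c : ∀ v, (tsys D cls cp y a b).sys.At v (c v)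
  ev : ∀ s, Even (Nat.card {v // c v = s})
  le : ∀ s, Nat.card {v // c v = s ∧ (tsys D cls cp y a b).sys.dem v} ≤
    Nat.card {v // c v = s ∧ ¬ (tsys D cls cp y a b).sys.dem v}

variable {D cls cp y a b} (Q : Plc D cls cp y a b)

namespace Plc

/-- the tree -/
noncomputable abbrev W (_ : Plc D cls cp y a b) : TSys (Sg D) J := tsys D cls cp y a b

open Classical in
/-- units given to the parent -/
noncomputable def up (s : Sg D) : ℕ :=
  if s = rts D cls then 0 else
    (Finset.univ.filter fun n => Q.c (Q.W.iE s n) = sPar D cls s).card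

open Classical in
/-- units which stay -/
noncomputable def stay (s : Sg D) : ℕ := (Finset.univ.filter fun n => Q.c (Q.W.iE s n) = s).card

open Classical in
/-- demands of the stars at a segment -/
noncomputable def pn (s : Sg D) : ℕ := (Finset.univ.filter fun j => Q.c (Q.W.iX j) = s).card

open Classical in
/-- units of the stars at a segment -/
noncomputable def yn (s : Sg D) : ℕ := (Finset.univ.filter fun j => sp D (y j) = s).card

open Classical in
/-- units given by the segment before -/
noncomputable def pu (s : Sg D) : ℕ := ∑ s0, if Nx D cls s0 s then Q.up s0 else 0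

open Classical in
/-- units given by the circle of the child -/
noncomputable def od (s : Sg D) : ℕ :=
  ∑ s0, if Lst D cls s0 ∧ s0 ≠ rts D cls ∧ sPar D cls s0 = s then Q.up s0 else 0

lemma par_ne {s : Sg D} (hs : s ≠ rts D cls) : sPar D cls s ≠ s := by
  intro h
  have := sDp_lt D cls hs
  rw [h] at this
  exact lt_irrefl _ this

lemma me_rts : Q.W.me (rts D cls) = 0 := Q.W.me_rt

lemma up_stay {s : Sg D} (hs : s ≠ rts D cls) : Q.up s + Q.stay s = Q.W.me s := by
  classical
  unfold up stay
  rw [if_neg hs]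
  have h1 : (Finset.univ.filter fun n => Q.c (Q.W.iE s n) = sPar D cls s) ∪
      (Finset.univ.filter fun n => Q.c (Q.W.iE s n) = s) = Finset.univ := by
    ext n
    simp only [Finset.mem_union, Finset.mem_filter, Finset.mem_univ, true_and, iff_true]
    exact (Q.at_c (Q.W.iE s n)).symm
  have h2 : Disjoint (Finset.univ.filter fun n => Q.c (Q.W.iE s n) = sPar D cls s)
      (Finset.univ.filter fun n => Q.c (Q.W.iE s n) = s) := by
    rw [Finset.disjoint_left]
    intro n h3 h4
    rw [Finset.mem_filter] at h3 h4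
    exact par_ne hs (h3.2.symm.trans h4.2)
  rw [← Finset.card_union_of_disjoint h2, h1, Finset.card_univ, Fintype.card_fin]

lemma up_le (s : Sg D) : Q.up s ≤ 3 := by
  by_cases hs : s = rts D cls
  · unfold up
    rw [if_pos hs]
    omega
  · have h1 := Q.up_stay hs
    rcases Q.W.me_or s hs with h2 | h2 <;> omega

lemma cD (s : Sg D) (n : Fin (Q.W.md s)) : Q.c (Q.W.iD s n) = s :=
  (Q.W.at_D).1 (Q.at_c (Q.W.iD s n))

lemma cB (s : Sg D) (n : Fin (Q.W.bt s)) : Q.c (Q.W.iB s n) = s :=
  (Q.W.at_B).1 (Q.at_c (Q.W.iB s n))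

lemma cY (j : J) : Q.c (Q.W.iY j) = sp D (y j) := (Q.W.at_Y).1 (Q.at_c (Q.W.iY j))

open Classical in
lemma sum_E (s : Sg D) : ∑ s0, (Finset.univ.filter fun n => Q.c (Q.W.iE s0 n) = s).card ≤
    (if s = rts D cls then 0 else Q.stay s) + (Q.pu s + Q.od s) := by
  have h1 : ∀ s0, (Finset.univ.filter fun n => Q.c (Q.W.iE s0 n) = s).card ≤
      (if s0 = s then (if s = rts D cls then 0 else Q.stay s) else 0) +
        ((if Nx D cls s0 s then Q.up s0 else 0) +
        (if Lst D cls s0 ∧ s0 ≠ rts D cls ∧ sPar D cls s0 = s then Q.up s0 else 0)) := by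
    intro s0
    by_cases hr : s0 = rts D cls
    · have h2 : (Finset.univ.filter fun n => Q.c (Q.W.iE s0 n) = s).card ≤ 0 := by
        refine (Finset.card_le_univ _).trans ?_
        rw [Fintype.card_fin, hr]
        exact le_of_eq Q.me_rts
      omega
    · by_cases h2 : s0 = s
      · subst h2
        rw [if_pos rfl, if_neg hr]
        exact Nat.le_add_right _ _
      · rw [if_neg h2]
        by_cases h3 : sPar D cls s0 = s
        · have h4 : (Finset.univ.filter fun n => Q.c (Q.W.iE s0 n) = s).card = Q.up s0 := by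
            unfold up
            rw [if_neg hr, h3]
          rw [h4]
          by_cases h5 : Lst D cls s0
          · rw [if_pos (show Lst D cls s0 ∧ s0 ≠ rts D cls ∧ sPar D cls s0 = s from
              ⟨h5, hr, h3⟩)]
            omega
          · obtain ⟨s', h6⟩ := exists_nx D cls h5
            rw [sPar_nx D cls h6] at h3
            rw [if_pos (h3 ▸ h6)]
            omega
        · rw [Finset.filter_false_of_mem]
          · rw [Finset.card_empty]
            exact Nat.zero_le _
          · intro n _ h4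
            rcases Q.at_c (Q.W.iE s0 n) with h5 | h5
            · exact h2 (h5.symm.trans h4)
            · exact h3 ((show Q.c (Q.W.iE s0 n) = sPar D cls s0 from h5).symm.trans h4)
  refine (Finset.sum_le_sum fun s0 _ => h1 s0).trans ?_
  rw [Finset.sum_add_distrib, Finset.sum_add_distrib, Finset.sum_ite_eq' Finset.univ s,
    if_pos (Finset.mem_univ _)]
  exact le_rfl

open Classical in
/-- the inequality at a segment -/
lemma local_le (s : Sg D) : Q.pn s + Q.up s + (if s = rts D cls then 1 else 0) ≤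
    yn (D := D) (y := y) s + Q.W.bt s + Q.pu s + Q.od s := by
  classical
  have h0 := Q.le s
  rw [Nat.card_eq_fintype_card, Nat.card_eq_fintype_card, Fintype.card_subtype,
    Fintype.card_subtype, Q.W.card_items (fun v => Q.c v = s ∧ Q.W.sys.dem v),
    Q.W.card_items (fun v => Q.c v = s ∧ ¬ Q.W.sys.dem v)] at h0
  have d1 : (Finset.univ.filter fun j => Q.c (Q.W.iX j) = s ∧ Q.W.sys.dem (Q.W.iX j)).card =
      Q.pn s := by
    unfold pn
    congr 1
    ext j
    simp only [Finset.mem_filter, Finset.mem_univ, true_and]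
    exact ⟨fun h => h.1, fun h => ⟨h, Q.W.dem_X⟩⟩
  have d2 : ∑ s0, (Finset.univ.filter fun n => Q.c (Q.W.iD s0 n) = s ∧
      Q.W.sys.dem (Q.W.iD s0 n)).card = Q.W.md s := by
    rw [Finset.sum_eq_single s]
    · rw [Finset.filter_true_of_mem, Finset.card_univ, Fintype.card_fin]
      intro n _
      exact ⟨Q.cD s n, Q.W.dem_D⟩
    · intro s0 _ h1
      rw [Finset.filter_false_of_mem, Finset.card_empty]
      intro n _ h2
      exact h1 ((Q.cD s0 n).symm.trans h2.1)
    · intro h
      exact absurd (Finset.mem_univ _) h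
  have d3 : (Finset.univ.filter fun j => Q.c (Q.W.iY j) = s ∧ ¬ Q.W.sys.dem (Q.W.iY j)).card =
      yn (D := D) (y := y) s := by
    unfold yn
    congr 1
    ext j
    simp only [Finset.mem_filter, Finset.mem_univ, true_and]
    rw [Q.cY]
    exact ⟨fun h => h.1, fun h => ⟨h, Q.W.dem_Y⟩⟩
  have d4 : ∑ s0, (Finset.univ.filter fun n => Q.c (Q.W.iB s0 n) = s ∧
      ¬ Q.W.sys.dem (Q.W.iB s0 n)).card = Q.W.bt s := by
    rw [Finset.sum_eq_single s]
    · rw [Finset.filter_true_of_mem, Finset.card_univ, Fintype.card_fin]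
      intro n _
      exact ⟨Q.cB s n, Q.W.dem_B⟩
    · intro s0 _ h1
      rw [Finset.filter_false_of_mem, Finset.card_empty]
      intro n _ h2
      exact h1 ((Q.cB s0 n).symm.trans h2.1)
    · intro h
      exact absurd (Finset.mem_univ _) h
  have d5 : ∑ s0, (Finset.univ.filter fun n => Q.c (Q.W.iE s0 n) = s ∧
      ¬ Q.W.sys.dem (Q.W.iE s0 n)).card =
      ∑ s0, (Finset.univ.filter fun n => Q.c (Q.W.iE s0 n) = s).card := by
    refine Finset.sum_congr rfl fun s0 _ => ?_
    congr 1
    ext n
    simp only [Finset.mem_filter, Finset.mem_univ, true_and]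
    exact ⟨fun h => h.1, fun h => ⟨h, Q.W.dem_E⟩⟩
  have d6 : (Finset.univ.filter fun j => Q.c (Q.W.iX j) = s ∧ ¬ Q.W.sys.dem (Q.W.iX j)).card
      = 0 := by
    rw [Finset.filter_false_of_mem (fun j _ h => h.2 Q.W.dem_X), Finset.card_empty]
  have d7 : ∑ s0, (Finset.univ.filter fun n => Q.c (Q.W.iD s0 n) = s ∧
      ¬ Q.W.sys.dem (Q.W.iD s0 n)).card = 0 := by
    refine Finset.sum_eq_zero fun s0 _ => ?_
    rw [Finset.filter_false_of_mem (fun n _ h => h.2 Q.W.dem_D), Finset.card_empty]
  rw [d1, d2, d3, d4, d5, d6, d7] at h0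
  have h1 := Q.sum_E s
  by_cases hr : s = rts D cls
  · rw [if_pos hr] at h1 ⊢
    have h2 : Q.W.md s = 1 := by rw [hr]; exact Q.W.md_rt
    have h3 : Q.up s = 0 := by unfold up; rw [if_pos hr]
    omega
  · rw [if_neg hr] at h1 ⊢
    have h2 := Q.W.md_eq s hr
    have h3 := Q.up_stay hr
    omega

lemma pu_nx {s s' : Sg D} (h : Nx D cls s s') : Q.pu s' = Q.up s := by
  classical
  unfold pu
  rw [Finset.sum_eq_single s]
  · rw [if_pos h]
  · intro s0 _ h1
    rw [if_neg]
    intro h2
    exact h1 (h2.inj h)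
  · intro h1
    exact absurd (Finset.mem_univ _) h1

lemma pu_fst {s : Sg D} (h : Fst D cls s) : Q.pu s = 0 := by
  classical
  unfold pu
  refine Finset.sum_eq_zero fun s0 _ => ?_
  rw [if_neg]
  intro h2
  exact h2.not_fst h

lemma pu_le (s : Sg D) : Q.pu s ≤ 3 := by
  by_cases h : Fst D cls s
  · rw [Q.pu_fst h]
    omega
  · obtain ⟨s', h1⟩ := exists_prev D cls h
    rw [Q.pu_nx h1]
    exact Q.up_le s'

lemma bt_not_fst {s : Sg D} (h : ¬ Fst D cls s) : Q.W.bt s = 0 := if_neg h

open Classical in
/-- the segments between two segments of a circle -/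
noncomputable def Iv (D : Contour C α) (cls : C → Prop) (s₁ s₂ : Sg D) : Finset (Sg D) :=
  Finset.univ.filter fun s => ho D s = ho D s₁ ∧ kk D cls s₁ ≤ kk D cls s ∧
    kk D cls s ≤ kk D cls s₂

/-- **the loads of the intervals** -/
lemma interval (s₁ : Sg D) : ∀ (n : ℕ) (s₂ : Sg D), ho D s₂ = ho D s₁ →
    kk D cls s₁ ≤ kk D cls s₂ → (Iv D cls s₁ s₂).card ≤ n →
    (∑ s ∈ Iv D cls s₁ s₂, Q.pn s) + Q.up s₂ ≤
      (∑ s ∈ Iv D cls s₁ s₂, (yn (D := D) (y := y) s + Q.od s)) + Q.W.bt s₁ + Q.pu s₁ := by
  classical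
  intro n
  induction n with
  | zero =>
    intro s₂ h1 h2 h3
    have : s₂ ∈ Iv D cls s₁ s₂ := Finset.mem_filter.2 ⟨Finset.mem_univ _, h1, h2, le_rfl⟩
    have := Finset.card_pos.2 ⟨_, this⟩
    omega
  | succ n ih =>
    intro s₂ h1 h2 h3
    by_cases he : s₁ = s₂
    · subst he
      have h4 : Iv D cls s₁ s₁ = {s₁} := by
        ext s
        simp only [Iv, Finset.mem_filter, Finset.mem_univ, true_and, Finset.mem_singleton]
        constructor
        · rintro ⟨g1, g2, g3⟩
          exact kk_inj D cls g1 (le_antisymm g3 g2)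
        · rintro rfl
          exact ⟨rfl, le_rfl, le_rfl⟩
      rw [h4, Finset.sum_singleton, Finset.sum_singleton]
      have := Q.local_le s₁
      omega
    · have hlt : kk D cls s₁ < kk D cls s₂ := lt_of_le_of_ne h2 (kk_ne D cls h1.symm he)
      have hnf : ¬ Fst D cls s₂ := fun h4 => absurd (h4 s₁ h1.symm) (not_le.2 hlt)
      obtain ⟨s', hn⟩ := exists_prev D cls hnf
      have hs1 : ho D s' = ho D s₁ := hn.1.symm.trans h1
      have hle : kk D cls s₁ ≤ kk D cls s' := by
        by_contra h4
        exact absurd (hn.2.2 s₁ hs1.symm (not_le.1 h4)) (not_le.2 hlt)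
      have hIv : Iv D cls s₁ s₂ = insert s₂ (Iv D cls s₁ s') := by
        ext s
        simp only [Iv, Finset.mem_filter, Finset.mem_univ, true_and, Finset.mem_insert]
        constructor
        · rintro ⟨g1, g2, g3⟩
          by_cases g4 : s = s₂
          · exact Or.inl g4
          · refine Or.inr ⟨g1, g2, ?_⟩
            by_contra g5
            have g6 := hn.2.2 s (g1.trans hs1.symm) (not_le.1 g5)
            exact g4 (kk_inj D cls (g1.trans h1.symm) (le_antisymm g3 g6))
        · rintro (rfl | ⟨g1, g2, g3⟩)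
          · exact ⟨h1, h2, le_rfl⟩
          · exact ⟨g1, g2, g3.trans hn.2.1.le⟩
      have hnm : s₂ ∉ Iv D cls s₁ s' := by
        intro g
        have := (Finset.mem_filter.1 g).2.2.2
        exact absurd this (not_le.2 hn.2.1)
      rw [hIv, Finset.card_insert_of_notMem hnm] at h3
      have h5 := ih s' hs1 hle (by omega)
      rw [hIv, Finset.sum_insert hnm, Finset.sum_insert hnm]
      have h6 := Q.local_le s₂
      rw [Q.pu_nx hn, Q.bt_not_fst hnf] at h6
      omega

end Plc

end ld

end Pool.Agent.MP42.PC
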