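import Pool.Agent.MP42.PC.Tree

/-!
# Project MP42: parity of a region (owner helper43)
-/

set_option autoImplicit false
set_option linter.unusedSectionVars false

namespace Pool.Agent.MP42.PC

namespace TSys

variable {S J : Type*} (W : TSys S J) (T : Set W.It)

open Classical in
/-- **parity of a region without exceptional locations** -/
theorem region [Fintype S] [Fintype J] (U : Finset S)
    (hU : ∀ t (ht : t ∉ W.sys.Z T), W.tp T t → t ∉ U → Odd (W.sys.gm T t ht).supp.ncard ∧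
        ∀ t' (ht' : t' ∉ W.sys.Z T), W.tp T t' → t' ∉ U →
          W.sys.gm T t ht = W.sys.gm T t' ht' → t = t')
    (Rg : S → Prop)
    (hX : ∀ j, W.iX j ∉ T → W.A j ∉ W.sys.Z T → W.B j ∉ W.sys.Z T → (Rg (W.A j) ↔ Rg (W.B j)))
    (hE : ∀ s n, W.iE s n ∉ T → (Rg s ↔ Rg (W.par s)))
    (hRU : ∀ s, s ∉ W.sys.Z T → Rg s → s ∉ U)
    (hbad : ∀ s, Rg s → ¬ W.bad T s) (hrt : W.rt ∉ W.sys.Z T → ¬ Rg W.rt)
    (hbt : ∀ s, s ∉ W.sys.Z T → Rg s → Even (W.bt s)) :
    Even ((Finset.univ.filter fun j => W.iX j ∉ T ∧ ((W.A j ∉ W.sys.Z T ∧ Rg (W.A j)) ∨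
        (W.B j ∉ W.sys.Z T ∧ Rg (W.B j)))).card +
      (Finset.univ.filter fun j => W.iY j ∉ T ∧ Rg (W.Yy j)).card) := by
  have : Nonempty S := ⟨W.rt⟩
  have hcl : ∀ v, v ∉ T → ∀ s s', W.sys.At v s → W.sys.At v s' → s ∉ W.sys.Z T →
      s' ∉ W.sys.Z T → Rg s → Rg s' := by
    rintro ((j | j) | ⟨s0, n⟩ | ⟨s0, n⟩ | ⟨s0, n⟩) hv s s' h1 h2 h3 h4 h5
    · rcases h1 with rfl | rfl <;> rcases h2 with rfl | rfl
      · exact h5
      · exact (hX j hv h3 h4).1 h5
      · exact (hX j hv h4 h3).2 h5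
      · exact h5
    · rcases h1 with rfl | rfl <;> rcases h2 with rfl | rfl <;> exact h5
    · rcases h1 with rfl | rfl <;> rcases h2 with rfl | rfl
      · exact h5
      · exact (hE _ n hv).1 h5
      · exact (hE _ n hv).2 h5
      · exact h5
    · rcases h1 with rfl | rfl <;> rcases h2 with rfl | rfl <;> exact h5
    · rcases h1 with rfl | rfl <;> rcases h2 with rfl | rfl <;> exact h5
  have h0 := (W.tops T).parity U hU Rg hcl (fun s h1 _ h2 => hRU s h1 h2)
  have e1 := W.card_items (fun v => W.sys.Reg T Rg v)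
  -- the counts at a location
  have cE : ∀ s, (Finset.univ.filter fun n => W.sys.Reg T Rg (W.iE s n)).card =
      if s ∉ W.sys.Z T ∧ Rg s ∧ ¬ W.tp T s then W.me s else 0 := by
    intro s
    split_ifs with h
    · obtain ⟨h1, h2, h3⟩ := h
      rw [Finset.filter_true_of_mem, Finset.card_univ, Fintype.card_fin]
      intro n _
      have h4 : W.iE s n ∉ T := by
        intro h5
        apply hbad s h2
        refine ⟨h1, Or.inr (Or.inr ⟨⟨n, h5⟩, ?_⟩)⟩
        unfold tp at h3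
        push Not at h3
        exact h3
      exact ⟨h4, s, Or.inl rfl, h1, h2⟩
    · rw [Finset.filter_false_of_mem, Finset.card_empty]
      rintro n _ ⟨h1, s', h2, h3, h4⟩
      apply h
      have h5 : s ∉ W.sys.Z T := W.sys.unit_notMem_Z T h1 W.dem_E (Or.inl rfl)
      refine ⟨h5, ?_, fun h6 => h1 (h6 n)⟩
      exact hcl _ h1 s' s h2 (Or.inl rfl) h3 h5 h4
  have cD : ∀ s, (Finset.univ.filter fun n => W.sys.Reg T Rg (W.iD s n)).card =
      if s ∉ W.sys.Z T ∧ Rg s then W.md s else 0 := by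
    intro s
    split_ifs with h
    · obtain ⟨h1, h2⟩ := h
      rw [Finset.filter_true_of_mem, Finset.card_univ, Fintype.card_fin]
      intro n _
      have h4 : W.iD s n ∉ T := fun h5 => hbad s h2 ⟨h1, Or.inl ⟨n, h5⟩⟩
      exact ⟨h4, s, Or.inl rfl, h1, h2⟩
    · rw [Finset.filter_false_of_mem, Finset.card_empty]
      rintro n _ ⟨h1, s', h2, h3, h4⟩
      rw [W.at_D] at h2
      subst h2
      exact h ⟨h3, h4⟩
  have cB : ∀ s, (Finset.univ.filter fun n => W.sys.Reg T Rg (W.iB s n)).card =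
      if s ∉ W.sys.Z T ∧ Rg s then W.bt s else 0 := by
    intro s
    split_ifs with h
    · obtain ⟨h1, h2⟩ := h
      rw [Finset.filter_true_of_mem, Finset.card_univ, Fintype.card_fin]
      intro n _
      have h4 : W.iB s n ∉ T := fun h5 => hbad s h2 ⟨h1, Or.inr (Or.inl ⟨n, h5⟩)⟩
      exact ⟨h4, s, Or.inl rfl, h1, h2⟩
    · rw [Finset.filter_false_of_mem, Finset.card_empty]
      rintro n _ ⟨h1, s', h2, h3, h4⟩
      rw [W.at_B] at h2
      subst h2
      exact h ⟨h3, h4⟩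
  have key : ∀ s, (((if s ∉ W.sys.Z T ∧ Rg s ∧ ¬ W.tp T s then W.me s else 0) +
      (if s ∉ W.sys.Z T ∧ Rg s then W.md s else 0) +
      (if s ∉ W.sys.Z T ∧ Rg s then W.bt s else 0) : ℕ) : ZMod 2) =
      ((if s ∉ W.sys.Z T ∧ W.tp T s ∧ Rg s then 1 else 0 : ℕ) : ZMod 2) := by
    intro s
    by_cases h : s ∉ W.sys.Z T ∧ Rg s
    · obtain ⟨h1, h2⟩ := h
      have hs : s ≠ W.rt := by
        rintro rfl
        exact hrt h1 h2
      have h3 := W.md_eq s hs
      have h4 : Even (W.bt s) := hbt s h1 h2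
      rw [if_pos (show s ∉ W.sys.Z T ∧ Rg s from ⟨h1, h2⟩),
        if_pos (show s ∉ W.sys.Z T ∧ Rg s from ⟨h1, h2⟩), h3]
      have h5 : ((W.bt s : ℕ) : ZMod 2) = 0 := (ZMod.natCast_eq_zero_iff_even).2 h4
      have h6 : ((W.me s : ℕ) : ZMod 2) = 1 := by
        rcases W.me_or s hs with h7 | h7 <;> rw [h7]
        · simp
        · decide
      by_cases ht : W.tp T s
      · rw [if_neg (fun h8 => h8.2.2 ht), if_pos ⟨h1, ht, h2⟩]
        push_cast
        rw [h5, h6]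
        ring
      · rw [if_pos ⟨h1, h2, ht⟩, if_neg (fun h8 => ht h8.2.1)]
        push_cast
        rw [h5, h6]
        decide
    · rw [if_neg (fun h1 => h ⟨h1.1, h1.2.1⟩), if_neg h, if_neg h,
        if_neg (fun h1 => h ⟨h1.1, h1.2.2⟩)]
  have hsum : (((∑ s, (Finset.univ.filter fun n => W.sys.Reg T Rg (W.iE s n)).card) +
      ((∑ s, (Finset.univ.filter fun n => W.sys.Reg T Rg (W.iD s n)).card) +
      ∑ s, (Finset.univ.filter fun n => W.sys.Reg T Rg (W.iB s n)).card) : ℕ) : ZMod 2) =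
      (((Finset.univ.filter fun s => s ∉ W.sys.Z T ∧ W.tp T s ∧ Rg s).card : ℕ) : ZMod 2) := by
    rw [← Finset.sum_add_distrib, ← Finset.sum_add_distrib, Finset.card_filter, Nat.cast_sum,
      Nat.cast_sum]
    refine Finset.sum_congr rfl fun s _ => ?_
    rw [← key s, cE s, cD s, cB s, add_assoc]
  have hX2 : (Finset.univ.filter fun j => W.sys.Reg T Rg (W.iX j)) =
      Finset.univ.filter fun j => W.iX j ∉ T ∧ ((W.A j ∉ W.sys.Z T ∧ Rg (W.A j)) ∨
        (W.B j ∉ W.sys.Z T ∧ Rg (W.B j))) := by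
    ext j
    simp only [Finset.mem_filter, Finset.mem_univ, true_and]
    constructor
    · rintro ⟨h1, s, h2 | h2, h3, h4⟩
      · subst h2
        exact ⟨h1, Or.inl ⟨h3, h4⟩⟩
      · subst h2
        exact ⟨h1, Or.inr ⟨h3, h4⟩⟩
    · rintro ⟨h1, h2 | h2⟩
      · exact ⟨h1, _, Or.inl rfl, h2.1, h2.2⟩
      · exact ⟨h1, _, Or.inr rfl, h2.1, h2.2⟩
  have hY2 : (Finset.univ.filter fun j => W.sys.Reg T Rg (W.iY j)) =
      Finset.univ.filter fun j => W.iY j ∉ T ∧ Rg (W.Yy j) := by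
    ext j
    simp only [Finset.mem_filter, Finset.mem_univ, true_and]
    constructor
    · rintro ⟨h1, s, h2, h3, h4⟩
      rw [W.at_Y] at h2
      subst h2
      exact ⟨h1, h4⟩
    · rintro ⟨h1, h2⟩
      exact ⟨h1, _, Or.inl rfl, W.sys.unit_notMem_Z T h1 W.dem_Y (Or.inl rfl), h2⟩
  rw [← hX2, ← hY2, ← ZMod.natCast_eq_zero_iff_even]
  rw [e1, Nat.cast_add, hsum] at h0
  have h7 : ∀ a b : ZMod 2, a + b = b → a = 0 := by decide
  exact h7 _ _ h0

end TSys

end Pool.Agent.MP42.PC
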