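import Pool.Agent.MP42.PC.Seg

/-!
# Project MP42: runs of segments, contour order (owner helper43)
-/

set_option autoImplicit false
set_option linter.unusedSectionVars false

namespace Pool.Agent.MP42.PC

open Pool.Agent.MP42.U

section rn

variable {C α : Type*} [LinearOrder α] [Fintype C] [Fintype α] {D : Contour C α}
  {cls : C → Prop}

/-- all segments from `s₀` to `s` are in `Z` -/
def Run (D : Contour C α) (cls : C → Prop) (Z : Set (Sg D)) (s₀ s : Sg D) : Prop :=
  ho D s₀ = ho D s ∧ kk D cls s₀ ≤ kk D cls s ∧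
    ∀ s', ho D s' = ho D s → kk D cls s₀ ≤ kk D cls s' → kk D cls s' ≤ kk D cls s → s' ∈ Z

lemma run_refl {Z : Set (Sg D)} {s : Sg D} (hs : s ∈ Z) : Run D cls Z s s := by
  refine ⟨rfl, le_rfl, fun s' h1 h2 h3 => ?_⟩
  rw [kk_inj D cls h1 (le_antisymm h3 h2)]
  exact hs

lemma exists_start {Z : Set (Sg D)} {s : Sg D} (hs : s ∈ Z) :
    ∃ s₀, Run D cls Z s₀ s ∧ ∀ s₁, Run D cls Z s₁ s → kk D cls s₀ ≤ kk D cls s₁ := by
  classical
  obtain ⟨s₀, h1, h2⟩ := Finset.exists_min_image
    (Finset.univ.filter fun s₀ : Sg D => Run D cls Z s₀ s) (kk D cls)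
    ⟨s, by simpa using run_refl hs⟩
  simp only [Finset.mem_filter, Finset.mem_univ, true_and] at h1 h2
  exact ⟨s₀, h1, h2⟩

open Classical in
/-- the start of the run -/
noncomputable def st (D : Contour C α) (cls : C → Prop) (Z : Set (Sg D)) (s : Sg D) : Sg D :=
  if h : s ∈ Z then (exists_start (cls := cls) h).choose else s

lemma st_spec {Z : Set (Sg D)} {s : Sg D} (hs : s ∈ Z) : Run D cls Z (st D cls Z s) s ∧
    ∀ s₁, Run D cls Z s₁ s → kk D cls (st D cls Z s) ≤ kk D cls s₁ := by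
  unfold st
  rw [dif_pos hs]
  exact (exists_start hs).choose_spec

lemma st_mem {Z : Set (Sg D)} {s : Sg D} (hs : s ∈ Z) : st D cls Z s ∈ Z := by
  obtain ⟨⟨h1, h2, h3⟩, -⟩ := st_spec (cls := cls) hs
  exact h3 _ h1 le_rfl h2

lemma st_start {Z : Set (Sg D)} {s : Sg D} (hs : s ∈ Z) :
    Fst D cls (st D cls Z s) ∨ ∃ s₁, s₁ ∉ Z ∧ Nx D cls s₁ (st D cls Z s) := by
  by_cases h : Fst D cls (st D cls Z s)
  · exact Or.inl h
  · right
    obtain ⟨s₁, h1⟩ := exists_prev D cls h
    obtain ⟨⟨h2, h3, h4⟩, h5⟩ := st_spec (cls := cls) hs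
    refine ⟨s₁, fun h6 => ?_, h1⟩
    have h7 : ho D s₁ = ho D s := h1.1.symm.trans h2
    have h8 : Run D cls Z s₁ s := by
      refine ⟨h7, h1.2.1.le.trans h3, fun s' g1 g2 g3 => ?_⟩
      by_cases g4 : s' = s₁
      · rw [g4]
        exact h6
      · have g5 : kk D cls s₁ < kk D cls s' :=
          lt_of_le_of_ne g2 (fun g6 => g4 (kk_inj D cls (g1.trans h7.symm) g6.symm))
        exact h4 s' g1 (h1.2.2 s' (g1.trans h7.symm) g5) g3
    exact absurd (h5 s₁ h8) (not_le.2 h1.2.1)

lemma st_ho {Z : Set (Sg D)} {s : Sg D} (hs : s ∈ Z) : ho D (st D cls Z s) = ho D s :=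
  (st_spec hs).1.1

/-- between two segments of one run everything is in `Z` -/
lemma st_between {Z : Set (Sg D)} {s s' t : Sg D} (hs : s ∈ Z) (hs' : s' ∈ Z)
    (h : st D cls Z s = st D cls Z s') (ht : ho D t = ho D s)
    (h1 : kk D cls s ≤ kk D cls t ∨ kk D cls s' ≤ kk D cls t)
    (h2 : kk D cls t ≤ kk D cls s ∨ kk D cls t ≤ kk D cls s') : t ∈ Z := by
  obtain ⟨⟨g1, g2, g3⟩, -⟩ := st_spec (cls := cls) hs
  obtain ⟨⟨g4, g5, g6⟩, -⟩ := st_spec (cls := cls) hs'
  rw [← h] at g4 g5 g6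
  have h3 : kk D cls (st D cls Z s) ≤ kk D cls t := by
    rcases h1 with h1 | h1
    · exact g2.trans h1
    · exact g5.trans h1
  rcases h2 with h2 | h2
  · exact g3 t ht h3 h2
  · exact g6 t (ht.trans (g1.symm.trans g4)) h3 h2

/-- a segment between (in reading order) two segments of a run is in the run -/
lemma st_mid {Z : Set (Sg D)} {s s' t : Sg D} (hs : s ∈ Z) (hs' : s' ∈ Z)
    (h : st D cls Z s = st D cls Z s') (ht : ho D t = ho D s) (h1 : kk D cls s ≤ kk D cls t)
    (h2 : kk D cls t ≤ kk D cls s') : st D cls Z t = st D cls Z s := by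
  have htZ : t ∈ Z := st_between hs hs' h ht (Or.inl h1) (Or.inr h2)
  obtain ⟨⟨g1, g2, g3⟩, g7⟩ := st_spec (cls := cls) hs
  obtain ⟨⟨g4, g5, g6⟩, g8⟩ := st_spec (cls := cls) hs'
  obtain ⟨⟨g9, g10, g11⟩, g12⟩ := st_spec (cls := cls) htZ
  rw [← h] at g4 g5 g6 g8
  refine kk_inj D cls (g9.trans (ht.trans g1.symm)) (le_antisymm ?_ ?_)
  · refine g12 _ ⟨g1.trans ht.symm, g2.trans h1, fun s'' k1 k2 k3 => ?_⟩
    exact g6 s'' (k1.trans (ht.trans (g1.symm.trans g4))) k2 (k3.trans h2)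
  · refine g7 _ ⟨g9.trans ht, ?_, fun s'' k1 k2 k3 => ?_⟩
    · by_contra h5
      have h6 := not_le.1 h5
      have h7 : Run D cls Z (st D cls Z s) t := by
        refine ⟨g1.trans ht.symm, g2.trans h1, fun s'' k1 k2 k3 => ?_⟩
        exact g6 s'' (k1.trans (ht.trans (g1.symm.trans g4))) k2 (k3.trans h2)
      exact absurd (g12 _ h7) (not_le.2 (lt_of_le_of_lt g2 h6))
    · rcases le_or_gt (kk D cls s'') (kk D cls t) with h8 | h8
      · exact g11 s'' (k1.trans ht.symm) k2 h8
      · exact g3 s'' k1 ((g2.trans h1).trans h8.le) k3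

/-! ### Contour order -/

lemma slo_sp (p : α) : slo D (sp D p) = zr p := rfl
lemma shi_sp (p : α) : shi D (sp D p) = zr p := rfl
lemma ho_sp (p : α) : ho D (sp D p) = D.pt p := rfl
lemma slo_sc (c : C) (hc : c ≠ D.r) : slo D (sc D c hc) = zr (D.lo c) := rfl
lemma shi_sc (c : C) (hc : c ≠ D.r) : shi D (sc D c hc) = zr (D.hi c) := rfl
lemma ho_sc (c : C) (hc : c ≠ D.r) : ho D (sc D c hc) = D.par c := rfl

lemma seg_cases (s : Sg D) : (∃ p, s = sp D p) ∨ ∃ c, ∃ hc : c ≠ D.r, s = sc D c hc := by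
  rcases s with ⟨p | c, hs⟩
  · exact Or.inl ⟨p, rfl⟩
  · exact Or.inr ⟨c, fun h => hs (by rw [h]), rfl⟩

lemma seg_in (s : Sg D) : zr (D.lo (ho D s)) ≤ slo D s ∧ shi D s ≤ zr (D.hi (ho D s)) := by
  constructor
  · exact zr_le.2 (D.item_mem s.2 ⟨le_rfl, D.ile _⟩).1
  · exact zr_le.2 (D.item_mem s.2 ⟨D.ile _, le_rfl⟩).2

/-- every position of the interval of a circle is in a segment of the circle -/
lemma exists_cover {z : C} {p : α} (h1 : zr (D.lo z) ≤ zr p) (h2 : zr p ≤ zr (D.hi z)) :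
    ∃ s : Sg D, ho D s = z ∧ slo D s ≤ zr p ∧ zr p ≤ shi D s := by
  rcases (D.mem z p).1 ⟨zr_le.1 h1, zr_le.1 h2⟩ with h | ⟨c, hc, hcz, h3, h4⟩
  · exact ⟨sp D p, h, le_rfl, le_rfl⟩
  · exact ⟨sc D c hc, hcz, zr_le.2 h3, zr_le.2 h4⟩

lemma kk_pos {s : Sg D} (h : cls (ho D s)) : kk D cls s = slo D s := if_pos h
lemma kk_neg {s : Sg D} (h : ¬ cls (ho D s)) : kk D cls s = - slo D s := if_neg h

/-- no position between two consecutive segments -/
lemma no_between {s s' : Sg D} (h : Nx D cls s s') (p : α) :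
    (cls (ho D s) → shi D s < slo D s' ∧ ¬ (shi D s < zr p ∧ zr p < slo D s')) ∧
    (¬ cls (ho D s) → shi D s' < slo D s ∧ ¬ (shi D s' < zr p ∧ zr p < slo D s)) := by
  have hne : s ≠ s' := by
    rintro rfl
    exact lt_irrefl _ h.2.1
  have hd := seg_disj D h.1.symm hne
  have l1 := slo_le D s
  have l2 := slo_le D s'
  have i1 := seg_in s
  have i2 := seg_in s'
  rw [h.1] at i2
  constructor
  · intro hc
    have hc' : cls (ho D s') := by rw [h.1]; exact hc
    have h2 := h.2.1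
    rw [kk_pos hc, kk_pos hc'] at h2
    refine ⟨by omega, ?_⟩
    rintro ⟨h3, h4⟩
    obtain ⟨t, ht, g1, g2⟩ := exists_cover (D := D) (z := ho D s) (p := p) (by omega) (by omega)
    have hct : cls (ho D t) := by rw [ht]; exact hc
    have k1 : t ≠ s := by
      rintro rfl
      omega
    have k2 : t ≠ s' := by
      rintro rfl
      omega
    have d1 := seg_disj D ht k1
    have d2 := seg_disj D (ht.trans h.1.symm) k2
    have k3 := h.2.2 t ht (by rw [kk_pos hc, kk_pos hct]; omega)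
    rw [kk_pos hct, kk_pos hc'] at k3
    omega
  · intro hc
    have hc' : ¬ cls (ho D s') := by rw [h.1]; exact hc
    have h2 := h.2.1
    rw [kk_neg hc, kk_neg hc'] at h2
    refine ⟨by omega, ?_⟩
    rintro ⟨h3, h4⟩
    obtain ⟨t, ht, g1, g2⟩ := exists_cover (D := D) (z := ho D s) (p := p) (by omega) (by omega)
    have hct : ¬ cls (ho D t) := by rw [ht]; exact hc
    have k1 : t ≠ s := by
      rintro rfl
      omega
    have k2 : t ≠ s' := by
      rintro rfl
      omega
    have d1 := seg_disj D ht k1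
    have d2 := seg_disj D (ht.trans h.1.symm) k2
    have k3 := h.2.2 t ht (by rw [kk_neg hc, kk_neg hct]; omega)
    rw [kk_neg hct, kk_neg hc'] at k3
    omega

/-- the rightmost segment -/
lemma right_end {s : Sg D} (h : ∀ s', ho D s' = ho D s → slo D s' ≤ slo D s) :
    shi D s = zr (D.hi (ho D s)) := by
  obtain ⟨t, ht, g1, g2⟩ := exists_cover (D := D) (z := ho D s) (p := D.hi (ho D s))
    (zr_le.2 (D.le _)) le_rfl
  have i1 := seg_in s
  by_cases k1 : t = s
  · subst k1
    omega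
  · have d1 := seg_disj D ht k1
    have h1 := h t ht
    have l1 := slo_le D s
    omega

/-- the leftmost segment -/
lemma left_end {s : Sg D} (h : ∀ s', ho D s' = ho D s → slo D s ≤ slo D s') :
    slo D s = zr (D.lo (ho D s)) := by
  obtain ⟨t, ht, g1, g2⟩ := exists_cover (D := D) (z := ho D s) (p := D.lo (ho D s))
    le_rfl (zr_le.2 (D.le _))
  have i1 := seg_in s
  by_cases k1 : t = s
  · subst k1
    omega
  · have d1 := seg_disj D ht k1
    have h1 := h t ht
    have l1 := slo_le D s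
    omega

lemma lst_end {s : Sg D} (h : Lst D cls s) :
    (cls (ho D s) → shi D s = zr (D.hi (ho D s))) ∧
      (¬ cls (ho D s) → slo D s = zr (D.lo (ho D s))) := by
  constructor
  · intro hc
    refine right_end fun s' hs' => ?_
    have := h s' hs'
    rwa [kk_pos hc, kk_pos (by rw [hs']; exact hc)] at this
  · intro hc
    refine left_end fun s' hs' => ?_
    have := h s' hs'
    rw [kk_neg hc, kk_neg (by rw [hs']; exact hc)] at this
    omega

lemma fst_end {s : Sg D} (h : Fst D cls s) :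
    (cls (ho D s) → slo D s = zr (D.lo (ho D s))) ∧
      (¬ cls (ho D s) → shi D s = zr (D.hi (ho D s))) := by
  constructor
  · intro hc
    refine left_end fun s' hs' => ?_
    have := h s' hs'
    rwa [kk_pos hc, kk_pos (by rw [hs']; exact hc)] at this
  · intro hc
    refine right_end fun s' hs' => ?_
    have := h s' hs'
    rw [kk_neg hc, kk_neg (by rw [hs']; exact hc)] at this
    omega

/-- a child contains both or none of two positions of one circle -/
lemma sc_pair (c : C) {p q : α} (h : D.pt p = D.pt q) :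
    (zr (D.lo c) ≤ zr p ∧ zr p ≤ zr (D.hi c)) ↔ (zr (D.lo c) ≤ zr q ∧ zr q ≤ zr (D.hi c)) := by
  rw [zr_le, zr_le, zr_le, zr_le, D.mem_iff, D.mem_iff, h]

/-- circles do not cross -/
lemma pt_cross {p q p' q' : α} (h1 : p < q) (h2 : q < p') (h3 : p' < q')
    (h4 : D.pt p = D.pt p') (h5 : D.pt q = D.pt q') : D.pt p = D.pt q := by
  -- `q` is in the interval of the circle of `p`, hence a descendant
  have e1 : Relation.ReflTransGen D.Up (D.pt q) (D.pt p) := by
    rw [← D.mem_iff]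
    have g1 := D.pt_mem p
    have g2 := D.pt_mem p'
    rw [← h4] at g2
    exact ⟨g1.1.trans h1.le, h2.le.trans g2.2⟩
  have e2 : Relation.ReflTransGen D.Up (D.pt p') (D.pt q) := by
    rw [← D.mem_iff]
    have g1 := D.pt_mem q
    have g2 := D.pt_mem q'
    rw [← h5] at g2
    exact ⟨g1.1.trans h2.le, h3.le.trans g2.2⟩
  rw [← h4] at e2
  by_contra hne
  have key : ∀ {x z : C}, Relation.ReflTransGen D.Up x z → x ≠ z → D.dep z < D.dep x := by
    intro x z h hx
    induction h with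
    | refl => exact absurd rfl hx
    | @tail u v h1 h2 ih =>
      have h3 := D.dep_par _ h2.1
      rw [h2.2] at h3
      by_cases h4 : x = u
      · rw [h4]
        exact h3
      · exact h3.trans (ih h4)
  have k1 := key e1 (fun h => hne h.symm)
  have k2 := key e2 hne
  omega

end rn

end Pool.Agent.MP42.PC
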