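import Pool.Agent.MP42.U.Block
import Pool.Agent.MP42.PC.DigonA
import Pool.Agent.MP42.PC.Region

/-!
# Project MP42: the segments of the circles (owner helper43)

The items of the circles of a contour in reading order form a rooted tree: the parent of an item is
the next item of the circle, the parent of the last item of a circle is the item of its own link.
-/

set_option autoImplicit false
set_option linter.unusedSectionVars false

namespace Pool.Agent.MP42.PC

open Pool.Agent.MP42.U

section sg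

variable {C α J : Type*} [LinearOrder α] [Fintype C] [Fintype α] (D : Contour C α)
  (cls : C → Prop)

/-- the rank of a position -/
noncomputable def zr (p : α) : ℤ := rk Finset.univ p

lemma zr_lt {p q : α} : zr p < zr q ↔ p < q := rk_lt_iff (Finset.mem_univ _) (Finset.mem_univ _)

lemma zr_inj {p q : α} : zr p = zr q ↔ p = q :=
  ⟨fun h => rk_inj (Finset.mem_univ _) (Finset.mem_univ _) h, fun h => by rw [h]⟩

lemma zr_le {p q : α} : zr p ≤ zr q ↔ p ≤ q := by
  rw [← not_lt, zr_lt, not_lt]

/-- segments = items -/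
abbrev Sg := {i : α ⊕ C // i ≠ Sum.inr D.r}

/-- the segment of a position -/
def sp (p : α) : Sg D := ⟨Sum.inl p, by simp⟩

/-- the segment of a child -/
def sc (c : C) (hc : c ≠ D.r) : Sg D := ⟨Sum.inr c, fun h => hc (Sum.inr_injective h)⟩

/-- the circle of a segment -/
def ho (s : Sg D) : C := D.host s.1

/-- first position -/
noncomputable def slo (s : Sg D) : ℤ := zr (D.ilo s.1)

/-- last position -/
noncomputable def shi (s : Sg D) : ℤ := zr (D.ihi s.1)

lemma slo_le (s : Sg D) : slo D s ≤ shi D s := zr_le.2 (D.ile _)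

lemma seg_disj {s s' : Sg D} (h : ho D s = ho D s') (hne : s ≠ s') :
    shi D s < slo D s' ∨ shi D s' < slo D s := by
  rcases D.item_disj h s.2 s'.2 (fun h1 => hne (Subtype.ext h1)) with h1 | h1
  · exact Or.inl (zr_lt.2 h1)
  · exact Or.inr (zr_lt.2 h1)

open Classical in
/-- reading order -/
noncomputable def kk (s : Sg D) : ℤ := if cls (ho D s) then slo D s else - slo D s

lemma kk_ne {s s' : Sg D} (h : ho D s = ho D s') (hne : s ≠ s') : kk D cls s ≠ kk D cls s' := by
  have h1 := seg_disj D h hne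
  have h2 := slo_le D s
  have h3 := slo_le D s'
  unfold kk
  rw [h]
  split_ifs <;> omega

lemma kk_inj {s s' : Sg D} (h : ho D s = ho D s') (h1 : kk D cls s = kk D cls s') : s = s' := by
  by_contra h2
  exact kk_ne D cls h h2 h1

lemma exists_seg (z : C) : ∃ s : Sg D, ho D s = z := by
  rcases (D.mem z (D.lo z)).1 ⟨le_rfl, D.le z⟩ with h | ⟨c, hc, hcz, -⟩
  · exact ⟨sp D (D.lo z), h⟩
  · exact ⟨sc D c hc, hcz⟩

/-- the last segment of its circle -/
def Lst (s : Sg D) : Prop := ∀ s', ho D s' = ho D s → kk D cls s' ≤ kk D cls s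

/-- the first segment of its circle -/
def Fst (s : Sg D) : Prop := ∀ s', ho D s' = ho D s → kk D cls s ≤ kk D cls s'

/-- the next segment -/
def Nx (s s' : Sg D) : Prop := ho D s' = ho D s ∧ kk D cls s < kk D cls s' ∧
  ∀ s'', ho D s'' = ho D s → kk D cls s < kk D cls s'' → kk D cls s' ≤ kk D cls s''

lemma exists_lst (z : C) : ∃ s : Sg D, ho D s = z ∧ Lst D cls s := by
  classical
  obtain ⟨s0, h0⟩ := exists_seg D z
  obtain ⟨s, hs, hmax⟩ := Finset.exists_max_image
    (Finset.univ.filter fun s : Sg D => ho D s = z) (kk D cls) ⟨s0, by simpa using h0⟩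
  simp only [Finset.mem_filter, Finset.mem_univ, true_and] at hs hmax
  exact ⟨s, hs, fun s' h => hmax s' (h.trans hs)⟩

lemma exists_fst (z : C) : ∃ s : Sg D, ho D s = z ∧ Fst D cls s := by
  classical
  obtain ⟨s0, h0⟩ := exists_seg D z
  obtain ⟨s, hs, hmin⟩ := Finset.exists_min_image
    (Finset.univ.filter fun s : Sg D => ho D s = z) (kk D cls) ⟨s0, by simpa using h0⟩
  simp only [Finset.mem_filter, Finset.mem_univ, true_and] at hs hmin
  exact ⟨s, hs, fun s' h => hmin s' (h.trans hs)⟩

lemma exists_nx {s : Sg D} (h : ¬ Lst D cls s) : ∃ s', Nx D cls s s' := by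
  classical
  unfold Lst at h
  push Not at h
  obtain ⟨s0, h1, h2⟩ := h
  obtain ⟨s', hs, hmin⟩ := Finset.exists_min_image
    (Finset.univ.filter fun s' : Sg D => ho D s' = ho D s ∧ kk D cls s < kk D cls s') (kk D cls)
    ⟨s0, by simpa using ⟨h1, h2⟩⟩
  simp only [Finset.mem_filter, Finset.mem_univ, true_and] at hs hmin
  exact ⟨s', hs.1, hs.2, fun s'' h3 h4 => hmin s'' ⟨h3, h4⟩⟩

lemma exists_prev {s : Sg D} (h : ¬ Fst D cls s) : ∃ s', Nx D cls s' s := by
  classical
  unfold Fst at h
  push Not at h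
  obtain ⟨s0, h1, h2⟩ := h
  obtain ⟨s', hs, hmax⟩ := Finset.exists_max_image
    (Finset.univ.filter fun s' : Sg D => ho D s' = ho D s ∧ kk D cls s' < kk D cls s) (kk D cls)
    ⟨s0, by simpa using ⟨h1, h2⟩⟩
  simp only [Finset.mem_filter, Finset.mem_univ, true_and] at hs hmax
  refine ⟨s', hs.1.symm, hs.2, fun s'' h3 h4 => ?_⟩
  by_contra h5
  exact absurd (hmax s'' ⟨h3.trans hs.1, not_le.1 h5⟩) (not_le.2 h4)

variable {D cls}

lemma Nx.not_lst {s s' : Sg D} (h : Nx D cls s s') : ¬ Lst D cls s :=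
  fun h1 => absurd (h1 s' h.1) (not_le.2 h.2.1)

lemma Nx.not_fst {s s' : Sg D} (h : Nx D cls s s') : ¬ Fst D cls s' :=
  fun h1 => absurd (h1 s h.1.symm) (not_le.2 h.2.1)

lemma Nx.inj {s s' t : Sg D} (h : Nx D cls s t) (h' : Nx D cls s' t) : s = s' := by
  have h1 : ho D s = ho D s' := h.1.symm.trans h'.1
  rcases lt_trichotomy (kk D cls s) (kk D cls s') with h2 | h2 | h2
  · exact absurd (h.2.2 s' h1.symm h2) (not_le.2 h'.2.1)
  · exact kk_inj D cls h1 h2
  · exact absurd (h'.2.2 s h1 h2) (not_le.2 h.2.1)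

lemma Nx.uniq {s t t' : Sg D} (h : Nx D cls s t) (h' : Nx D cls s t') : t = t' :=
  kk_inj D cls (h.1.trans h'.1.symm)
    (le_antisymm (h.2.2 t' h'.1 h'.2.1) (h'.2.2 t h.1 h.2.1))

lemma Lst.uniq {s s' : Sg D} (h : Lst D cls s) (h' : Lst D cls s') (hh : ho D s = ho D s') :
    s = s' := kk_inj D cls hh (le_antisymm (h' s hh) (h s' hh.symm))

lemma Fst.uniq {s s' : Sg D} (h : Fst D cls s) (h' : Fst D cls s') (hh : ho D s = ho D s') :
    s = s' := kk_inj D cls hh (le_antisymm (h s' hh.symm) (h' s hh))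

variable (D cls)

open Classical in
/-- the parent segment -/
noncomputable def sPar (s : Sg D) : Sg D :=
  if h : ∃ s', Nx D cls s s' then h.choose else
    if h : ho D s ≠ D.r then sc D (ho D s) h else s

lemma sPar_nx {s s' : Sg D} (h : Nx D cls s s') : sPar D cls s = s' := by
  unfold sPar
  rw [dif_pos ⟨s', h⟩]
  exact (Exists.choose_spec (⟨s', h⟩ : ∃ s', Nx D cls s s')).uniq h

lemma sPar_lst {s : Sg D} (h : Lst D cls s) (hr : ho D s ≠ D.r) :
    sPar D cls s = sc D (ho D s) hr := by
  unfold sPar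
  rw [dif_neg (fun ⟨s', h1⟩ => h1.not_lst h), dif_pos hr]

/-- the root segment -/
noncomputable def rts : Sg D := (exists_lst D cls D.r).choose

lemma rts_spec : ho D (rts D cls) = D.r ∧ Lst D cls (rts D cls) :=
  (exists_lst D cls D.r).choose_spec

lemma eq_rts {s : Sg D} (h : Lst D cls s) (hr : ho D s = D.r) : s = rts D cls :=
  h.uniq (rts_spec D cls).2 (hr.trans (rts_spec D cls).1.symm)

open Classical in
/-- the depth of a segment -/
noncomputable def sDp (s : Sg D) : ℕ :=
  (Fintype.card (Sg D) + 1) * D.dep (ho D s) +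
    (Finset.univ.filter fun s' : Sg D => ho D s' = ho D s ∧ kk D cls s < kk D cls s').card

lemma sDp_lt {s : Sg D} (hs : s ≠ rts D cls) : sDp D cls (sPar D cls s) < sDp D cls s := by
  classical
  by_cases h : Lst D cls s
  · have hr : ho D s ≠ D.r := fun h1 => hs (eq_rts D cls h h1)
    rw [sPar_lst D cls h hr]
    have h1 : D.dep (D.par (ho D s)) < D.dep (ho D s) := D.dep_par _ hr
    have h2 : ho D (sc D (ho D s) hr) = D.par (ho D s) := rfl
    unfold sDp
    rw [h2]
    have h3 : (Finset.univ.filter fun s' : Sg D => ho D s' = D.par (ho D s) ∧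
        kk D cls (sc D (ho D s) hr) < kk D cls s').card ≤ Fintype.card (Sg D) :=
      Finset.card_le_univ _
    have h4 : D.dep (ho D s) = (D.dep (ho D s) - 1) + 1 := by omega
    have h5 : D.dep (D.par (ho D s)) ≤ D.dep (ho D s) - 1 := by omega
    have h6 := Nat.mul_le_mul_left (Fintype.card (Sg D) + 1) h5
    rw [h4, Nat.mul_add, Nat.mul_one]
    omega
  · obtain ⟨s', h1⟩ := exists_nx D cls h
    rw [sPar_nx D cls h1]
    unfold sDp
    rw [h1.1]
    refine Nat.add_lt_add_left (Finset.card_lt_card ?_) _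
    rw [Finset.ssubset_iff_of_subset]
    · refine ⟨s', ?_, ?_⟩
      · simp only [Finset.mem_filter, Finset.mem_univ, true_and]
        exact ⟨h1.1, h1.2.1⟩
      · simp only [Finset.mem_filter, Finset.mem_univ, true_and, lt_irrefl, and_false,
          not_false_eq_true]
    · intro x hx
      simp only [Finset.mem_filter, Finset.mem_univ, true_and] at hx ⊢
      exact ⟨hx.1, h1.2.1.trans hx.2⟩

open Classical in
/-- **the tree of the segments with the stars** -/
noncomputable def tsys (cp : C → ℕ) (y a b : J → α) : TSys (Sg D) J where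
  A j := sp D (a j)
  B j := sp D (b j)
  Yy j := sp D (y j)
  par := sPar D cls
  rt := rts D cls
  dp := sDp D cls
  dp_lt _ h := sDp_lt D cls h
  me s := if s = rts D cls then 0 else if Lst D cls s then 1 else 3
  md s := if Lst D cls s then 1 else 3
  bt s := if Fst D cls s then cp (ho D s) else 0
  me_rt := if_pos rfl
  me_or s h := by
    rw [if_neg h]
    by_cases h1 : Lst D cls s
    · exact Or.inl (if_pos h1)
    · exact Or.inr (if_neg h1)
  md_eq s h := by rw [if_neg h]
  md_rt := if_pos (rts_spec D cls).2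

end sg

end Pool.Agent.MP42.PC
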