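import Pool.Agent.MP42.PC.Load

/-!
# Project MP42: parity of the subtrees, the loads (owner helper43)
-/

set_option autoImplicit false
set_option linter.unusedSectionVars false

namespace Pool.Agent.MP42.PC

open Pool.Agent.MP42.U

section ld

variable {C α J : Type*} [LinearOrder α] [Fintype C] [Fintype α] [Fintype J] {D : Contour C α}
  {cls : C → Prop} {cp : C → ℕ} {y a b : J → α} (Q : Plc D cls cp y a b)

namespace Plc

/-- the circle of the segment is in the subtree of `c` -/
def Tm (D : Contour C α) (c : C) (s : Sg D) : Prop := Relation.ReflTransGen D.Up (ho D s) c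

/-- the last segment of a circle -/
noncomputable def lst (D : Contour C α) (cls : C → Prop) (c : C) : Sg D :=
  (exists_lst D cls c).choose

lemma lst_spec (c : C) : ho D (lst D cls c) = c ∧ Lst D cls (lst D cls c) :=
  (exists_lst D cls c).choose_spec

lemma tm_par {c : C} {s : Sg D} (h : Tm D c s) (hs : s ≠ lst D cls c) :
    Tm D c (sPar D cls s) := by
  by_cases h1 : Lst D cls s
  · by_cases hr : ho D s = D.r
    · have : sPar D cls s = s := by
        unfold sPar
        rw [dif_neg (fun ⟨s', h2⟩ => h2.not_lst h1), dif_neg (fun h2 => h2 hr)]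
      rw [this]
      exact h
    · rw [sPar_lst D cls h1 hr]
      unfold Tm at h ⊢
      rcases Relation.ReflTransGen.cases_head h with h2 | ⟨z, h2, h3⟩
      · exfalso
        exact hs (h1.uniq (lst_spec c).2 (h2.trans (lst_spec (D := D) (cls := cls) c).1.symm))
      · have : ho D (sc D (ho D s) hr) = z := h2.2
        rw [this]
        exact h3
  · obtain ⟨s', h2⟩ := exists_nx D cls h1
    rw [sPar_nx D cls h2]
    unfold Tm at h ⊢
    rw [h2.1]
    exact h

lemma tm_of_par {c : C} {s : Sg D} (h : Tm D c (sPar D cls s)) : Tm D c s := by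
  by_cases h1 : Lst D cls s
  · by_cases hr : ho D s = D.r
    · have : sPar D cls s = s := by
        unfold sPar
        rw [dif_neg (fun ⟨s', h2⟩ => h2.not_lst h1), dif_neg (fun h2 => h2 hr)]
      rw [this] at h
      exact h
    · rw [sPar_lst D cls h1 hr] at h
      unfold Tm at h ⊢
      exact Relation.ReflTransGen.head ⟨hr, rfl⟩ h
  · obtain ⟨s', h2⟩ := exists_nx D cls h1
    rw [sPar_nx D cls h2] at h
    unfold Tm at h ⊢
    rw [h2.1] at h
    exact h

lemma dep_le {x z : C} (h : Relation.ReflTransGen D.Up x z) : D.dep z ≤ D.dep x := by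
  induction h with
  | refl => exact le_rfl
  | tail _ h ih =>
    have := D.dep_par _ h.1
    rw [h.2] at this
    omega

lemma not_tm_par {c : C} (hc : c ≠ D.r) : ¬ Tm D c (sc D c hc) := by
  intro h
  have h1 := dep_le h
  have h2 := D.dep_par c hc
  have h3 : ho D (sc D c hc) = D.par c := rfl
  rw [h3] at h1
  omega

open Classical in
/-- **the own link of `c` is given to the parent iff the subtree has an odd number of letters** -/
lemma up_parity {c : C} (hc : c ≠ D.r)
    (hcp : ∀ z, Relation.ReflTransGen D.Up z c → Even (cp z)) :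
    (((Finset.univ.filter fun j => Tm D c (Q.c (Q.W.iX j))).card +
      (Finset.univ.filter fun j => Tm D c (sp D (y j))).card : ℕ) : ZMod 2) =
      ((Q.up (lst D cls c) : ℕ) : ZMod 2) := by
  have hl := lst_spec (D := D) (cls := cls) c
  have hlr : lst D cls c ≠ rts D cls := by
    intro h
    rw [h, (rts_spec D cls).1] at hl
    exact hc hl.1.symm
  -- the number of items in the subtree is even
  have h0 : ((∑ s ∈ Finset.univ.filter (fun s => Tm D c s), Nat.card {v // Q.c v = s} : ℕ) :
      ZMod 2) = 0 := by
    rw [Nat.cast_sum]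
    exact Finset.sum_eq_zero fun s _ => ZMod.natCast_eq_zero_iff_even.2 (Q.ev s)
  have h1 : (∑ s ∈ Finset.univ.filter (fun s => Tm D c s), Nat.card {v // Q.c v = s}) =
      (Finset.univ.filter fun v => Tm D c (Q.c v)).card := by
    rw [Finset.card_eq_sum_card_fiberwise (s := Finset.univ.filter fun v => Tm D c (Q.c v))
      (t := Finset.univ.filter (fun s => Tm D c s)) (f := Q.c)]
    · refine Finset.sum_congr rfl fun s hs => ?_
      rw [Nat.card_eq_fintype_card, Fintype.card_subtype]
      congr 1
      ext v
      simp only [Finset.mem_filter, Finset.mem_univ, true_and]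
      constructor
      · rintro rfl
        exact ⟨(Finset.mem_filter.1 hs).2, rfl⟩
      · exact fun h => h.2
    · intro v hv
      simp only [Finset.coe_filter, Finset.mem_univ, true_and, Set.mem_ofPred_eq] at hv ⊢
      exact hv
  rw [h1, Q.W.card_items (fun v => Tm D c (Q.c v))] at h0
  have hE : ∀ s, (((Finset.univ.filter fun n => Tm D c (Q.c (Q.W.iE s n))).card : ℕ) : ZMod 2) =
      ((if Tm D c s then (if s = lst D cls c then Q.stay s else Q.W.me s) else 0 : ℕ) :
        ZMod 2) := by
    intro s
    congr 1
    by_cases h2 : Tm D c s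
    · rw [if_pos h2]
      by_cases h3 : s = lst D cls c
      · rw [if_pos h3]
        unfold stay
        congr 1
        ext n
        simp only [Finset.mem_filter, Finset.mem_univ, true_and]
        constructor
        · intro h4
          rcases Q.at_c (Q.W.iE s n) with h5 | h5
          · exact h5
          · exfalso
            rw [h5] at h4
            have h6 : sPar D cls s = sc D c hc := by
              have h7 : Lst D cls s := by rw [h3]; exact hl.2
              have h8 : ho D s = c := by rw [h3]; exact hl.1
              have h9 : ho D s ≠ D.r := by rw [h8]; exact hc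
              rw [sPar_lst D cls h7 h9]
              subst h8
              rfl
            have h7 : Tm D c (sPar D cls s) := h4
            rw [h6] at h7
            exact not_tm_par hc h7
        · intro h4
          rw [h4]
          exact h2
      · rw [if_neg h3, Finset.filter_true_of_mem, Finset.card_univ, Fintype.card_fin]
        intro n _
        rcases Q.at_c (Q.W.iE s n) with h5 | h5
        · rw [h5]
          exact h2
        · rw [h5]
          exact tm_par h2 h3
    · rw [if_neg h2, Finset.filter_false_of_mem, Finset.card_empty]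
      intro n _ h4
      rcases Q.at_c (Q.W.iE s n) with h5 | h5
      · rw [h5] at h4
        exact h2 h4
      · rw [h5] at h4
        exact h2 (tm_of_par h4)
  have hDd : ∀ s, (Finset.univ.filter fun n => Tm D c (Q.c (Q.W.iD s n))).card =
      if Tm D c s then Q.W.md s else 0 := by
    intro s
    simp only [Q.cD]
    split_ifs with h2
    · rw [Finset.filter_true_of_mem (fun _ _ => h2), Finset.card_univ, Fintype.card_fin]
    · rw [Finset.filter_false_of_mem (fun _ _ => h2), Finset.card_empty]
  have hB : ∀ s, (Finset.univ.filter fun n => Tm D c (Q.c (Q.W.iB s n))).card =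
      if Tm D c s then Q.W.bt s else 0 := by
    intro s
    simp only [Q.cB]
    split_ifs with h2
    · rw [Finset.filter_true_of_mem (fun _ _ => h2), Finset.card_univ, Fintype.card_fin]
    · rw [Finset.filter_false_of_mem (fun _ _ => h2), Finset.card_empty]
  have hroot : ∀ s, Tm D c s → ho D s ≠ D.r := by
    intro s h2 h3
    unfold Tm at h2
    rw [h3] at h2
    rcases Relation.ReflTransGen.cases_head h2 with h4 | ⟨z, h4, -⟩
    · exact hc h4.symm
    · exact h4.1 rfl
  have hsum : (((∑ s, (Finset.univ.filter fun n => Tm D c (Q.c (Q.W.iE s n))).card) +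
      ((∑ s, (Finset.univ.filter fun n => Tm D c (Q.c (Q.W.iD s n))).card) +
      ∑ s, (Finset.univ.filter fun n => Tm D c (Q.c (Q.W.iB s n))).card) : ℕ) : ZMod 2) =
      ((Q.up (lst D cls c) : ℕ) : ZMod 2) := by
    rw [← Finset.sum_add_distrib, ← Finset.sum_add_distrib, Nat.cast_sum,
      Finset.sum_eq_single (lst D cls c)]
    · have h2 : Tm D c (lst D cls c) := by
        unfold Tm
        rw [hl.1]
      push_cast
      rw [hE, hDd, hB, if_pos h2, if_pos rfl, if_pos h2, if_pos h2]
      have h3 := Q.up_stay hlr
      have h4 : Q.W.me (lst D cls c) = 1 := by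
        show (if lst D cls c = rts D cls then 0 else if Lst D cls (lst D cls c) then 1 else 3) = 1
        rw [if_neg hlr, if_pos hl.2]
      have h5 : Q.W.md (lst D cls c) = 1 := by
        rw [Q.W.md_eq _ hlr, h4]
      have h6 : Even (Q.W.bt (lst D cls c)) := by
        show Even (if Fst D cls (lst D cls c) then cp (ho D (lst D cls c)) else 0)
        rw [hl.1]
        split_ifs
        · exact hcp c Relation.ReflTransGen.refl
        · exact ⟨0, rfl⟩
      have h7 : ((Q.W.bt (lst D cls c) : ℕ) : ZMod 2) = 0 := ZMod.natCast_eq_zero_iff_even.2 h6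
      rw [h5, h7]
      rw [h4] at h3
      have h8 : Q.up (lst D cls c) = 0 ∨ Q.up (lst D cls c) = 1 := by omega
      rcases h8 with h8 | h8
      · have h9 : Q.stay (lst D cls c) = 1 := by omega
        rw [h8, h9]
        decide
      · have h9 : Q.stay (lst D cls c) = 0 := by omega
        rw [h8, h9]
        decide
    · intro s _ h2
      push_cast
      rw [hE, hDd, hB]
      by_cases h3 : Tm D c s
      · rw [if_pos h3, if_neg h2, if_pos h3, if_pos h3]
        have h4 : s ≠ rts D cls := by
          rintro rfl
          exact hroot _ h3 (rts_spec D cls).1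
        have h5 := Q.W.md_eq s h4
        have h6 : Even (Q.W.bt s) := by
          show Even (if Fst D cls s then cp (ho D s) else 0)
          split_ifs
          · exact hcp _ h3
          · exact ⟨0, rfl⟩
        have h7 : ((Q.W.bt s : ℕ) : ZMod 2) = 0 := ZMod.natCast_eq_zero_iff_even.2 h6
        rw [h5, h7]
        have h8 : ∀ t : ZMod 2, t + (t + 0) = 0 := by decide
        exact h8 _
      · rw [if_neg h3, if_neg h3, if_neg h3]
        simp
    · intro h2
      exact absurd (Finset.mem_univ _) h2
  rw [Nat.cast_add, hsum] at h0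
  have h7 : ∀ u v : ZMod 2, u + v = 0 → u = v := by decide
  have h8 := h7 _ _ h0
  have h9 : (Finset.univ.filter fun j => Tm D c (Q.c (Q.W.iY j))) =
      Finset.univ.filter fun j => Tm D c (sp D (y j)) := by
    ext j
    simp only [Finset.mem_filter, Finset.mem_univ, true_and, Q.cY]
  rw [h9] at h8
  exact h8

lemma od_sc {c : C} (hc : c ≠ D.r) : Q.od (sc D c hc) = Q.up (lst D cls c) := by
  classical
  have hl := lst_spec (D := D) (cls := cls) c
  have hlr : lst D cls c ≠ rts D cls := by
    intro h
    rw [h, (rts_spec D cls).1] at hl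
    exact hc hl.1.symm
  unfold od
  rw [Finset.sum_eq_single (lst D cls c)]
  · rw [if_pos]
    refine ⟨hl.2, hlr, ?_⟩
    have h9 : ho D (lst D cls c) ≠ D.r := by rw [hl.1]; exact hc
    rw [sPar_lst D cls hl.2 h9]
    apply Subtype.ext
    show (Sum.inr (ho D (lst D cls c)) : α ⊕ C) = Sum.inr c
    rw [hl.1]
  · intro s0 _ h1
    rw [if_neg]
    rintro ⟨h2, h3, h4⟩
    have h5 : ho D s0 ≠ D.r := fun h6 => h3 (eq_rts D cls h2 h6)
    rw [sPar_lst D cls h2 h5] at h4
    have h6 : (Sum.inr (ho D s0) : α ⊕ C) = Sum.inr c := congrArg Subtype.val h4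
    exact h1 (h2.uniq hl.2 ((Sum.inr_injective h6).trans hl.1.symm))
  · intro h1
    exact absurd (Finset.mem_univ _) h1

lemma od_sp (p : α) : Q.od (sp D p) = 0 := by
  classical
  unfold od
  refine Finset.sum_eq_zero fun s0 _ => ?_
  rw [if_neg]
  rintro ⟨h2, h3, h4⟩
  have h5 : ho D s0 ≠ D.r := fun h6 => h3 (eq_rts D cls h2 h6)
  rw [sPar_lst D cls h2 h5] at h4
  have h6 : (Sum.inr (ho D s0) : α ⊕ C) = Sum.inl p := congrArg Subtype.val h4
  simp at h6

lemma up_lst_le {c : C} (hc : c ≠ D.r) : Q.up (lst D cls c) ≤ 1 := by
  have hl := lst_spec (D := D) (cls := cls) c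
  have hlr : lst D cls c ≠ rts D cls := by
    intro h
    rw [h, (rts_spec D cls).1] at hl
    exact hc hl.1.symm
  have h3 := Q.up_stay hlr
  have h4 : Q.W.me (lst D cls c) = 1 := by
    classical
    show (if lst D cls c = rts D cls then 0 else if Lst D cls (lst D cls c) then 1 else 3) = 1
    rw [if_neg hlr, if_pos hl.2]
  omega

end Plc

end ld

end Pool.Agent.MP42.PC
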