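import Pool.Agent.MP42.PC.LSys

/-!
# Project MP42: stars on a rooted tree of locations (owner helper43)

Items: a star `j` has a demand (at `A j` or `B j`) and a unit (at `Yy j`); every location `s` has `me s`
units which may be given to the parent, `md s` demands and `bt s` units. `TSys.ineq`: the inequality of
a Tutte violator.
-/

set_option autoImplicit false
set_option linter.unusedSectionVars false

namespace Pool.Agent.MP42.PC

/-- stars on a rooted tree -/
structure TSys (S J : Type*) where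
  A : J → S
  B : J → S
  Yy : J → S
  par : S → S
  rt : S
  dp : S → ℕ
  dp_lt : ∀ s, s ≠ rt → dp (par s) < dp s
  me : S → ℕ
  md : S → ℕ
  bt : S → ℕ
  me_rt : me rt = 0
  me_or : ∀ s, s ≠ rt → me s = 1 ∨ me s = 3
  md_eq : ∀ s, s ≠ rt → md s = me s
  md_rt : md rt = 1

namespace TSys

variable {S J : Type*} (W : TSys S J)

/-- the items -/
abbrev It : Type _ :=
  (J ⊕ J) ⊕ ((Σ s, Fin (W.me s)) ⊕ ((Σ s, Fin (W.md s)) ⊕ (Σ s, Fin (W.bt s))))

abbrev iX (j : J) : W.It := .inl (.inl j)
abbrev iY (j : J) : W.It := .inl (.inr j)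
abbrev iE (s : S) (n : Fin (W.me s)) : W.It := .inr (.inl ⟨s, n⟩)
abbrev iD (s : S) (n : Fin (W.md s)) : W.It := .inr (.inr (.inl ⟨s, n⟩))
abbrev iB (s : S) (n : Fin (W.bt s)) : W.It := .inr (.inr (.inr ⟨s, n⟩))

/-- the location system -/
def sys : LSys W.It S where
  L := Sum.elim (Sum.elim W.A W.Yy)
    (Sum.elim (fun e => e.1) (Sum.elim (fun e => e.1) (fun e => e.1)))
  R := Sum.elim (Sum.elim W.B W.Yy)
    (Sum.elim (fun e => W.par e.1) (Sum.elim (fun e => e.1) (fun e => e.1)))
  dem := Sum.elim (Sum.elim (fun _ => True) (fun _ => False))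
    (Sum.elim (fun _ => False) (Sum.elim (fun _ => True) (fun _ => False)))

lemma at_X {j : J} {s : S} : W.sys.At (W.iX j) s ↔ s = W.A j ∨ s = W.B j := Iff.rfl
lemma at_Y {j : J} {s : S} : W.sys.At (W.iY j) s ↔ s = W.Yy j := or_self_iff
lemma at_E {s' : S} {n : Fin (W.me s')} {s : S} :
    W.sys.At (W.iE s' n) s ↔ s = s' ∨ s = W.par s' := Iff.rfl
lemma at_D {s' : S} {n : Fin (W.md s')} {s : S} : W.sys.At (W.iD s' n) s ↔ s = s' := or_self_iff
lemma at_B {s' : S} {n : Fin (W.bt s')} {s : S} : W.sys.At (W.iB s' n) s ↔ s = s' := or_self_iff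
lemma dem_X {j : J} : W.sys.dem (W.iX j) := trivial
lemma dem_Y {j : J} : ¬ W.sys.dem (W.iY j) := id
lemma dem_E {s' : S} {n : Fin (W.me s')} : ¬ W.sys.dem (W.iE s' n) := id
lemma dem_D {s' : S} {n : Fin (W.md s')} : W.sys.dem (W.iD s' n) := trivial
lemma dem_B {s' : S} {n : Fin (W.bt s')} : ¬ W.sys.dem (W.iB s' n) := id

variable (T : Set W.It)

/-- the top of a part of the tree -/
def tp (s : S) : Prop := ∀ n, W.iE s n ∈ T

/-- an exceptional location -/
def bad (s : S) : Prop := s ∉ W.sys.Z T ∧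
  ((∃ n, W.iD s n ∈ T) ∨ (∃ n, W.iB s n ∈ T) ∨ ((∃ n, W.iE s n ∈ T) ∧ ∃ n, W.iE s n ∉ T))

/-- the tree without `T` -/
def tops : Tops W.sys T (W.tp T) where
  par := W.par
  dp := W.dp
  lt s _ h := by
    refine W.dp_lt s ?_
    rintro rfl
    apply h
    intro n
    have h1 := n.2
    have h2 := W.me_rt
    omega
  co s _ h := by
    unfold tp at h
    push Not at h
    obtain ⟨n, hn⟩ := h
    exact ⟨W.iE s n, hn, W.dem_E, Or.inl rfl, Or.inr rfl⟩

open Classical in
/-- the inequality at one location -/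
lemma term (s : S) :
    (Finset.univ.filter fun n => W.iD s n ∉ T ∧ s ∈ W.sys.Z T).card +
      (if s ∉ W.sys.Z T ∧ W.tp T s then 1 else 0) + (if s ∈ W.sys.Z T then W.bt s else 0) +
      2 * (if s ∉ W.sys.Z T ∧ W.par s ∈ W.sys.Z T ∧ W.me s = 3 then 1 else 0) +
      (if W.bad T s then 1 else 0) ≤
    (Finset.univ.filter fun n => W.iE s n ∈ T).card + (Finset.univ.filter fun n => W.iD s n ∈ T).card
      + (Finset.univ.filter fun n => W.iB s n ∈ T).card + (if s = W.rt then 1 else 0) := by
  by_cases hZ : s ∈ W.sys.Z T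
  · have hE : ∀ n, W.iE s n ∈ T := fun n => hZ _ W.dem_E (Or.inl rfl)
    have hB : ∀ n, W.iB s n ∈ T := fun n => hZ _ W.dem_B (Or.inl rfl)
    have h1 : (Finset.univ.filter fun n => W.iE s n ∈ T).card = W.me s := by
      rw [Finset.filter_true_of_mem (fun n _ => hE n), Finset.card_univ, Fintype.card_fin]
    have h2 : (Finset.univ.filter fun n => W.iB s n ∈ T).card = W.bt s := by
      rw [Finset.filter_true_of_mem (fun n _ => hB n), Finset.card_univ, Fintype.card_fin]
    have h3 : (Finset.univ.filter fun n => W.iD s n ∉ T ∧ s ∈ W.sys.Z T).card ≤ W.md s := by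
      refine (Finset.card_le_univ _).trans ?_
      rw [Fintype.card_fin]
    have h4 : ¬ W.bad T s := fun h => h.1 hZ
    rw [if_neg (fun h => h.1 hZ), if_pos hZ, if_neg (fun h => h.1 hZ), if_neg h4, h1, h2]
    by_cases hr : s = W.rt
    · rw [if_pos hr]
      have h5 : W.md s = 1 := by rw [hr, W.md_rt]
      omega
    · have h5 := W.md_eq s hr
      omega
  · have h0 : (Finset.univ.filter fun n => W.iD s n ∉ T ∧ s ∈ W.sys.Z T) = ∅ :=
      Finset.filter_false_of_mem (fun n _ h => hZ h.2)
    rw [h0, Finset.card_empty, if_neg hZ]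
    by_cases ht : W.tp T s
    · have h1 : (Finset.univ.filter fun n => W.iE s n ∈ T).card = W.me s := by
        rw [Finset.filter_true_of_mem (fun n _ => ht n), Finset.card_univ, Fintype.card_fin]
      have h2 : (if W.bad T s then 1 else 0) ≤ (Finset.univ.filter fun n => W.iD s n ∈ T).card
          + (Finset.univ.filter fun n => W.iB s n ∈ T).card := by
        split_ifs with hb
        · obtain ⟨-, ⟨n, hn⟩ | ⟨n, hn⟩ | ⟨-, n, hn⟩⟩ := hb
          · have : 0 < (Finset.univ.filter fun n => W.iD s n ∈ T).card :=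
              Finset.card_pos.2 ⟨n, by simpa using hn⟩
            omega
          · have : 0 < (Finset.univ.filter fun n => W.iB s n ∈ T).card :=
              Finset.card_pos.2 ⟨n, by simpa using hn⟩
            omega
          · exact absurd (ht n) hn
        · exact Nat.zero_le _
      rw [if_pos ⟨hZ, ht⟩, h1]
      by_cases hr : s = W.rt
      · have h3 : W.me s = 0 := by rw [hr, W.me_rt]
        rw [if_pos hr, if_neg (fun h => by rw [h3] at h; exact absurd h.2.2 (by norm_num))]
        omega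
      · rcases W.me_or s hr with h3 | h3
        · rw [if_neg (fun h => by rw [h3] at h; exact absurd h.2.2 (by norm_num))]
          omega
        · split_ifs at h2 ⊢ <;> omega
    · have hp : W.par s ∉ W.sys.Z T := by
        intro h
        apply ht
        intro n
        exact h _ W.dem_E (Or.inr rfl)
      rw [if_neg (fun h => ht h.2), if_neg (fun h => hp h.2.1)]
      have h2 : (if W.bad T s then 1 else 0) ≤ (Finset.univ.filter fun n => W.iE s n ∈ T).card
          + (Finset.univ.filter fun n => W.iD s n ∈ T).card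
          + (Finset.univ.filter fun n => W.iB s n ∈ T).card := by
        split_ifs with hb
        · obtain ⟨-, ⟨n, hn⟩ | ⟨n, hn⟩ | ⟨⟨n, hn⟩, -⟩⟩ := hb
          · have : 0 < (Finset.univ.filter fun n => W.iD s n ∈ T).card :=
              Finset.card_pos.2 ⟨n, by simpa using hn⟩
            omega
          · have : 0 < (Finset.univ.filter fun n => W.iB s n ∈ T).card :=
              Finset.card_pos.2 ⟨n, by simpa using hn⟩
            omega
          · have : 0 < (Finset.univ.filter fun n => W.iE s n ∈ T).card :=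
              Finset.card_pos.2 ⟨n, by simpa using hn⟩
            omega
        · exact Nat.zero_le _
      omega

/-- cardinality of a set of items -/
lemma card_items [Fintype S] [Fintype J] (p : W.It → Prop) [DecidablePred p] :
    (Finset.univ.filter p).card = (Finset.univ.filter fun j => p (W.iX j)).card +
      (Finset.univ.filter fun j => p (W.iY j)).card +
      ((∑ s, (Finset.univ.filter fun n => p (W.iE s n)).card) +
      ((∑ s, (Finset.univ.filter fun n => p (W.iD s n)).card) +
      ∑ s, (Finset.univ.filter fun n => p (W.iB s n)).card)) := by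
  simp only [Finset.card_filter, Fintype.sum_sum_type, Fintype.sum_sigma]

open Classical in
/-- **the inequality of a violator** -/
theorem ineq [Fintype S] [Fintype J] (hev : Even (Fintype.card W.It))
    (hT : T.ncard < (W.sys.H T).oddComponents.ncard) :
    ∃ U : Finset S, (∀ t (ht : t ∉ W.sys.Z T), W.tp T t → t ∉ U →
        Odd (W.sys.gm T t ht).supp.ncard ∧
        ∀ t' (ht' : t' ∉ W.sys.Z T), W.tp T t' → t' ∉ U →
          W.sys.gm T t ht = W.sys.gm T t' ht' → t = t') ∧
      2 + (∑ s, if s ∈ W.sys.Z T then W.bt s else 0) +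
        2 * (Finset.univ.filter fun s => s ∉ W.sys.Z T ∧ W.par s ∈ W.sys.Z T ∧ W.me s = 3).card +
        (Finset.univ.filter fun s => W.bad T s).card +
        (Finset.univ.filter fun j => W.iX j ∈ T).card +
        (Finset.univ.filter fun j => W.iY j ∈ T).card + U.card ≤
      (Finset.univ.filter fun j => W.iX j ∉ T ∧ W.A j ∈ W.sys.Z T ∧ W.B j ∈ W.sys.Z T).card + 1 := by
  have : Nonempty S := ⟨W.rt⟩
  obtain ⟨U, hUs, hU1, hU2⟩ := (W.tops T).count
  refine ⟨U, hU2, ?_⟩
  have hpar : T.ncard + 2 ≤ (W.sys.H T).oddComponents.ncard := by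
    have h1 := SimpleGraph.odd_ncard_oddComponents (G := W.sys.H T)
    have h2 : Nat.card (((⊤ : W.sys.G.Subgraph).deleteVerts T).verts) + T.ncard =
        Fintype.card W.It := by
      have h3 : ((⊤ : W.sys.G.Subgraph).deleteVerts T).verts = Tᶜ := by
        ext v
        rw [W.sys.mem_verts]
        rfl
      rw [h3, Nat.card_coe_set_eq, add_comm, Set.ncard_add_ncard_compl, Nat.card_eq_fintype_card]
    by_contra h4
    have h5 : (W.sys.H T).oddComponents.ncard = T.ncard + 1 := by omega
    rw [h5] at h1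
    rw [← h2] at hev
    rcases Nat.even_or_odd T.ncard with h6 | h6
    · have h7 := h1.1 h6.add_one
      exact Nat.not_odd_iff_even.2 hev (h7.add_even h6)
    · have h7 : ¬ Odd (T.ncard + 1) := Nat.not_odd_iff_even.2 h6.add_one
      have h8 := mt h1.2 h7
      rw [Nat.not_odd_iff_even] at h8
      exact Nat.not_odd_iff_even.2 hev (h8.add_odd h6)
  have hTc : T.ncard = (Finset.univ.filter fun v => v ∈ T).card := by
    rw [← Set.ncard_coe_finset]
    congr 1
    ext v
    simp
  have e1 := W.card_items (fun v => v ∈ T)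
  have e2 := W.card_items (fun v => v ∉ T ∧ W.sys.dem v ∧ ∀ s, W.sys.At v s → s ∈ W.sys.Z T)
  have x1 : (Finset.univ.filter fun j => W.iX j ∉ T ∧ W.sys.dem (W.iX j) ∧
      ∀ s, W.sys.At (W.iX j) s → s ∈ W.sys.Z T) =
      Finset.univ.filter fun j => W.iX j ∉ T ∧ W.A j ∈ W.sys.Z T ∧ W.B j ∈ W.sys.Z T := by
    ext j
    simp only [Finset.mem_filter, Finset.mem_univ, true_and]
    constructor
    · rintro ⟨h1, -, h2⟩
      exact ⟨h1, h2 _ (Or.inl rfl), h2 _ (Or.inr rfl)⟩
    · rintro ⟨h1, h2, h3⟩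
      refine ⟨h1, W.dem_X, ?_⟩
      rintro s (rfl | rfl)
      · exact h2
      · exact h3
  have x2 : (Finset.univ.filter fun j => W.iY j ∉ T ∧ W.sys.dem (W.iY j) ∧
      ∀ s, W.sys.At (W.iY j) s → s ∈ W.sys.Z T) = ∅ :=
    Finset.filter_false_of_mem (fun j _ h => W.dem_Y h.2.1)
  have x3 : ∀ s, (Finset.univ.filter fun n => W.iE s n ∉ T ∧ W.sys.dem (W.iE s n) ∧
      ∀ s', W.sys.At (W.iE s n) s' → s' ∈ W.sys.Z T) = ∅ := fun s =>
    Finset.filter_false_of_mem (fun j _ h => W.dem_E h.2.1)
  have x5 : ∀ s, (Finset.univ.filter fun n => W.iB s n ∉ T ∧ W.sys.dem (W.iB s n) ∧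
      ∀ s', W.sys.At (W.iB s n) s' → s' ∈ W.sys.Z T) = ∅ := fun s =>
    Finset.filter_false_of_mem (fun j _ h => W.dem_B h.2.1)
  have x4 : ∀ s, (Finset.univ.filter fun n => W.iD s n ∉ T ∧ W.sys.dem (W.iD s n) ∧
      ∀ s', W.sys.At (W.iD s n) s' → s' ∈ W.sys.Z T) =
      Finset.univ.filter fun n => W.iD s n ∉ T ∧ s ∈ W.sys.Z T := by
    intro s
    ext n
    simp only [Finset.mem_filter, Finset.mem_univ, true_and]
    constructor
    · rintro ⟨h1, -, h2⟩
      exact ⟨h1, h2 _ (Or.inl rfl)⟩
    · rintro ⟨h1, h2⟩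
      refine ⟨h1, W.dem_D, ?_⟩
      rintro s' (rfl | rfl)
      · exact h2
      · exact h2
  rw [x1, x2, Finset.sum_congr rfl (fun s _ => by rw [x3 s]),
    Finset.sum_congr (f := fun s => (Finset.univ.filter fun n => W.iB s n ∉ T ∧
      W.sys.dem (W.iB s n) ∧ ∀ s', W.sys.At (W.iB s n) s' → s' ∈ W.sys.Z T).card) rfl
      (fun s _ => by rw [x5 s]),
    Finset.sum_congr (f := fun s => (Finset.univ.filter fun n => W.iD s n ∉ T ∧
      W.sys.dem (W.iD s n) ∧ ∀ s', W.sys.At (W.iD s n) s' → s' ∈ W.sys.Z T).card) rfl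
      (fun s _ => by rw [x4 s])] at e2
  simp only [Finset.card_empty, Finset.sum_const_zero, add_zero, zero_add] at e2
  have e3 : (Finset.univ.filter fun s => s ∉ W.sys.Z T ∧ W.tp T s).card =
      ∑ s, if s ∉ W.sys.Z T ∧ W.tp T s then 1 else 0 := Finset.card_filter _ _
  have e4 : (Finset.univ.filter fun s => s ∉ W.sys.Z T ∧ W.par s ∈ W.sys.Z T ∧ W.me s = 3).card =
      ∑ s, if s ∉ W.sys.Z T ∧ W.par s ∈ W.sys.Z T ∧ W.me s = 3 then 1 else 0 :=
    Finset.card_filter _ _
  have e5 : (Finset.univ.filter fun s => W.bad T s).card = ∑ s, if W.bad T s then 1 else 0 :=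
    Finset.card_filter _ _
  have e6 : ∑ s, (if s = W.rt then 1 else 0) = 1 := by
    rw [Finset.sum_ite_eq' Finset.univ W.rt (fun _ => 1)]
    simp
  have e7 := Finset.sum_le_sum (s := (Finset.univ : Finset S)) fun s _ => W.term T s
  simp only [Finset.sum_add_distrib, ← Finset.mul_sum] at e7
  rw [e6] at e7
  rw [e4, e5]
  rw [e3] at hU1
  omega

end TSys

end Pool.Agent.MP42.PC
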